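import Mathlib

/-! Faber type polynomials of the exterior map `w - a + c1 / (w - s1) + c2 / (w - s2)`. -/

set_option autoImplicit false

open Polynomial Filter Topology

namespace Pool.Agent.TH222.SM

/-- Parameters of the exterior map. -/
structure Par where
  a : ℂ
  s1 : ℂ
  s2 : ℂ
  c1 : ℂ
  c2 : ℂ

variable (p : Par)

/-- Elementary symmetric functions of the three preimages of `z`. -/
def Par.E1 (z : ℂ) : ℂ := z + p.a + p.s1 + p.s2
def Par.E2 (z : ℂ) : ℂ := (z + p.a) * (p.s1 + p.s2) + p.s1 * p.s2 + p.c1 + p.c2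
def Par.E3 (z : ℂ) : ℂ := (z + p.a) * p.s1 * p.s2 + p.c1 * p.s2 + p.c2 * p.s1

/-- The cubic polynomial with roots the preimages of `z`. -/
def Par.chi (z X : ℂ) : ℂ := X ^ 3 - p.E1 z * X ^ 2 + p.E2 z * X - p.E3 z

/-- The exterior map. -/
noncomputable def Par.psi (w : ℂ) : ℂ := w - p.a + p.c1 / (w - p.s1) + p.c2 / (w - p.s2)

/-- `(w1, w2, w3)` are the preimages of `z`. -/
structure Par.Tri (z w1 w2 w3 : ℂ) : Prop where
  e1 : p.E1 z = w1 + w2 + w3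
  e2 : p.E2 z = w1 * w2 + w1 * w3 + w2 * w3
  e3 : p.E3 z = w1 * w2 * w3

lemma Par.Tri.swap12 {p : Par} {z w1 w2 w3 : ℂ} (h : p.Tri z w1 w2 w3) : p.Tri z w2 w1 w3 :=
  ⟨by rw [h.e1]; ring, by rw [h.e2]; ring, by rw [h.e3]; ring⟩

lemma Par.Tri.swap13 {p : Par} {z w1 w2 w3 : ℂ} (h : p.Tri z w1 w2 w3) : p.Tri z w3 w2 w1 :=
  ⟨by rw [h.e1]; ring, by rw [h.e2]; ring, by rw [h.e3]; ring⟩

lemma Par.Tri.swap23 {p : Par} {z w1 w2 w3 : ℂ} (h : p.Tri z w1 w2 w3) : p.Tri z w1 w3 w2 :=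
  ⟨by rw [h.e1]; ring, by rw [h.e2]; ring, by rw [h.e3]; ring⟩

lemma Par.Tri.chi_eq {p : Par} {z w1 w2 w3 : ℂ} (h : p.Tri z w1 w2 w3) (X : ℂ) :
    p.chi z X = (X - w1) * (X - w2) * (X - w3) := by
  rw [Par.chi, h.e1, h.e2, h.e3]; ring

/-- Given one root, the other two. -/
lemma Par.exists_tri_of_root {p : Par} {z w1 : ℂ} (h : p.chi z w1 = 0) :
    ∃ w2 w3, p.Tri z w1 w2 w3 := by
  obtain ⟨d, hd⟩ := IsAlgClosed.exists_pow_nat_eq
    ((p.E1 z - w1) ^ 2 - 4 * (p.E2 z - w1 * (p.E1 z - w1))) (n := 2) two_pos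
  refine ⟨((p.E1 z - w1) + d) / 2, ((p.E1 z - w1) - d) / 2, ⟨by ring, ?_, ?_⟩⟩
  · linear_combination (1 / 4 : ℂ) * hd
  · rw [Par.chi] at h
    linear_combination (w1 / 4 : ℂ) * hd - h

lemma Par.exists_root (z : ℂ) : ∃ w, p.chi z w = 0 := by
  have hd : (X ^ 3 - C (p.E1 z) * X ^ 2 + C (p.E2 z) * X - C (p.E3 z) : ℂ[X]).degree = 3 := by
    compute_degree!
  obtain ⟨w, hw⟩ := IsAlgClosed.exists_root
    (X ^ 3 - C (p.E1 z) * X ^ 2 + C (p.E2 z) * X - C (p.E3 z) : ℂ[X]) (by rw [hd]; norm_num)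
  refine ⟨w, ?_⟩
  rw [IsRoot.def] at hw
  simpa [Par.chi] using hw

/-- A triple of preimages with the largest first. -/
lemma Par.exists_tri (z : ℂ) : ∃ w1 w2 w3, p.Tri z w1 w2 w3 ∧ ‖w2‖ ≤ ‖w1‖ ∧ ‖w3‖ ≤ ‖w1‖ := by
  obtain ⟨w1, h1⟩ := p.exists_root z
  obtain ⟨w2, w3, h⟩ := p.exists_tri_of_root h1
  rcases le_total ‖w2‖ ‖w1‖ with h12 | h12
  · rcases le_total ‖w3‖ ‖w1‖ with h13 | h13
    · exact ⟨w1, w2, w3, h, h12, h13⟩
    · exact ⟨w3, w2, w1, h.swap13, h12.trans h13, h13⟩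
  · rcases le_total ‖w3‖ ‖w2‖ with h23 | h23
    · exact ⟨w2, w1, w3, h.swap12, h12, h23⟩
    · exact ⟨w3, w2, w1, h.swap13, h23, h12.trans h23⟩

/-- The coefficient polynomials. -/
noncomputable def Par.P1 : ℂ[X] := X + C (p.a + p.s1 + p.s2)
noncomputable def Par.P2 : ℂ[X] :=
  (X + C p.a) * C (p.s1 + p.s2) + C (p.s1 * p.s2 + p.c1 + p.c2)
noncomputable def Par.P3 : ℂ[X] := (X + C p.a) * C (p.s1 * p.s2) + C (p.c1 * p.s2 + p.c2 * p.s1)

lemma Par.eval_P1 (z : ℂ) : p.P1.eval z = p.E1 z := by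
  simp [Par.P1, Par.E1]; ring
lemma Par.eval_P2 (z : ℂ) : p.P2.eval z = p.E2 z := by
  simp [Par.P2, Par.E2]; ring
lemma Par.eval_P3 (z : ℂ) : p.P3.eval z = p.E3 z := by
  simp [Par.P3, Par.E3]; ring
lemma Par.der_P1 : derivative p.P1 = 1 := by simp [Par.P1]
lemma Par.der_P2 : derivative p.P2 = C (p.s1 + p.s2) := by
  simp only [Par.P2, derivative_add, derivative_mul, derivative_X, derivative_C]; ring
lemma Par.der_P3 : derivative p.P3 = C (p.s1 * p.s2) := by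
  simp only [Par.P3, derivative_add, derivative_mul, derivative_X, derivative_C]; ring

/-- The polynomials `F n`, with values the power sums of the preimages. -/
noncomputable def Par.F : ℕ → ℂ[X]
  | 0 => 3
  | 1 => p.P1
  | 2 => p.P1 ^ 2 - 2 * p.P2
  | (n + 3) => p.P1 * Par.F (n + 2) - p.P2 * Par.F (n + 1) + p.P3 * Par.F n

/-- The polynomials `g n` with `F (n+1)' = (n+1) g n`. -/
noncomputable def Par.g : ℕ → ℂ[X]
  | 0 => 1
  | 1 => p.P1 - C (p.s1 + p.s2)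
  | 2 => p.P1 ^ 2 - p.P2 - C (p.s1 + p.s2) * p.P1 + C (p.s1 * p.s2)
  | (n + 3) => p.P1 * Par.g (n + 2) - p.P2 * Par.g (n + 1) + p.P3 * Par.g n

lemma Par.F_rec' (n : ℕ) : p.F (n + 3) = p.P1 * p.F (n + 2) - p.P2 * p.F (n + 1) + p.P3 * p.F n := by
  rw [Par.F]

lemma Par.g_rec' (n : ℕ) : p.g (n + 3) = p.P1 * p.g (n + 2) - p.P2 * p.g (n + 1) + p.P3 * p.g n := by
  rw [Par.g]

lemma Par.F_rec (n : ℕ) (z : ℂ) : (p.F (n + 3)).eval z = p.E1 z * (p.F (n + 2)).eval z -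
    p.E2 z * (p.F (n + 1)).eval z + p.E3 z * (p.F n).eval z := by
  rw [p.F_rec', ← p.eval_P1, ← p.eval_P2, ← p.eval_P3]
  simp

lemma Par.g_rec (n : ℕ) (z : ℂ) : (p.g (n + 3)).eval z = p.E1 z * (p.g (n + 2)).eval z -
    p.E2 z * (p.g (n + 1)).eval z + p.E3 z * (p.g n).eval z := by
  rw [p.g_rec', ← p.eval_P1, ← p.eval_P2, ← p.eval_P3]
  simp

lemma Par.F_zero (z : ℂ) : (p.F 0).eval z = 3 := by rw [Par.F]; simp
lemma Par.F_one (z : ℂ) : (p.F 1).eval z = p.E1 z := by rw [Par.F, p.eval_P1]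
lemma Par.F_two (z : ℂ) : (p.F 2).eval z = p.E1 z ^ 2 - 2 * p.E2 z := by
  rw [Par.F, ← p.eval_P1, ← p.eval_P2]; simp
lemma Par.g_zero (z : ℂ) : (p.g 0).eval z = 1 := by rw [Par.g]; simp
lemma Par.g_one (z : ℂ) : (p.g 1).eval z = p.E1 z - (p.s1 + p.s2) := by
  rw [Par.g, ← p.eval_P1]; simp
lemma Par.g_two (z : ℂ) : (p.g 2).eval z =
    p.E1 z ^ 2 - p.E2 z - (p.s1 + p.s2) * p.E1 z + p.s1 * p.s2 := by
  rw [Par.g, ← p.eval_P1, ← p.eval_P2]; simp

lemma Par.Tri.F_eq {p : Par} {z w1 w2 w3 : ℂ} (h : p.Tri z w1 w2 w3) (n : ℕ) :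
    (p.F n).eval z = w1 ^ n + w2 ^ n + w3 ^ n := by
  induction n using Nat.strong_induction_on with
  | _ n ih =>
    match n, ih with
    | 0, _ => rw [p.F_zero]; norm_num
    | 1, _ => rw [p.F_one, h.e1]; ring
    | 2, _ => rw [p.F_two, h.e1, h.e2]; ring
    | (n + 3), ih =>
      rw [p.F_rec, ih (n + 2) (by omega), ih (n + 1) (by omega), ih n (by omega), h.e1, h.e2, h.e3]
      ring

/-- A sequence with the recurrence vanishing at three consecutive places is zero. -/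
lemma rec_zero {R : Type*} [CommRing R] (e1 e2 e3 : R) (u : ℕ → R)
    (h : ∀ n, u (n + 3) = e1 * u (n + 2) - e2 * u (n + 1) + e3 * u n) (h0 : u 0 = 0) (h1 : u 1 = 0)
    (h2 : u 2 = 0) (n : ℕ) : u n = 0 := by
  have : u n = 0 ∧ u (n + 1) = 0 ∧ u (n + 2) = 0 := by
    induction n with
    | zero => exact ⟨h0, h1, h2⟩
    | succ n ih => exact ⟨ih.2.1, ih.2.2, by rw [h, ih.1, ih.2.1, ih.2.2]; ring⟩
  exact this.1

lemma Par.key (n : ℕ) : 3 * p.g (n + 2) - 2 * p.P1 * p.g (n + 1) + p.P2 * p.g n -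
    (p.F (n + 2) - C (p.s1 + p.s2) * p.F (n + 1) + C (p.s1 * p.s2) * p.F n) = 0 := by
  refine rec_zero p.P1 p.P2 p.P3 (fun n => 3 * p.g (n + 2) - 2 * p.P1 * p.g (n + 1) + p.P2 * p.g n -
    (p.F (n + 2) - C (p.s1 + p.s2) * p.F (n + 1) + C (p.s1 * p.s2) * p.F n)) (fun n => ?_) ?_ ?_ ?_ n
  · rw [show n + 3 + 2 = (n + 2) + 3 by ring, show n + 3 + 1 = (n + 1) + 3 by ring,
      p.g_rec' (n + 2), p.g_rec' (n + 1), p.g_rec' n, p.F_rec' (n + 2), p.F_rec' (n + 1),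
      p.F_rec' n]
    ring
  · simp only [zero_add]
    rw [Par.g, Par.g, Par.g, Par.F, Par.F, Par.F]
    ring
  · rw [show 1 + 2 = 0 + 3 by norm_num, p.g_rec', p.F_rec']
    simp only [zero_add, Nat.reduceAdd]
    rw [Par.g, Par.g, Par.g, Par.F, Par.F, Par.F]
    ring
  · rw [show 2 + 2 = 1 + 3 by norm_num, show 2 + 1 = 0 + 3 by norm_num, p.g_rec' 1, p.F_rec' 1,
      show 1 + 2 = 0 + 3 by norm_num, p.g_rec' 0, p.F_rec' 0]
    simp only [zero_add, Nat.reduceAdd]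
    rw [Par.g, Par.g, Par.g, Par.F, Par.F, Par.F]
    ring

/-- The derivative of `F`. -/
lemma Par.derivative_F (n : ℕ) : derivative (p.F (n + 1)) = ((n : ℂ[X]) + 1) * p.g n := by
  have hC : (C (2:ℂ)) = (2 : ℂ[X]) := map_ofNat C 2
  induction n using Nat.strong_induction_on with
  | _ n ih =>
    match n, ih with
    | 0, _ => rw [Par.F, Par.g, p.der_P1]; simp
    | 1, _ =>
      rw [Par.F, Par.g]
      simp only [derivative_sub, derivative_mul, derivative_pow, p.der_P1, p.der_P2]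
      simp [hC]
      ring
    | 2, _ =>
      rw [show 2 + 1 = 0 + 3 by norm_num, p.F_rec']
      simp only [zero_add]
      rw [Par.F, Par.F, Par.F, Par.g]
      simp only [derivative_sub, derivative_mul, derivative_pow, derivative_add, p.der_P1,
        p.der_P2, p.der_P3]
      simp [hC]
      ring
    | (n + 3), ih =>
      have h2 := ih (n + 2) (by omega)
      have h1 := ih (n + 1) (by omega)
      have h0 := ih n (by omega)
      have hk := p.key (n + 1)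
      rw [show n + 3 + 1 = (n + 1) + 3 by ring, p.F_rec' (n + 1)]
      simp only [derivative_sub, derivative_mul, derivative_add, p.der_P1, p.der_P2, p.der_P3]
      rw [show n + 1 + 2 = n + 2 + 1 by ring, h2, h1, h0, show n + 3 = n + 3 from rfl, p.g_rec' n]
      rw [show n + 1 + 2 = n + 3 by ring, show n + 1 + 1 = n + 2 by ring, p.g_rec' n] at hk
      push_cast
      rw [show n + 2 + 1 = n + 3 by ring, show n + 1 + 1 = n + 2 by ring] 
      linear_combination -hk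

end Pool.Agent.TH222.SM
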