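import Mathlib
import Pool.Agent.TH222.SM1

/-! Univalence in the exterior disc from univalence on the circle. -/

set_option autoImplicit false

open Polynomial Filter Topology Metric Set

namespace Pool.Agent.TH222.SM

variable (p : Par)

/-- The relation between two preimages of the same point. -/
def Par.K (w v : ℂ) : ℂ := (w - p.s1) * (w - p.s2) * (v - p.s1) * (v - p.s2) -
  p.c1 * (w - p.s2) * (v - p.s2) - p.c2 * (w - p.s1) * (v - p.s1)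

lemma Par.K_comm (w v : ℂ) : p.K w v = p.K v w := by rw [Par.K, Par.K]; ring

lemma Par.Tri.K_eq {p : Par} {z w1 w2 w3 : ℂ} (h : p.Tri z w1 w2 w3) : p.K w1 w2 = 0 := by
  have h1 := h.e1
  have h2 := h.e2
  have h3 := h.e3
  rw [Par.E1] at h1
  rw [Par.E2] at h2
  rw [Par.E3] at h3
  rw [Par.K]
  linear_combination ((w1 * w2 - p.s1 * p.s2) * (p.s1 + p.s2) +
    (p.s1 + p.s2 - w1 - w2) * (p.s1 * p.s2)) * h1 - (w1 * w2 - p.s1 * p.s2) * h2 -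
    (p.s1 + p.s2 - w1 - w2) * h3

/-- Standing assumptions. -/
structure Good (p : Par) : Prop where
  s1lt : ‖p.s1‖ < 1
  s2lt : ‖p.s2‖ < 1
  uni : ∀ w v : ℂ, ‖w‖ = 1 → p.K w v = 0 → ‖v‖ < 1
  base : ∀ w, p.chi 0 w = 0 → ‖w‖ < 1

lemma sub_ge {w s : ℂ} {r : ℝ} (hw : r ≤ ‖w‖) : r - ‖s‖ ≤ ‖w - s‖ := by
  have := norm_sub_norm_le w s
  linarith

lemma K_bounded {p : Par} {r : ℝ} (h1 : ‖p.s1‖ < r) (h2 : ‖p.s2‖ < r)
    (hs1 : ‖p.s1‖ < 1) (hs2 : ‖p.s2‖ < 1) {w v : ℂ} (hw : r ≤ ‖w‖)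
    (hv : r ≤ ‖v‖) (hK : p.K w v = 0) :
    ‖w‖ ≤ 1 + 2 * ‖p.c1‖ / (r - ‖p.s1‖) + 2 * ‖p.c2‖ / (r - ‖p.s2‖) := by
  by_contra hcon
  rw [not_le] at hcon
  have d1 : 0 < r - ‖p.s1‖ := by linarith
  have d2 : 0 < r - ‖p.s2‖ := by linarith
  have q1 : 0 ≤ 2 * ‖p.c1‖ / (r - ‖p.s1‖) := by positivity
  have q2 : 0 ≤ 2 * ‖p.c2‖ / (r - ‖p.s2‖) := by positivity
  have v1 : r - ‖p.s1‖ ≤ ‖v - p.s1‖ := sub_ge hv
  have v2 : r - ‖p.s2‖ ≤ ‖v - p.s2‖ := sub_ge hv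
  have w1 : 2 * ‖p.c1‖ / (r - ‖p.s1‖) < ‖w - p.s1‖ := by
    have := sub_ge (s := p.s1) (le_refl ‖w‖)
    linarith
  have w2 : 2 * ‖p.c2‖ / (r - ‖p.s2‖) < ‖w - p.s2‖ := by
    have := sub_ge (s := p.s2) (le_refl ‖w‖)
    linarith
  have n1 : 2 * ‖p.c1‖ < ‖w - p.s1‖ * ‖v - p.s1‖ := by
    rw [div_lt_iff₀ d1] at w1
    have : ‖w - p.s1‖ * (r - ‖p.s1‖) ≤ ‖w - p.s1‖ * ‖v - p.s1‖ :=
      mul_le_mul_of_nonneg_left v1 (norm_nonneg _)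
    linarith
  have n2 : 2 * ‖p.c2‖ < ‖w - p.s2‖ * ‖v - p.s2‖ := by
    rw [div_lt_iff₀ d2] at w2
    have : ‖w - p.s2‖ * (r - ‖p.s2‖) ≤ ‖w - p.s2‖ * ‖v - p.s2‖ :=
      mul_le_mul_of_nonneg_left v2 (norm_nonneg _)
    linarith
  set A := ‖w - p.s1‖ * ‖v - p.s1‖ with hA
  set B := ‖w - p.s2‖ * ‖v - p.s2‖ with hB
  have hA0 : 0 < A := lt_of_le_of_lt (by positivity) n1
  have hB0 : 0 < B := lt_of_le_of_lt (by positivity) n2
  have e : (w - p.s1) * (w - p.s2) * (v - p.s1) * (v - p.s2) =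
      p.c1 * (w - p.s2) * (v - p.s2) + p.c2 * (w - p.s1) * (v - p.s1) := by
    rw [Par.K] at hK
    linear_combination hK
  have e2 : A * B ≤ ‖p.c1‖ * B + ‖p.c2‖ * A := by
    have e3 : A * B = ‖(w - p.s1) * (w - p.s2) * (v - p.s1) * (v - p.s2)‖ := by
      rw [norm_mul, norm_mul, norm_mul, hA, hB]; ring
    rw [e3, e]
    refine (norm_add_le _ _).trans (le_of_eq ?_)
    rw [norm_mul, norm_mul, norm_mul, norm_mul, hA, hB]; ring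
  nlinarith

lemma continuous_K : Continuous fun x : ℂ × ℂ => p.K x.1 x.2 := by
  unfold Par.K
  fun_prop

/-- Univalence in the exterior disc. -/
lemma Good.uni_ext {p : Par} (hp : Good p) {w v : ℂ} (hw : 1 ≤ ‖w‖) (hK : p.K w v = 0) :
    ‖v‖ < 1 := by
  by_contra hv
  rw [not_lt] at hv
  set L : ℝ := 1 + 2 * ‖p.c1‖ / (1 - ‖p.s1‖) + 2 * ‖p.c2‖ / (1 - ‖p.s2‖) with hL
  have hbd : ∀ w v : ℂ, 1 ≤ ‖w‖ → 1 ≤ ‖v‖ → p.K w v = 0 → ‖w‖ ≤ L := fun w v h1 h2 h3 =>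
    K_bounded hp.s1lt hp.s2lt hp.s1lt hp.s2lt h1 h2 h3
  set S : Set (ℂ × ℂ) := {x | 1 ≤ ‖x.1‖ ∧ ‖x.1‖ ≤ L ∧ 1 ≤ ‖x.2‖ ∧ ‖x.2‖ ≤ L ∧ p.K x.1 x.2 = 0}
    with hS
  have c1 : Continuous fun x : ℂ × ℂ => ‖x.1‖ := by fun_prop
  have c2 : Continuous fun x : ℂ × ℂ => ‖x.2‖ := by fun_prop
  have hclosed : IsClosed S := by
    have e : S = {x | 1 ≤ ‖x.1‖} ∩ ({x | ‖x.1‖ ≤ L} ∩ ({x | 1 ≤ ‖x.2‖} ∩ ({x | ‖x.2‖ ≤ L} ∩
        {x : ℂ × ℂ | p.K x.1 x.2 = 0}))) := by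
      ext x; simp [hS]
    rw [e]
    exact (isClosed_le continuous_const c1).inter ((isClosed_le c1 continuous_const).inter
      ((isClosed_le continuous_const c2).inter ((isClosed_le c2 continuous_const).inter
        (isClosed_eq (continuous_K p) continuous_const))))
  have hcomp : IsCompact S := by
    refine ((isCompact_closedBall (0:ℂ) L).prod (isCompact_closedBall (0:ℂ) L)).of_isClosed_subset
      hclosed fun x hx => ?_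
    rw [mem_prod, mem_closedBall_zero_iff, mem_closedBall_zero_iff]
    exact ⟨hx.2.1, hx.2.2.2.1⟩
  have hne : S.Nonempty := ⟨(w, v), hw, hbd w v hw hv hK, hv, hbd v w hv hw (by rw [p.K_comm]; exact hK), hK⟩
  obtain ⟨⟨w0, v0⟩, h0, hmin⟩ := hcomp.exists_isMinOn hne c2.continuousOn
  obtain ⟨a1, a2, a3, a4, a5⟩ := h0
  simp only at a1 a2 a3 a4 a5
  have hv0 : 1 < ‖v0‖ := by
    rcases a3.lt_or_eq with h | h
    · exact h
    · have := hp.uni v0 w0 h.symm (by rw [p.K_comm]; exact a5)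
      linarith
  have hw0 : 1 < ‖w0‖ := by
    rcases a1.lt_or_eq with h | h
    · exact h
    · have := hp.uni w0 v0 h.symm a5
      linarith
  -- leading coefficient of the quadratic in `w`
  have hlead : (v0 - p.s1) * (v0 - p.s2) ≠ 0 := by
    have b1 : v0 - p.s1 ≠ 0 := by
      intro h; rw [sub_eq_zero.1 h] at hv0; linarith [hp.s1lt]
    have b2 : v0 - p.s2 ≠ 0 := by
      intro h; rw [sub_eq_zero.1 h] at hv0; linarith [hp.s2lt]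
    exact mul_ne_zero b1 b2
  have hcont1 : Tendsto (fun t : ℝ => ((1 - t : ℝ) : ℂ) * v0) (𝓝[>] 0) (𝓝 v0) := by
    have : Continuous fun t : ℝ => ((1 - t : ℝ) : ℂ) * v0 := by fun_prop
    have h := (this.tendsto 0).mono_left (nhdsWithin_le_nhds (s := Ioi (0:ℝ)))
    simpa using h
  have hA : Tendsto (fun t : ℝ => ‖p.K w0 (((1 - t : ℝ) : ℂ) * v0)‖ /
      ‖(((1 - t : ℝ) : ℂ) * v0 - p.s1) * (((1 - t : ℝ) : ℂ) * v0 - p.s2)‖) (𝓝[>] 0) (𝓝 0) := by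
    have h1 : Tendsto (fun t : ℝ => ‖p.K w0 (((1 - t : ℝ) : ℂ) * v0)‖) (𝓝[>] 0) (𝓝 0) := by
      have hc : Continuous fun v : ℂ => ‖p.K w0 v‖ := by unfold Par.K; fun_prop
      have := (hc.tendsto v0).comp hcont1
      rw [a5, norm_zero] at this
      exact this
    have h2 : Tendsto (fun t : ℝ => ‖(((1 - t : ℝ) : ℂ) * v0 - p.s1) *
        (((1 - t : ℝ) : ℂ) * v0 - p.s2)‖) (𝓝[>] 0) (𝓝 ‖(v0 - p.s1) * (v0 - p.s2)‖) := by
      have hc : Continuous fun v : ℂ => ‖(v - p.s1) * (v - p.s2)‖ := by fun_prop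
      exact (hc.tendsto v0).comp hcont1
    have := h1.div h2 (norm_ne_zero_iff.2 hlead)
    rwa [zero_div] at this
  set ε : ℝ := ‖w0‖ - 1 with hε
  have hε0 : 0 < ε := by linarith
  have ev1 : ∀ᶠ t in 𝓝[>] (0:ℝ), ‖p.K w0 (((1 - t : ℝ) : ℂ) * v0)‖ /
      ‖(((1 - t : ℝ) : ℂ) * v0 - p.s1) * (((1 - t : ℝ) : ℂ) * v0 - p.s2)‖ < ε ^ 2 :=
    hA.eventually_lt_const (by positivity)
  have ev2 : ∀ᶠ t in 𝓝[>] (0:ℝ), 1 < ‖((1 - t : ℝ) : ℂ) * v0‖ :=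
    (hcont1.norm).eventually_const_lt hv0
  have ev3 : ∀ᶠ t in 𝓝[>] (0:ℝ), 0 < t := self_mem_nhdsWithin
  have ev4 : ∀ᶠ t in 𝓝[>] (0:ℝ), t < 1 :=
    (eventually_lt_nhds one_pos).filter_mono nhdsWithin_le_nhds
  obtain ⟨t, ht1, ht2, ht3, ht4⟩ := (ev1.and (ev2.and (ev3.and ev4))).exists
  set v1 : ℂ := ((1 - t : ℝ) : ℂ) * v0 with hv1
  have hnv1 : ‖v1‖ < ‖v0‖ := by
    rw [hv1, norm_mul, Complex.norm_real, Real.norm_of_nonneg (by linarith)]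
    nlinarith
  have m1 : v1 - p.s1 ≠ 0 := by
    intro h; rw [sub_eq_zero.1 h] at ht2; linarith [hp.s1lt]
  have m2 : v1 - p.s2 ≠ 0 := by
    intro h; rw [sub_eq_zero.1 h] at ht2; linarith [hp.s2lt]
  set l : ℂ := (v1 - p.s1) * (v1 - p.s2) with hl
  have hl0 : l ≠ 0 := mul_ne_zero m1 m2
  -- roots of the quadratic
  set bb : ℂ := (-(p.s1 + p.s2) * l - p.c1 * (v1 - p.s2) - p.c2 * (v1 - p.s1)) / l with hbb
  set cc : ℂ := (p.s1 * p.s2 * l + p.c1 * p.s2 * (v1 - p.s2) + p.c2 * p.s1 * (v1 - p.s1)) / l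
    with hcc
  have hKq : ∀ w, p.K w v1 = l * (w ^ 2 + bb * w + cc) := by
    intro w
    rw [Par.K, hbb, hcc]
    field_simp
    rw [hl]
    ring
  obtain ⟨d, hd⟩ := IsAlgClosed.exists_pow_nat_eq (bb ^ 2 - 4 * cc) (n := 2) two_pos
  set r1 : ℂ := (-bb + d) / 2 with hr1
  set r2 : ℂ := (-bb - d) / 2 with hr2
  have hfac : ∀ w, w ^ 2 + bb * w + cc = (w - r1) * (w - r2) := by
    intro w
    rw [hr1, hr2]
    linear_combination (1 / 4 : ℂ) * hd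
  have hr1K : p.K r1 v1 = 0 := by rw [hKq, hfac]; ring
  have hr2K : p.K r2 v1 = 0 := by rw [hKq, hfac]; ring
  have hprod : ‖w0 - r1‖ * ‖w0 - r2‖ < ε ^ 2 := by
    have hK2 : ‖p.K w0 v1‖ = ‖l‖ * (‖w0 - r1‖ * ‖w0 - r2‖) := by
      rw [hKq, hfac, norm_mul l, norm_mul (w0 - r1)]
    rw [hK2, mul_div_cancel_left₀ _ (norm_ne_zero_iff.2 hl0)] at ht1
    exact ht1
  have hcase : ∀ r, p.K r v1 = 0 → ‖w0 - r‖ < ε → False := by
    intro r hr hlt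
    have hr1' : 1 ≤ ‖r‖ := by
      have := norm_sub_norm_le w0 r
      linarith
    have hmem : (r, v1) ∈ S := ⟨hr1', hbd r v1 hr1' ht2.le hr, ht2.le,
      hbd v1 r ht2.le hr1' (by rw [p.K_comm]; exact hr), hr⟩
    have := hmin hmem
    simp only [mem_ofPred_eq] at this
    linarith
  rcases lt_or_ge ‖w0 - r1‖ ε with h | h
  · exact hcase r1 hr1K h
  · rcases lt_or_ge ‖w0 - r2‖ ε with h' | h'
    · exact hcase r2 hr2K h'
    · nlinarith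

/-- A uniform bound for the smaller of two preimages. -/
lemma Good.exists_rho {p : Par} (hp : Good p) :
    ∃ ρ : ℝ, 0 < ρ ∧ ρ < 1 ∧ ‖p.s1‖ < ρ ∧ ‖p.s2‖ < ρ ∧ ∀ w v, p.K w v = 0 → ‖w‖ ≤ ρ ∨ ‖v‖ ≤ ρ := by
  set r : ℝ := (1 + max ‖p.s1‖ ‖p.s2‖) / 2 with hr
  have hm : max ‖p.s1‖ ‖p.s2‖ < 1 := max_lt hp.s1lt hp.s2lt
  have hm0 : 0 ≤ max ‖p.s1‖ ‖p.s2‖ := le_max_of_le_left (norm_nonneg _)
  have hr1 : r < 1 := by linarith
  have hs1 : ‖p.s1‖ < r := lt_of_le_of_lt (le_max_left _ _) (by linarith)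
  have hs2 : ‖p.s2‖ < r := lt_of_le_of_lt (le_max_right _ _) (by linarith)
  have hr0 : 0 < r := by linarith
  set L : ℝ := 1 + 2 * ‖p.c1‖ / (r - ‖p.s1‖) + 2 * ‖p.c2‖ / (r - ‖p.s2‖) with hL
  have hbd : ∀ w v : ℂ, r ≤ ‖w‖ → r ≤ ‖v‖ → p.K w v = 0 → ‖w‖ ≤ L := fun w v h1 h2 h3 =>
    K_bounded hs1 hs2 hp.s1lt hp.s2lt h1 h2 h3
  set S : Set (ℂ × ℂ) := {x | r ≤ ‖x.1‖ ∧ ‖x.1‖ ≤ L ∧ r ≤ ‖x.2‖ ∧ ‖x.2‖ ≤ L ∧ p.K x.1 x.2 = 0}
    with hS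
  have c1 : Continuous fun x : ℂ × ℂ => ‖x.1‖ := by fun_prop
  have c2 : Continuous fun x : ℂ × ℂ => ‖x.2‖ := by fun_prop
  have hclosed : IsClosed S := by
    have e : S = {x | r ≤ ‖x.1‖} ∩ ({x | ‖x.1‖ ≤ L} ∩ ({x | r ≤ ‖x.2‖} ∩ ({x | ‖x.2‖ ≤ L} ∩
        {x : ℂ × ℂ | p.K x.1 x.2 = 0}))) := by
      ext x; simp [hS]
    rw [e]
    exact (isClosed_le continuous_const c1).inter ((isClosed_le c1 continuous_const).inter
      ((isClosed_le continuous_const c2).inter ((isClosed_le c2 continuous_const).inter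
        (isClosed_eq (continuous_K p) continuous_const))))
  have hcomp : IsCompact S := by
    refine ((isCompact_closedBall (0:ℂ) L).prod (isCompact_closedBall (0:ℂ) L)).of_isClosed_subset
      hclosed fun x hx => ?_
    rw [mem_prod, mem_closedBall_zero_iff, mem_closedBall_zero_iff]
    exact ⟨hx.2.1, hx.2.2.2.1⟩
  rcases S.eq_empty_or_nonempty with hemp | hne
  · refine ⟨r, hr0, hr1, hs1, hs2, fun w v hK => ?_⟩
    by_contra hcon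
    push Not at hcon
    have : (w, v) ∈ S := ⟨hcon.1.le, hbd w v hcon.1.le hcon.2.le hK, hcon.2.le,
      hbd v w hcon.2.le hcon.1.le (by rw [p.K_comm]; exact hK), hK⟩
    rw [hemp] at this
    exact this
  · obtain ⟨x0, h0, hmax⟩ := hcomp.exists_isMaxOn hne
      (f := fun x : ℂ × ℂ => min ‖x.1‖ ‖x.2‖) (c1.min c2).continuousOn
    have hlt : min ‖x0.1‖ ‖x0.2‖ < 1 := by
      by_contra hcon
      rw [not_lt, le_min_iff] at hcon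
      have := hp.uni_ext hcon.1 h0.2.2.2.2
      linarith [hcon.2]
    have hge : r ≤ min ‖x0.1‖ ‖x0.2‖ := le_min h0.1 h0.2.2.1
    refine ⟨min ‖x0.1‖ ‖x0.2‖, lt_of_lt_of_le hr0 hge, hlt, lt_of_lt_of_le hs1 hge,
      lt_of_lt_of_le hs2 hge, fun w v hK => ?_⟩
    by_contra hcon
    push Not at hcon
    have hw : r ≤ ‖w‖ := hge.trans hcon.1.le
    have hv : r ≤ ‖v‖ := hge.trans hcon.2.le
    have hmem : (w, v) ∈ S := ⟨hw, hbd w v hw hv hK, hv,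
      hbd v w hv hw (by rw [p.K_comm]; exact hK), hK⟩
    have := hmax hmem
    simp only [mem_ofPred_eq] at this
    exact absurd this (not_le.2 (lt_min hcon.1 hcon.2))

end Pool.Agent.TH222.SM
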