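import Mathlib
import Pool.Agent.TH222.SM2

/-! Estimates for the polynomials `g n` and `F n`. -/

set_option autoImplicit false

open Polynomial Filter Topology Metric Set

namespace Pool.Agent.TH222.SM

variable (p : Par)

/-- Bound for a sequence with a two-term recurrence. -/
lemma two_term_bound {w2 w3 : ℂ} {ρ : ℝ} (hρ : 0 < ρ) (h2 : ‖w2‖ ≤ ρ) (h3 : ‖w3‖ ≤ ρ)
    (r : ℕ → ℂ) (hr : ∀ n, r (n + 2) = (w2 + w3) * r (n + 1) - w2 * w3 * r n) (n : ℕ) :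
    ‖r n‖ ≤ (‖r 0‖ + n * ‖r 1 - w2 * r 0‖ / ρ) * ρ ^ n := by
  have hv : ∀ n, ‖r (n + 1) - w2 * r n‖ ≤ ‖r 1 - w2 * r 0‖ * ρ ^ n := by
    intro n
    induction n with
    | zero => simp
    | succ n ih =>
      have e : r (n + 1 + 1) - w2 * r (n + 1) = w3 * (r (n + 1) - w2 * r n) := by
        rw [show n + 1 + 1 = n + 2 by ring, hr]; ring
      rw [e, norm_mul]
      calc ‖w3‖ * ‖r (n + 1) - w2 * r n‖ ≤ ρ * (‖r 1 - w2 * r 0‖ * ρ ^ n) := by gcongr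
        _ = ‖r 1 - w2 * r 0‖ * ρ ^ (n + 1) := by ring
  induction n with
  | zero => simp
  | succ n ih =>
    have e : r (n + 1) = w2 * r n + (r (n + 1) - w2 * r n) := by ring
    rw [e]
    refine (norm_add_le _ _).trans ?_
    rw [norm_mul]
    have h4 : ‖w2‖ * ‖r n‖ ≤ ρ * ((‖r 0‖ + n * ‖r 1 - w2 * r 0‖ / ρ) * ρ ^ n) := by gcongr
    refine (add_le_add h4 (hv n)).trans (le_of_eq ?_)
    push_cast
    field_simp
    ring

lemma Par.Tri.g_one {p : Par} {z w1 w2 w3 : ℂ} (h : p.Tri z w1 w2 w3) :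
    (p.g 1).eval z = w1 + w2 + w3 - (p.s1 + p.s2) := by
  rw [p.g_one, h.e1]

/-- The combination satisfying a one-term recurrence. -/
lemma Par.Tri.d_eq {p : Par} {z w1 w2 w3 : ℂ} (h : p.Tri z w1 w2 w3) (n : ℕ) :
    (p.g (n + 2)).eval z - (w2 + w3) * (p.g (n + 1)).eval z + w2 * w3 * (p.g n).eval z =
      w1 ^ n * ((w1 - p.s1) * (w1 - p.s2)) := by
  induction n with
  | zero =>
    simp only [zero_add]
    rw [p.g_two, p.g_one, p.g_zero, h.e1, h.e2]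
    ring
  | succ n ih =>
    rw [show n + 1 + 2 = n + 3 by ring, show n + 1 + 1 = n + 2 by ring, p.g_rec, h.e1, h.e2, h.e3]
    linear_combination w1 * ih

/-- The coefficient of `w1 ^ n` in `g n`. -/
noncomputable def Par.A (p : Par) (w1 w2 w3 : ℂ) : ℂ :=
  (w1 - p.s1) * (w1 - p.s2) / ((w1 - w2) * (w1 - w3))

lemma Par.Tri.rem_rec {p : Par} {z w1 w2 w3 : ℂ} (h : p.Tri z w1 w2 w3) (h12 : w1 ≠ w2)
    (h13 : w1 ≠ w3) (n : ℕ) :
    (p.g (n + 2)).eval z - p.A w1 w2 w3 * w1 ^ (n + 2) =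
      (w2 + w3) * ((p.g (n + 1)).eval z - p.A w1 w2 w3 * w1 ^ (n + 1)) -
      w2 * w3 * ((p.g n).eval z - p.A w1 w2 w3 * w1 ^ n) := by
  have hd := h.d_eq n
  have hA : p.A w1 w2 w3 * ((w1 - w2) * (w1 - w3)) = (w1 - p.s1) * (w1 - p.s2) := by
    rw [Par.A]
    exact div_mul_cancel₀ _ (mul_ne_zero (sub_ne_zero.2 h12) (sub_ne_zero.2 h13))
  linear_combination hd - w1 ^ n * hA

lemma Par.Tri.rem_bound {p : Par} {z w1 w2 w3 : ℂ} (h : p.Tri z w1 w2 w3) (h12 : w1 ≠ w2)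
    (h13 : w1 ≠ w3) {ρ : ℝ} (hρ : 0 < ρ) (h2 : ‖w2‖ ≤ ρ) (h3 : ‖w3‖ ≤ ρ) (n : ℕ) :
    ‖(p.g n).eval z - p.A w1 w2 w3 * w1 ^ n‖ ≤ (‖1 - p.A w1 w2 w3‖ +
      n * ‖w1 + w2 + w3 - (p.s1 + p.s2) - p.A w1 w2 w3 * w1 - w2 * (1 - p.A w1 w2 w3)‖ / ρ) *
        ρ ^ n := by
  have := two_term_bound hρ h2 h3 (fun n => (p.g n).eval z - p.A w1 w2 w3 * w1 ^ n)
    (h.rem_rec h12 h13) n
  simp only [pow_zero, mul_one, pow_one, p.g_zero, h.g_one] at this
  exact this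

/-- Bound when all preimages are small. -/
lemma Par.Tri.g_bound {p : Par} (hs1 : ‖p.s1‖ < 1) (hs2 : ‖p.s2‖ < 1) {z w1 w2 w3 : ℂ}
    (h : p.Tri z w1 w2 w3) {r : ℝ}
    (hr : 0 < r) (hr1 : r ≤ 1) (h1 : ‖w1‖ ≤ r) (h2 : ‖w2‖ ≤ r) (h3 : ‖w3‖ ≤ r) (n : ℕ) :
    ‖(p.g n).eval z‖ ≤ (1 + n * (4 + 4 * n / r) / r) * r ^ n := by
  -- u n = g (n+1) - w1 g n
  have ht : ∀ n, ‖((p.g (n + 2)).eval z - w1 * (p.g (n + 1)).eval z) -
      w2 * ((p.g (n + 1)).eval z - w1 * (p.g n).eval z)‖ ≤ 4 * r ^ n := by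
    intro n
    have hd := h.swap13.d_eq n
    have e : ((p.g (n + 2)).eval z - w1 * (p.g (n + 1)).eval z) -
      w2 * ((p.g (n + 1)).eval z - w1 * (p.g n).eval z) =
        w3 ^ n * ((w3 - p.s1) * (w3 - p.s2)) := by
      rw [← hd]; ring
    rw [e, norm_mul, norm_pow, norm_mul]
    have a1 : ‖w3 - p.s1‖ ≤ 2 := (norm_sub_le _ _).trans (by linarith)
    have a2 : ‖w3 - p.s2‖ ≤ 2 := (norm_sub_le _ _).trans (by linarith)
    have a3 : ‖w3 - p.s1‖ * ‖w3 - p.s2‖ ≤ 4 := by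
      nlinarith [norm_nonneg (w3 - p.s1), norm_nonneg (w3 - p.s2)]
    calc ‖w3‖ ^ n * (‖w3 - p.s1‖ * ‖w3 - p.s2‖) ≤ r ^ n * 4 := by gcongr
      _ = 4 * r ^ n := by ring
  have hu : ∀ n : ℕ, ‖(p.g (n + 1)).eval z - w1 * (p.g n).eval z‖ ≤ (4 + 4 * n / r) * r ^ n := by
    intro n
    induction n with
    | zero =>
      simp only [zero_add]
      rw [h.g_one, p.g_zero]
      have e : w1 + w2 + w3 - (p.s1 + p.s2) - w1 * 1 = (w2 - p.s1) + (w3 - p.s2) := by ring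
      rw [e]
      have a1 : ‖w2 - p.s1‖ ≤ 2 := (norm_sub_le _ _).trans (by linarith)
      have a2 : ‖w3 - p.s2‖ ≤ 2 := (norm_sub_le _ _).trans (by linarith)
      refine (norm_add_le _ _).trans ?_
      norm_num
      linarith
    | succ n ih =>
      have e : (p.g (n + 1 + 1)).eval z - w1 * (p.g (n + 1)).eval z =
        w2 * ((p.g (n + 1)).eval z - w1 * (p.g n).eval z) +
        (((p.g (n + 2)).eval z - w1 * (p.g (n + 1)).eval z) -
      w2 * ((p.g (n + 1)).eval z - w1 * (p.g n).eval z)) := by ring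
      rw [e]
      refine (norm_add_le _ _).trans ?_
      rw [norm_mul]
      have h4 : ‖w2‖ * ‖(p.g (n + 1)).eval z - w1 * (p.g n).eval z‖ ≤
        r * ((4 + 4 * n / r) * r ^ n) := by gcongr
      refine (add_le_add h4 (ht n)).trans (le_of_eq ?_)
      push_cast
      field_simp
      ring
  induction n with
  | zero => rw [p.g_zero]; simp
  | succ n ih =>
    have e : (p.g (n + 1)).eval z = w1 * (p.g n).eval z +
      ((p.g (n + 1)).eval z - w1 * (p.g n).eval z) := by ring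
    rw [e]
    refine (norm_add_le _ _).trans ?_
    rw [norm_mul]
    have h4 : ‖w1‖ * ‖(p.g n).eval z‖ ≤ r * ((1 + n * (4 + 4 * n / r) / r) * r ^ n) := by gcongr
    refine (add_le_add h4 (hu n)).trans ?_
    have e2 : r * ((1 + n * (4 + 4 * n / r) / r) * r ^ n) + (4 + 4 * n / r) * r ^ n =
        (1 + (n + 1) * (4 + 4 * n / r) / r) * r ^ (n + 1) := by
      field_simp
      ring
    rw [e2]
    push_cast
    gcongr
    linarith

/-- The function in the bound tends to zero, even after multiplication by `n + 1`. -/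
lemma tendsto_bound {r : ℝ} (hr : 0 < r) (hr1 : r < 1) :
    Tendsto (fun n : ℕ => ((n : ℝ) + 1) * ((1 + n * (4 + 4 * n / r) / r) * r ^ n)) atTop (𝓝 0) := by
  have hr' : |r| < 1 := by rw [abs_of_pos hr]; exact hr1
  have h0 := tendsto_pow_const_mul_const_pow_of_abs_lt_one 0 hr'
  have h1 := tendsto_pow_const_mul_const_pow_of_abs_lt_one 1 hr'
  have h2 := tendsto_pow_const_mul_const_pow_of_abs_lt_one 2 hr'
  have h3 := tendsto_pow_const_mul_const_pow_of_abs_lt_one 3 hr'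
  have h := (((h3.const_mul (4 / r ^ 2)).add (h2.const_mul (4 / r + 4 / r ^ 2))).add
    (h1.const_mul (1 + 4 / r))).add h0
  simp only [mul_zero, add_zero] at h
  refine h.congr fun n => ?_
  field_simp
  ring

lemma tendsto_bound' {r : ℝ} (hr : 0 < r) (hr1 : r < 1) (a b : ℝ) :
    Tendsto (fun n : ℕ => (a + n * b / r) * r ^ n) atTop (𝓝 0) := by
  have hr' : |r| < 1 := by rw [abs_of_pos hr]; exact hr1
  have h0 := tendsto_pow_const_mul_const_pow_of_abs_lt_one 0 hr'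
  have h1 := tendsto_pow_const_mul_const_pow_of_abs_lt_one 1 hr'
  have h := (h1.const_mul (b / r)).add (h0.const_mul a)
  simp only [mul_zero, add_zero] at h
  refine h.congr fun n => ?_
  field_simp
  ring

/-- The derivative of the exterior map. -/
noncomputable def Par.dpsi (w : ℂ) : ℂ := 1 - p.c1 / (w - p.s1) ^ 2 - p.c2 / (w - p.s2) ^ 2

lemma Par.Tri.root1 {p : Par} {z w1 w2 w3 : ℂ} (h : p.Tri z w1 w2 w3) : p.chi z w1 = 0 := by
  rw [h.chi_eq]; ring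

lemma Par.psi_of_root {p : Par} {z w : ℂ} (h : p.chi z w = 0) (h1 : w ≠ p.s1) (h2 : w ≠ p.s2) :
    p.psi w = z := by
  have a1 : w - p.s1 ≠ 0 := sub_ne_zero.2 h1
  have a2 : w - p.s2 ≠ 0 := sub_ne_zero.2 h2
  rw [Par.chi, Par.E1, Par.E2, Par.E3] at h
  rw [Par.psi]
  field_simp
  linear_combination h

lemma Par.root_of_psi {p : Par} {w : ℂ} (h1 : w ≠ p.s1) (h2 : w ≠ p.s2) :
    p.chi (p.psi w) w = 0 := by
  have a1 : w - p.s1 ≠ 0 := sub_ne_zero.2 h1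
  have a2 : w - p.s2 ≠ 0 := sub_ne_zero.2 h2
  rw [Par.chi, Par.E1, Par.E2, Par.E3, Par.psi]
  field_simp
  ring

lemma Par.Tri.dpsi_eq {p : Par} {z w1 w2 w3 : ℂ} (h : p.Tri z w1 w2 w3) (h1 : w1 ≠ p.s1)
    (h2 : w1 ≠ p.s2) : (w1 - w2) * (w1 - w3) = (w1 - p.s1) * (w1 - p.s2) * p.dpsi w1 := by
  have hz := Par.psi_of_root h.root1 h1 h2
  have a1 : w1 - p.s1 ≠ 0 := sub_ne_zero.2 h1
  have a2 : w1 - p.s2 ≠ 0 := sub_ne_zero.2 h2
  have e1 := h.e1
  have e2 := h.e2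
  rw [Par.E1] at e1
  rw [Par.E2] at e2
  have e : (w1 - w2) * (w1 - w3) = 3 * w1 ^ 2 - 2 * (z + p.a + p.s1 + p.s2) * w1 +
      ((z + p.a) * (p.s1 + p.s2) + p.s1 * p.s2 + p.c1 + p.c2) := by
    linear_combination 2 * w1 * e1 - e2
  rw [e, ← hz, Par.psi, Par.dpsi]
  field_simp
  ring

end Pool.Agent.TH222.SM
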