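import Mathlib
import Pool.Agent.TH222.SM3

/-! The asymptotic argument. -/

set_option autoImplicit false

open Polynomial Filter Topology Metric Set

namespace Pool.Agent.TH222.SM

variable (p : Par)

/-- The polynomials. -/
noncomputable def Par.P (η : ℂ[X]) (n : ℕ) : ℂ[X] :=
  X + C ((n : ℂ) + 1)⁻¹ * (X * η - p.F (n + 1) + C ((p.F (n + 1)).eval 0))

lemma Par.P_eval (η : ℂ[X]) (n : ℕ) (z : ℂ) : (p.P η n).eval z =
    z + ((n : ℂ) + 1)⁻¹ * (z * η.eval z - (p.F (n + 1)).eval z + (p.F (n + 1)).eval 0) := by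
  simp [Par.P]

lemma natCast_add_one_ne (n : ℕ) : (n : ℂ) + 1 ≠ 0 := by
  have : ((n + 1 : ℕ) : ℂ) ≠ 0 := by exact_mod_cast Nat.succ_ne_zero n
  simpa using this

lemma Par.P_deriv_eval (η : ℂ[X]) (n : ℕ) (z : ℂ) : (derivative (p.P η n)).eval z =
    1 + ((n : ℂ) + 1)⁻¹ * (η.eval z + z * (derivative η).eval z) - (p.g n).eval z := by
  rw [Par.P]
  simp only [derivative_add, derivative_X, derivative_mul, derivative_C, derivative_sub,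
    p.derivative_F]
  simp
  field_simp [natCast_add_one_ne n]
  ring

/-- A crude growth bound for a polynomial. -/
lemma poly_bound (q : ℂ[X]) : ∃ M : ℝ, 0 ≤ M ∧ ∀ z : ℂ, ‖q.eval z‖ ≤ M * (1 + ‖z‖) ^ q.natDegree := by
  refine ⟨∑ i ∈ Finset.range (q.natDegree + 1), ‖q.coeff i‖,
    Finset.sum_nonneg fun i _ => norm_nonneg _, fun z => ?_⟩
  rw [eval_eq_sum_range, Finset.sum_mul]
  refine (norm_sum_le _ _).trans (Finset.sum_le_sum fun i hi => ?_)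
  rw [norm_mul, norm_pow]
  have hi' : i ≤ q.natDegree := Nat.lt_succ_iff.1 (Finset.mem_range.1 hi)
  have h1 : ‖z‖ ^ i ≤ (1 + ‖z‖) ^ i := by gcongr; linarith
  have h2 : (1 + ‖z‖) ^ i ≤ (1 + ‖z‖) ^ q.natDegree :=
    pow_le_pow_right₀ (by linarith [norm_nonneg z]) hi'
  exact mul_le_mul_of_nonneg_left (h1.trans h2) (norm_nonneg _)

/-- Comparison of moduli close to one. -/
lemma re_le_of_norm_le {x y : ℕ → ℂ} {N : ℕ → ℝ} {a b : ℂ} (hx : Tendsto x atTop (𝓝 a))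
    (hy : Tendsto y atTop (𝓝 b)) (hN : Tendsto N atTop atTop)
    (h : ∀ᶠ j in atTop, ‖1 + x j / (N j : ℂ)‖ ≤ ‖1 + y j / (N j : ℂ)‖) : a.re ≤ b.re := by
  have key : ∀ᶠ j in atTop, (x j).re + ‖x j‖ ^ 2 * (N j)⁻¹ / 2 ≤
      (y j).re + ‖y j‖ ^ 2 * (N j)⁻¹ / 2 := by
    filter_upwards [h, hN.eventually_gt_atTop 0] with j hj hj0
    have e : ∀ u : ℂ, ‖1 + u / (N j : ℂ)‖ ^ 2 = 1 + 2 * u.re / N j + ‖u‖ ^ 2 / N j ^ 2 := by
      intro u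
      have hu : u / (N j : ℂ) = ⟨u.re / N j, u.im / N j⟩ := by
        apply Complex.ext
        · simp
        · simp
      rw [hu]
      simp only [← Complex.normSq_eq_norm_sq, Complex.normSq_apply]
      simp
      field_simp
      ring
    have h2 : ‖1 + x j / (N j : ℂ)‖ ^ 2 ≤ ‖1 + y j / (N j : ℂ)‖ ^ 2 := by gcongr
    rw [e, e] at h2
    have h3 := mul_le_mul_of_nonneg_left h2 (by positivity : (0:ℝ) ≤ N j / 2)
    have e1 : ∀ u : ℂ, N j / 2 * (1 + 2 * u.re / N j + ‖u‖ ^ 2 / N j ^ 2) =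
        N j / 2 + (u.re + ‖u‖ ^ 2 * (N j)⁻¹ / 2) := by
      intro u; field_simp; ring
    rw [e1, e1] at h3
    linarith
  have hNi : Tendsto (fun j => (N j)⁻¹) atTop (𝓝 0) := hN.inv_tendsto_atTop
  have hl : Tendsto (fun j => (x j).re + ‖x j‖ ^ 2 * (N j)⁻¹ / 2) atTop (𝓝 a.re) := by
    have h1 := ((Complex.continuous_re.tendsto a).comp hx)
    have h2 := (((hx.norm.pow 2).mul hNi).div_const 2)
    have := h1.add h2
    simpa using this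
  have hr : Tendsto (fun j => (y j).re + ‖y j‖ ^ 2 * (N j)⁻¹ / 2) atTop (𝓝 b.re) := by
    have h1 := ((Complex.continuous_re.tendsto b).comp hy)
    have h2 := (((hy.norm.pow 2).mul hNi).div_const 2)
    have := h1.add h2
    simpa using this
  exact le_of_tendsto_of_tendsto hl hr key

/-- Values at the base point. -/
lemma Good.base_bound {p : Par} (hp : Good p) :
    ∃ r : ℝ, 0 < r ∧ r < 1 ∧ (∀ n : ℕ, ‖(p.g n).eval 0‖ ≤ (1 + n * (4 + 4 * n / r) / r) * r ^ n) ∧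
      ∀ n : ℕ, ‖(p.F n).eval 0‖ ≤ 3 * r ^ n := by
  obtain ⟨w1, w2, w3, h, h12, h13⟩ := p.exists_tri 0
  have hw1 : ‖w1‖ < 1 := hp.base w1 h.root1
  set r : ℝ := (1 + ‖w1‖) / 2 with hr
  have hr0 : 0 < r := by have := norm_nonneg w1; linarith
  have hr1 : r < 1 := by linarith
  have a1 : ‖w1‖ ≤ r := by linarith
  refine ⟨r, hr0, hr1, fun n => h.g_bound hp.s1lt hp.s2lt hr0 hr1.le a1 (h12.trans a1)
    (h13.trans a1) n, fun n => ?_⟩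
  rw [h.F_eq]
  have b1 : ‖w1 ^ n‖ ≤ r ^ n := by rw [norm_pow]; gcongr
  have b2 : ‖w2 ^ n‖ ≤ r ^ n := by
    rw [norm_pow]; exact pow_le_pow_left₀ (norm_nonneg _) (h12.trans a1) n
  have b3 : ‖w3 ^ n‖ ≤ r ^ n := by
    rw [norm_pow]; exact pow_le_pow_left₀ (norm_nonneg _) (h13.trans a1) n
  calc ‖w1 ^ n + w2 ^ n + w3 ^ n‖ ≤ ‖w1 ^ n‖ + ‖w2 ^ n‖ + ‖w3 ^ n‖ := norm_add₃_le
    _ ≤ 3 * r ^ n := by linarith

/-- Critical points are bounded: the largest preimage has modulus less than `2`. -/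
lemma Good.bounded {p : Par} (hp : Good p) (η : ℂ[X]) {ρ : ℝ} (hρ : 0 < ρ) (hρ1 : ρ < 1) :
    ∀ᶠ n : ℕ in atTop, ∀ z w1 w2 w3 : ℂ, p.Tri z w1 w2 w3 → ‖w2‖ ≤ ρ → ‖w3‖ ≤ ρ →
      (derivative (p.P η n)).eval z = 0 → ‖w1‖ < 2 := by
  obtain ⟨M, hM0, hM⟩ := poly_bound (η + X * derivative η)
  set d : ℕ := (η + X * derivative η).natDegree with hd
  set c : ℝ := (4 + ‖p.a‖) with hc
  have hc0 : 0 < c := by have := norm_nonneg p.a; linarith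
  -- asymptotics
  have hlim : ∀ᶠ n : ℕ in atTop, 9 * (11 + 17 * (n:ℝ) / ρ + M * c ^ d) < 2 ^ n / 2 ^ (d + 1) := by
    have h1 : Tendsto (fun n : ℕ => (9 * (11 + 17 * (n:ℝ) / ρ + M * c ^ d)) * (1 / 2) ^ n) atTop
        (𝓝 0) := by
      have q0 := tendsto_pow_const_mul_const_pow_of_abs_lt_one 0
        (show |(1/2 : ℝ)| < 1 by rw [abs_of_pos] <;> norm_num)
      have q1 := tendsto_pow_const_mul_const_pow_of_abs_lt_one 1
        (show |(1/2 : ℝ)| < 1 by rw [abs_of_pos] <;> norm_num)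
      have := (q1.const_mul (153 / ρ)).add (q0.const_mul (9 * (11 + M * c ^ d)))
      simp only [mul_zero, add_zero] at this
      refine this.congr fun n => ?_
      field_simp
      ring
    have h2 : (0:ℝ) < 1 / 2 ^ (d + 1) := by positivity
    filter_upwards [h1.eventually_lt_const h2] with n hn
    rw [one_div, inv_pow, ← div_eq_mul_inv, div_lt_iff₀ (by positivity)] at hn
    calc _ < 1 / 2 ^ (d + 1) * 2 ^ n := hn
      _ = _ := by ring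
  filter_upwards [hlim, eventually_gt_atTop (d + 1)] with n hn hnd z w1 w2 w3 h h2 h3 hder
  by_contra hcon
  rw [not_lt] at hcon
  have h12 : w1 ≠ w2 := by intro e; rw [e] at hcon; linarith
  have h13 : w1 ≠ w3 := by intro e; rw [e] at hcon; linarith
  set A := p.A w1 w2 w3 with hA
  -- bounds for `A`
  have n1 : ‖w1‖ / 2 ≤ ‖w1 - p.s1‖ := by
    have := norm_sub_norm_le w1 p.s1; linarith [hp.s1lt]
  have n2 : ‖w1‖ / 2 ≤ ‖w1 - p.s2‖ := by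
    have := norm_sub_norm_le w1 p.s2; linarith [hp.s2lt]
  have n3 : ‖w1‖ / 2 ≤ ‖w1 - w2‖ := by
    have := norm_sub_norm_le w1 w2; linarith
  have n4 : ‖w1‖ / 2 ≤ ‖w1 - w3‖ := by
    have := norm_sub_norm_le w1 w3; linarith
  have m1 : ‖w1 - p.s1‖ ≤ 3 / 2 * ‖w1‖ := (norm_sub_le _ _).trans (by linarith [hp.s1lt])
  have m2 : ‖w1 - p.s2‖ ≤ 3 / 2 * ‖w1‖ := (norm_sub_le _ _).trans (by linarith [hp.s2lt])
  have m3 : ‖w1 - w2‖ ≤ 3 / 2 * ‖w1‖ := (norm_sub_le _ _).trans (by linarith)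
  have m4 : ‖w1 - w3‖ ≤ 3 / 2 * ‖w1‖ := (norm_sub_le _ _).trans (by linarith)
  have hw0 : 0 < ‖w1‖ := by linarith
  have hAn : ‖A‖ = ‖w1 - p.s1‖ * ‖w1 - p.s2‖ / (‖w1 - w2‖ * ‖w1 - w3‖) := by
    rw [hA, Par.A, norm_div, norm_mul, norm_mul]
  have hA1 : ‖A‖ ≤ 9 := by
    rw [hAn]
    have q1 : ‖w1 - p.s1‖ * ‖w1 - p.s2‖ ≤ (3 / 2 * ‖w1‖) * (3 / 2 * ‖w1‖) := by gcongr
    have q2 : (‖w1‖ / 2) * (‖w1‖ / 2) ≤ ‖w1 - w2‖ * ‖w1 - w3‖ := by gcongr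
    rw [div_le_iff₀ (lt_of_lt_of_le (by positivity) q2)]
    nlinarith
  have hA2 : 1 / 9 ≤ ‖A‖ := by
    rw [hAn]
    have q1 : ‖w1 - w2‖ * ‖w1 - w3‖ ≤ (3 / 2 * ‖w1‖) * (3 / 2 * ‖w1‖) := by gcongr
    have q2 : (‖w1‖ / 2) * (‖w1‖ / 2) ≤ ‖w1 - p.s1‖ * ‖w1 - p.s2‖ := by gcongr
    have q3 : (‖w1‖ / 2) * (‖w1‖ / 2) ≤ ‖w1 - w2‖ * ‖w1 - w3‖ := by gcongr
    rw [le_div_iff₀ (lt_of_lt_of_le (by positivity) q3)]
    nlinarith
  -- remainder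
  have hrem := h.rem_bound h12 h13 hρ h2 h3 n
  rw [← hA] at hrem
  have r0 : ‖1 - A‖ ≤ 10 := (norm_sub_le _ _).trans (by rw [norm_one]; linarith)
  have r1 : ‖w1 + w2 + w3 - (p.s1 + p.s2) - A * w1 - w2 * (1 - A)‖ ≤ 17 * ‖w1‖ := by
    have t1 : ‖w1 + w2 + w3 - (p.s1 + p.s2) - A * w1 - w2 * (1 - A)‖ ≤
        ‖w1‖ + ‖w2‖ + ‖w3‖ + (‖p.s1‖ + ‖p.s2‖) + ‖A‖ * ‖w1‖ + ‖w2‖ * ‖1 - A‖ := by
      calc _ ≤ ‖w1 + w2 + w3 - (p.s1 + p.s2) - A * w1‖ + ‖w2 * (1 - A)‖ := norm_sub_le _ _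
        _ ≤ (‖w1 + w2 + w3 - (p.s1 + p.s2)‖ + ‖A * w1‖) + ‖w2 * (1 - A)‖ := by
            gcongr; exact norm_sub_le _ _
        _ ≤ ((‖w1 + w2 + w3‖ + ‖p.s1 + p.s2‖) + ‖A * w1‖) + ‖w2 * (1 - A)‖ := by
            gcongr; exact norm_sub_le _ _
        _ ≤ ((‖w1‖ + ‖w2‖ + ‖w3‖ + (‖p.s1‖ + ‖p.s2‖)) + ‖A * w1‖) + ‖w2 * (1 - A)‖ := by
            gcongr
            · exact norm_add₃_le
            · exact norm_add_le _ _
        _ = _ := by rw [norm_mul, norm_mul]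
    have t2 : ‖A‖ * ‖w1‖ ≤ 9 * ‖w1‖ := by gcongr
    have t3 : ‖w2‖ * ‖1 - A‖ ≤ 1 * 10 := by
      refine mul_le_mul (by linarith) r0 (norm_nonneg _) (by norm_num)
    linarith [hp.s1lt, hp.s2lt]
  have hρn : ρ ^ n ≤ 1 := pow_le_one₀ hρ.le hρ1.le
  have hρn0 : 0 ≤ ρ ^ n := by positivity
  have hrem2 : ‖(p.g n).eval z - A * w1 ^ n‖ ≤ 10 + 17 * n / ρ * ‖w1‖ := by
    refine hrem.trans ?_
    have q1 : ‖1 - A‖ + n * ‖w1 + w2 + w3 - (p.s1 + p.s2) - A * w1 - w2 * (1 - A)‖ / ρ ≤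
        10 + n * (17 * ‖w1‖) / ρ := by gcongr
    have q2 : 10 + n * (17 * ‖w1‖) / ρ = 10 + 17 * n / ρ * ‖w1‖ := by ring
    rw [q2] at q1
    have q3 : 0 ≤ 10 + 17 * n / ρ * ‖w1‖ := by positivity
    calc _ ≤ (10 + 17 * n / ρ * ‖w1‖) * 1 := by
          apply mul_le_mul q1 hρn hρn0 q3
      _ = _ := mul_one _
  -- the critical equation
  rw [p.P_deriv_eval] at hder
  have hg : A * w1 ^ n = 1 + ((n : ℂ) + 1)⁻¹ * (η.eval z + z * (derivative η).eval z) -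
      ((p.g n).eval z - A * w1 ^ n) := by linear_combination -hder
  have hz : z = w1 + w2 + w3 - p.a - p.s1 - p.s2 := by
    have := h.e1; rw [Par.E1] at this; linear_combination this
  have hzn : 1 + ‖z‖ ≤ c * ‖w1‖ := by
    have t1 : ‖z‖ ≤ ‖w1‖ + ‖w2‖ + ‖w3‖ + ‖p.a‖ + ‖p.s1‖ + ‖p.s2‖ := by
      rw [hz]
      calc _ ≤ ‖w1 + w2 + w3 - p.a - p.s1‖ + ‖p.s2‖ := norm_sub_le _ _
        _ ≤ ‖w1 + w2 + w3 - p.a‖ + ‖p.s1‖ + ‖p.s2‖ := by gcongr; exact norm_sub_le _ _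
        _ ≤ ‖w1 + w2 + w3‖ + ‖p.a‖ + ‖p.s1‖ + ‖p.s2‖ := by gcongr; exact norm_sub_le _ _
        _ ≤ _ := by gcongr; exact norm_add₃_le
    have t2 : ‖p.a‖ ≤ ‖p.a‖ * ‖w1‖ := by
      have := norm_nonneg p.a
      nlinarith
    have t3 : c * ‖w1‖ = 4 * ‖w1‖ + ‖p.a‖ * ‖w1‖ := by rw [hc]; ring
    rw [t3]
    linarith [hp.s1lt, hp.s2lt]
  have hηb : ‖η.eval z + z * (derivative η).eval z‖ ≤ M * c ^ d * ‖w1‖ ^ d := by
    have t1 := hM z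
    have t2 : (η + X * derivative η).eval z = η.eval z + z * (derivative η).eval z := by simp
    rw [t2] at t1
    refine t1.trans ?_
    calc M * (1 + ‖z‖) ^ d ≤ M * (c * ‖w1‖) ^ d := by gcongr
      _ = _ := by rw [mul_pow]; ring
  have hninv : ‖((n : ℂ) + 1)⁻¹‖ ≤ 1 := by
    rw [norm_inv]
    have : (1:ℝ) ≤ ‖(n : ℂ) + 1‖ := by
      have : ‖((n + 1 : ℕ) : ℂ)‖ = (n + 1 : ℕ) := Complex.norm_natCast _
      push_cast at this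
      rw [this]
      have : (0:ℝ) ≤ n := Nat.cast_nonneg n
      linarith
    exact inv_le_one_of_one_le₀ this
  have hmain : 1 / 9 * ‖w1‖ ^ n ≤ 11 + 17 * n / ρ * ‖w1‖ + M * c ^ d * ‖w1‖ ^ d := by
    have t1 : 1 / 9 * ‖w1‖ ^ n ≤ ‖A * w1 ^ n‖ := by
      rw [norm_mul, norm_pow]; gcongr
    refine t1.trans ?_
    rw [hg]
    calc _ ≤ ‖1 + ((n : ℂ) + 1)⁻¹ * (η.eval z + z * (derivative η).eval z)‖ +
          ‖(p.g n).eval z - A * w1 ^ n‖ := norm_sub_le _ _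
      _ ≤ (‖(1:ℂ)‖ + ‖((n : ℂ) + 1)⁻¹ * (η.eval z + z * (derivative η).eval z)‖) +
          ‖(p.g n).eval z - A * w1 ^ n‖ := by gcongr; exact norm_add_le _ _
      _ ≤ (1 + 1 * (M * c ^ d * ‖w1‖ ^ d)) + (10 + 17 * n / ρ * ‖w1‖) := by
          rw [norm_one, norm_mul]
          gcongr
      _ = _ := by ring
  -- contradiction
  have hw1 : 1 ≤ ‖w1‖ := by linarith
  have p1 : ‖w1‖ ≤ ‖w1‖ ^ (d + 1) := by
    calc ‖w1‖ = ‖w1‖ ^ 1 := (pow_one _).symm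
      _ ≤ ‖w1‖ ^ (d + 1) := pow_le_pow_right₀ hw1 (by omega)
  have p2 : ‖w1‖ ^ d ≤ ‖w1‖ ^ (d + 1) := pow_le_pow_right₀ hw1 (by omega)
  have p3 : (1:ℝ) ≤ ‖w1‖ ^ (d + 1) := one_le_pow₀ hw1
  have hx0 : (0:ℝ) ≤ 17 * n / ρ := by positivity
  have hy0 : (0:ℝ) ≤ M * c ^ d := by positivity
  have p4 : 11 + 17 * n / ρ * ‖w1‖ + M * c ^ d * ‖w1‖ ^ d ≤
      (11 + 17 * n / ρ + M * c ^ d) * ‖w1‖ ^ (d + 1) := by
    have u1 := mul_le_mul_of_nonneg_left p1 hx0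
    have u2 := mul_le_mul_of_nonneg_left p2 hy0
    have u3 : (11 + 17 * n / ρ + M * c ^ d) * ‖w1‖ ^ (d + 1) = 11 * ‖w1‖ ^ (d + 1) +
      17 * n / ρ * ‖w1‖ ^ (d + 1) + M * c ^ d * ‖w1‖ ^ (d + 1) := by ring
    rw [u3]
    linarith
  have p5 : ‖w1‖ ^ n = ‖w1‖ ^ (d + 1) * ‖w1‖ ^ (n - (d + 1)) := by
    rw [← pow_add]; congr 1; omega
  have p6 : (2:ℝ) ^ n / 2 ^ (d + 1) ≤ ‖w1‖ ^ (n - (d + 1)) := by
    have : (2:ℝ) ^ n = 2 ^ (d + 1) * 2 ^ (n - (d + 1)) := by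
      rw [← pow_add]; congr 1; omega
    rw [this, mul_div_cancel_left₀ _ (by positivity)]
    gcongr
  have p7 : 1 / 9 * ‖w1‖ ^ (n - (d + 1)) ≤ 11 + 17 * n / ρ + M * c ^ d := by
    have h5 := hmain.trans p4
    rw [p5] at h5
    have h6 : 0 < ‖w1‖ ^ (d + 1) := by positivity
    by_contra hcc
    rw [not_le] at hcc
    have := mul_lt_mul_of_pos_right hcc h6
    have h7 : 1 / 9 * ‖w1‖ ^ (n - (d + 1)) * ‖w1‖ ^ (d + 1) =
      1 / 9 * (‖w1‖ ^ (d + 1) * ‖w1‖ ^ (n - (d + 1))) := by ring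
    linarith
  linarith

end Pool.Agent.TH222.SM
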