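import Mathlib
import Pool.Agent.TH222.SM4

/-! The asymptotic theorem. -/

set_option autoImplicit false

open Polynomial Filter Topology Metric Set

namespace Pool.Agent.TH222.SM

variable (p : Par)

/-- The property violating the mean value inequality. -/
def Bad (q : ℂ[X]) : Prop := ∀ z : ℂ, (derivative q).eval z = 0 →
  ‖z‖ * ‖(derivative q).eval 0‖ < ‖q.eval z‖

/-- The asymptotic theorem. -/
theorem Good.asymptotic {p : Par} (hp : Good p) (η : ℂ[X])
    (hη : ∀ w : ℂ, ‖w‖ = 1 → (η.eval 0).re + (w * p.dpsi w / p.psi w).re < (η.eval (p.psi w)).re) :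
    ∀ᶠ n : ℕ in atTop, Bad (p.P η n) := by
  obtain ⟨ρ, hρ0, hρ1, hs1ρ, hs2ρ, hρ⟩ := hp.exists_rho
  by_contra hcon
  rw [not_eventually] at hcon
  have hcon2 := hcon.and_eventually (hp.bounded η hρ0 hρ1)
  obtain ⟨φ, hφ, hbad⟩ := extraction_of_frequently_atTop hcon2
  -- bad critical points
  have hex : ∀ j, ∃ z w1 w2 w3 : ℂ, (derivative (p.P η (φ j))).eval z = 0 ∧
      ‖(p.P η (φ j)).eval z‖ ≤ ‖z‖ * ‖(derivative (p.P η (φ j))).eval 0‖ ∧
      p.Tri z w1 w2 w3 ∧ ‖w2‖ ≤ ρ ∧ ‖w3‖ ≤ ρ ∧ ‖w1‖ < 2 ∧ ‖w2‖ ≤ ‖w1‖ ∧ ‖w3‖ ≤ ‖w1‖ := by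
    intro j
    obtain ⟨h1, h2⟩ := hbad j
    rw [Bad] at h1
    push Not at h1
    obtain ⟨z, hz1, hz2⟩ := h1
    obtain ⟨w1, w2, w3, h, h12, h13⟩ := p.exists_tri z
    have a2 : ‖w2‖ ≤ ρ := by
      rcases hρ w1 w2 h.K_eq with h' | h'
      · exact h12.trans h'
      · exact h'
    have a3 : ‖w3‖ ≤ ρ := by
      rcases hρ w1 w3 h.swap23.K_eq with h' | h'
      · exact h13.trans h'
      · exact h'
    exact ⟨z, w1, w2, w3, hz1, hz2, h, a2, a3, h2 z w1 w2 w3 h a2 a3 hz1, h12, h13⟩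
  choose z w1 w2 w3 hz1 hz2 htri hw2 hw3 hw1 h12 h13 using hex
  -- convergent subsequence
  obtain ⟨⟨W1, W2, W3⟩, _, ψ, hψ, hlim⟩ := ((isCompact_closedBall (0:ℂ) 2).prod
    ((isCompact_closedBall (0:ℂ) 2).prod (isCompact_closedBall (0:ℂ) 2))).tendsto_subseq
    (x := fun j => (w1 j, w2 j, w3 j)) fun j => by
      simp only [mem_prod, mem_closedBall_zero_iff]
      exact ⟨(hw1 j).le, by linarith [hw2 j], by linarith [hw3 j]⟩
  have L1 : Tendsto (fun j => w1 (ψ j)) atTop (𝓝 W1) := (continuous_fst.tendsto _).comp hlim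
  have L2 : Tendsto (fun j => w2 (ψ j)) atTop (𝓝 W2) :=
    ((continuous_fst.comp continuous_snd).tendsto _).comp hlim
  have L3 : Tendsto (fun j => w3 (ψ j)) atTop (𝓝 W3) :=
    ((continuous_snd.comp continuous_snd).tendsto _).comp hlim
  set Z : ℂ := W1 + W2 + W3 - p.a - p.s1 - p.s2 with hZ
  have hzeq : ∀ j, z j = w1 j + w2 j + w3 j - p.a - p.s1 - p.s2 := by
    intro j
    have := (htri j).e1; rw [Par.E1] at this; linear_combination this
  have LZ : Tendsto (fun j => z (ψ j)) atTop (𝓝 Z) := by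
    have := ((((L1.add L2).add L3).sub_const p.a).sub_const p.s1).sub_const p.s2
    refine this.congr fun j => ?_
    rw [hzeq]
  have cE1 : Continuous p.E1 := by unfold Par.E1; fun_prop
  have cE2 : Continuous p.E2 := by unfold Par.E2; fun_prop
  have cE3 : Continuous p.E3 := by unfold Par.E3; fun_prop
  have hT : p.Tri Z W1 W2 W3 := by
    refine ⟨?_, ?_, ?_⟩
    · exact tendsto_nhds_unique ((cE1.tendsto Z).comp LZ) (((L1.add L2).add L3).congr fun j =>
        ((htri (ψ j)).e1).symm)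
    · exact tendsto_nhds_unique ((cE2.tendsto Z).comp LZ) ((((L1.mul L2).add (L1.mul L3)).add
        (L2.mul L3)).congr fun j => ((htri (ψ j)).e2).symm)
    · exact tendsto_nhds_unique ((cE3.tendsto Z).comp LZ) (((L1.mul L2).mul L3).congr fun j =>
        ((htri (ψ j)).e3).symm)
  have hW2 : ‖W2‖ ≤ ρ := le_of_tendsto L2.norm (Eventually.of_forall fun j => hw2 _)
  have hW3 : ‖W3‖ ≤ ρ := le_of_tendsto L3.norm (Eventually.of_forall fun j => hw3 _)
  -- the exponents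
  set N : ℕ → ℕ := fun j => φ (ψ j) with hN
  have hNt : Tendsto N atTop atTop := hφ.tendsto_atTop.comp hψ.tendsto_atTop
  have hNr : Tendsto (fun j => ((N j : ℝ) + 1)) atTop atTop :=
    tendsto_atTop_add_const_right _ _ (tendsto_natCast_atTop_atTop.comp hNt)
  have hinv : Tendsto (fun j => ((N j : ℂ) + 1)⁻¹) atTop (𝓝 0) := by
    have h1 : Tendsto (fun j => (((N j : ℝ) + 1)⁻¹ : ℝ)) atTop (𝓝 0) := hNr.inv_tendsto_atTop
    have h2 := (Complex.continuous_ofReal.tendsto 0).comp h1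
    rw [Complex.ofReal_zero] at h2
    refine h2.congr fun j => ?_
    simp
  -- critical equation: g -> 1
  have hq : Continuous fun u : ℂ => η.eval u + u * (derivative η).eval u := by fun_prop
  have hg1 : Tendsto (fun j => (p.g (N j)).eval (z (ψ j))) atTop (𝓝 1) := by
    have h1 := (hinv.mul ((hq.tendsto Z).comp LZ)).const_add 1
    rw [zero_mul, add_zero] at h1
    refine h1.congr fun j => ?_
    have := hz1 (ψ j)
    rw [p.P_deriv_eval] at this
    simp only [Function.comp_def]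
    linear_combination this
  -- the largest preimage is not inside
  have hW1ge : 1 ≤ ‖W1‖ := by
    by_contra hlt
    rw [not_le] at hlt
    set r : ℝ := (1 + max ‖W1‖ ρ) / 2 with hr
    have hm1 : max ‖W1‖ ρ < 1 := max_lt hlt hρ1
    have hr1 : r < 1 := by linarith
    have hrW : ‖W1‖ < r := lt_of_le_of_lt (le_max_left _ ρ) (by linarith)
    have hrρ : ρ < r := lt_of_le_of_lt (le_max_right ‖W1‖ _) (by linarith)
    have hr0 : 0 < r := hρ0.trans hrρ
    have hev : ∀ᶠ j in atTop, ‖w1 (ψ j)‖ ≤ r :=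
      (L1.norm.eventually_lt_const hrW).mono fun j hj => hj.le
    have hb := (tendsto_bound hr0 hr1).comp hNt
    have hg0 : Tendsto (fun j => (p.g (N j)).eval (z (ψ j))) atTop (𝓝 0) := by
      rw [tendsto_zero_iff_norm_tendsto_zero]
      refine squeeze_zero' (Eventually.of_forall fun j => norm_nonneg _) ?_ hb
      filter_upwards [hev] with j hj
      have h1 := (htri (ψ j)).g_bound hp.s1lt hp.s2lt hr0 hr1.le hj ((hw2 _).trans hrρ.le)
        ((hw3 _).trans hrρ.le) (N j)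
      refine h1.trans ?_
      simp only [Function.comp_def]
      have h2 : (0:ℝ) ≤ (1 + (N j : ℝ) * (4 + 4 * (N j : ℝ) / r) / r) * r ^ (N j) := by positivity
      have h3 : (0:ℝ) ≤ (N j : ℝ) := Nat.cast_nonneg _
      nlinarith
    have := tendsto_nhds_unique hg0 hg1
    exact zero_ne_one this
  have hne2 : W1 ≠ W2 := by intro e; rw [e] at hW1ge; linarith
  have hne3 : W1 ≠ W3 := by intro e; rw [e] at hW1ge; linarith
  have hns1 : W1 ≠ p.s1 := by intro e; rw [e] at hW1ge; linarith [hp.s1lt]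
  have hns2 : W1 ≠ p.s2 := by intro e; rw [e] at hW1ge; linarith [hp.s2lt]
  have hden : (W1 - W2) * (W1 - W3) ≠ 0 := mul_ne_zero (sub_ne_zero.2 hne2) (sub_ne_zero.2 hne3)
  set A : ℂ := p.A W1 W2 W3 with hA
  have hA0 : A ≠ 0 := by
    rw [hA, Par.A]
    exact div_ne_zero (mul_ne_zero (sub_ne_zero.2 hns1) (sub_ne_zero.2 hns2)) hden
  have LA : Tendsto (fun j => p.A (w1 (ψ j)) (w2 (ψ j)) (w3 (ψ j))) atTop (𝓝 A) := by
    unfold Par.A
    rw [hA, Par.A]
    exact (((L1.sub_const p.s1).mul (L1.sub_const p.s2))).div ((L1.sub L2).mul (L1.sub L3)) hden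
  have hρW : ρ < ‖W1‖ := by linarith
  have hevρ : ∀ᶠ j in atTop, ρ < ‖w1 (ψ j)‖ := L1.norm.eventually_const_lt hρW
  -- the remainder
  have hrem : Tendsto (fun j => (p.g (N j)).eval (z (ψ j)) -
      p.A (w1 (ψ j)) (w2 (ψ j)) (w3 (ψ j)) * w1 (ψ j) ^ (N j)) atTop (𝓝 0) := by
    have l1 : Tendsto (fun j => ‖1 - p.A (w1 (ψ j)) (w2 (ψ j)) (w3 (ψ j))‖) atTop (𝓝 ‖1 - A‖) :=
      (LA.const_sub 1).norm
    have l2 : Tendsto (fun j => ‖w1 (ψ j) + w2 (ψ j) + w3 (ψ j) - (p.s1 + p.s2) -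
        p.A (w1 (ψ j)) (w2 (ψ j)) (w3 (ψ j)) * w1 (ψ j) -
        w2 (ψ j) * (1 - p.A (w1 (ψ j)) (w2 (ψ j)) (w3 (ψ j)))‖) atTop
        (𝓝 ‖W1 + W2 + W3 - (p.s1 + p.s2) - A * W1 - W2 * (1 - A)‖) :=
      ((((((L1.add L2).add L3).sub_const _).sub (LA.mul L1)).sub
        (L2.mul (LA.const_sub 1)))).norm
    have e1 := l1.eventually_lt_const (lt_add_one _)
    have e2 := l2.eventually_lt_const (lt_add_one _)
    have hb := (tendsto_bound' hρ0 hρ1 (‖1 - A‖ + 1)
      (‖W1 + W2 + W3 - (p.s1 + p.s2) - A * W1 - W2 * (1 - A)‖ + 1)).comp hNt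
    rw [tendsto_zero_iff_norm_tendsto_zero]
    refine squeeze_zero' (Eventually.of_forall fun j => norm_nonneg _) ?_ hb
    filter_upwards [e1, e2, hevρ] with j h1 h2 h3
    have n2 : w1 (ψ j) ≠ w2 (ψ j) := by
      intro e; rw [e] at h3; linarith [hw2 (ψ j)]
    have n3 : w1 (ψ j) ≠ w3 (ψ j) := by
      intro e; rw [e] at h3; linarith [hw3 (ψ j)]
    have h4 := (htri (ψ j)).rem_bound n2 n3 hρ0 (hw2 _) (hw3 _) (N j)
    refine h4.trans ?_
    simp only [Function.comp_def]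
    gcongr
  have hAw : Tendsto (fun j => p.A (w1 (ψ j)) (w2 (ψ j)) (w3 (ψ j)) * w1 (ψ j) ^ (N j)) atTop
      (𝓝 1) := by
    have := hg1.sub hrem
    rw [sub_zero] at this
    exact this.congr fun j => by ring
  have hwN : Tendsto (fun j => w1 (ψ j) ^ (N j)) atTop (𝓝 A⁻¹) := by
    have h1 := hAw.div LA hA0
    rw [one_div] at h1
    refine h1.congr' ?_
    filter_upwards [LA.eventually_ne hA0] with j hj
    exact mul_div_cancel_left₀ _ hj
  -- modulus one
  have hW1 : ‖W1‖ = 1 := by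
    refine le_antisymm ?_ hW1ge
    by_contra hgt
    rw [not_le] at hgt
    set c : ℝ := (1 + ‖W1‖) / 2 with hc
    have hc1 : 1 < c := by linarith
    have hcW : c < ‖W1‖ := by linarith
    have h1 : Tendsto (fun j => c ^ (N j)) atTop atTop :=
      (tendsto_pow_atTop_atTop_of_one_lt hc1).comp hNt
    have h2 : Tendsto (fun j => ‖w1 (ψ j) ^ (N j)‖) atTop atTop := by
      refine tendsto_atTop_mono' _ ?_ h1
      filter_upwards [L1.norm.eventually_const_lt hcW] with j hj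
      rw [norm_pow]
      exact pow_le_pow_left₀ (by linarith) hj.le _
    exact not_tendsto_nhds_of_tendsto_atTop h2 _ hwN.norm
  have hpow0 : ∀ u : ℕ → ℂ, (∀ j, ‖u j‖ ≤ ρ) → Tendsto (fun j => u j ^ (N j + 1)) atTop (𝓝 0) := by
    intro u hu
    rw [tendsto_zero_iff_norm_tendsto_zero]
    have hb : Tendsto (fun j => ρ ^ (N j + 1)) atTop (𝓝 0) :=
      (tendsto_pow_atTop_nhds_zero_of_lt_one hρ0.le hρ1).comp
        ((tendsto_add_atTop_nat 1).comp hNt)
    refine squeeze_zero (fun j => norm_nonneg _) (fun j => ?_) hb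
    rw [norm_pow]
    exact pow_le_pow_left₀ (norm_nonneg _) (hu j) _
  have hF : Tendsto (fun j => (p.F (N j + 1)).eval (z (ψ j))) atTop (𝓝 (A⁻¹ * W1)) := by
    have h1 := ((hwN.mul L1).add (hpow0 _ fun j => hw2 (ψ j))).add (hpow0 _ fun j => hw3 (ψ j))
    rw [add_zero, add_zero] at h1
    refine h1.congr fun j => ?_
    rw [(htri (ψ j)).F_eq]
    ring
  obtain ⟨r0, hr00, hr01, hgr, hFr⟩ := hp.base_bound
  have hF0 : Tendsto (fun j => (p.F (N j + 1)).eval 0) atTop (𝓝 0) := by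
    rw [tendsto_zero_iff_norm_tendsto_zero]
    have hb : Tendsto (fun j => 3 * r0 ^ (N j + 1)) atTop (𝓝 0) := by
      have := ((tendsto_pow_atTop_nhds_zero_of_lt_one hr00.le hr01).comp
        ((tendsto_add_atTop_nat 1).comp hNt)).const_mul 3
      simpa [Function.comp_def] using this
    exact squeeze_zero (fun j => norm_nonneg _) (fun j => hFr _) hb
  have hG0 : Tendsto (fun j => ((N j : ℂ) + 1) * (p.g (N j)).eval 0) atTop (𝓝 0) := by
    rw [tendsto_zero_iff_norm_tendsto_zero]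
    have hb := (tendsto_bound hr00 hr01).comp hNt
    refine squeeze_zero (fun j => norm_nonneg _) (fun j => ?_) hb
    rw [norm_mul]
    have e1 : ‖(N j : ℂ) + 1‖ = (N j : ℝ) + 1 := by
      have : ‖((N j + 1 : ℕ) : ℂ)‖ = (N j + 1 : ℕ) := Complex.norm_natCast _
      push_cast at this
      exact this
    rw [e1]
    simp only [Function.comp_def]
    have h3 : (0:ℝ) ≤ (N j : ℝ) := Nat.cast_nonneg _
    exact mul_le_mul_of_nonneg_left (hgr (N j)) (by linarith)
  have hZ0 : Z ≠ 0 := by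
    intro h0
    have h1 := hT.root1
    rw [h0] at h1
    have := hp.base W1 h1
    linarith
  -- the two sequences
  have hx : Tendsto (fun j => (z (ψ j) * η.eval (z (ψ j)) - (p.F (N j + 1)).eval (z (ψ j)) +
      (p.F (N j + 1)).eval 0) / z (ψ j)) atTop (𝓝 ((Z * η.eval Z - A⁻¹ * W1 + 0) / Z)) :=
    (((LZ.mul ((η.continuous.tendsto Z).comp LZ)).sub hF).add hF0).div LZ hZ0
  have hy : Tendsto (fun j => η.eval 0 - ((N j : ℂ) + 1) * (p.g (N j)).eval 0) atTop
      (𝓝 (η.eval 0)) := by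
    have := hG0.const_sub (η.eval 0)
    rwa [sub_zero] at this
  have hcmp : ∀ᶠ j in atTop, ‖1 + ((z (ψ j) * η.eval (z (ψ j)) - (p.F (N j + 1)).eval (z (ψ j)) +
      (p.F (N j + 1)).eval 0) / z (ψ j)) / (((N j : ℝ) + 1 : ℝ) : ℂ)‖ ≤
      ‖1 + (η.eval 0 - ((N j : ℂ) + 1) * (p.g (N j)).eval 0) / (((N j : ℝ) + 1 : ℝ) : ℂ)‖ := by
    filter_upwards [LZ.eventually_ne hZ0] with j hj
    have hb := hz2 (ψ j)
    have hN1 := natCast_add_one_ne (N j)
    rw [p.P_deriv_eval, p.P_eval] at hb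
    have e1 : z (ψ j) + ((N j : ℂ) + 1)⁻¹ * (z (ψ j) * η.eval (z (ψ j)) -
        (p.F (N j + 1)).eval (z (ψ j)) + (p.F (N j + 1)).eval 0) =
        z (ψ j) * (1 + ((z (ψ j) * η.eval (z (ψ j)) - (p.F (N j + 1)).eval (z (ψ j)) +
      (p.F (N j + 1)).eval 0) / z (ψ j)) / (((N j : ℝ) + 1 : ℝ) : ℂ)) := by
      push_cast
      field_simp
    have e2 : 1 + ((N j : ℂ) + 1)⁻¹ * (η.eval 0 + 0 * (derivative η).eval 0) - (p.g (N j)).eval 0 =
        1 + (η.eval 0 - ((N j : ℂ) + 1) * (p.g (N j)).eval 0) / (((N j : ℝ) + 1 : ℝ) : ℂ) := by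
      push_cast
      field_simp
      ring
    have hb' : ‖z (ψ j) + ((N j : ℂ) + 1)⁻¹ * (z (ψ j) * η.eval (z (ψ j)) -
        (p.F (N j + 1)).eval (z (ψ j)) + (p.F (N j + 1)).eval 0)‖ ≤ ‖z (ψ j)‖ *
        ‖1 + ((N j : ℂ) + 1)⁻¹ * (η.eval 0 + 0 * (derivative η).eval 0) - (p.g (N j)).eval 0‖ := hb
    rw [e1, e2, norm_mul] at hb'
    exact le_of_mul_le_mul_left hb' (norm_pos_iff.2 hj)
  have hfin := re_le_of_norm_le hx hy hNr hcmp
  -- contradiction with the hypothesis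
  have hψW : p.psi W1 = Z := Par.psi_of_root hT.root1 hns1 hns2
  have hc := hη W1 hW1
  rw [hψW] at hc
  have hAi : A⁻¹ = p.dpsi W1 := by
    rw [hA, Par.A, inv_div, hT.dpsi_eq hns1 hns2, mul_div_cancel_left₀]
    exact mul_ne_zero (sub_ne_zero.2 hns1) (sub_ne_zero.2 hns2)
  have e : (Z * η.eval Z - A⁻¹ * W1 + 0) / Z = η.eval Z - W1 * p.dpsi W1 / Z := by
    rw [hAi]
    field_simp
    ring
  rw [e, Complex.sub_re] at hfin
  linarith

end Pool.Agent.TH222.SM
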