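import Mathlib
import Pool.Agent.TH222.SM5

/-! Polynomial approximation of rational functions with poles outside. -/

set_option autoImplicit false

open Polynomial Filter Topology Metric Set

namespace Pool.Agent.TH222.SM

variable (p : Par)

/-- Truncated expansion of `1 / (psi σ - z)`. -/
noncomputable def Par.S (σ : ℂ) (M : ℕ) : ℂ[X] :=
  ∑ n ∈ Finset.range M, C (σ⁻¹ ^ (n + 1)) * p.g n

/-- Remainder term. -/
noncomputable def Par.R (σ : ℂ) (M : ℕ) (z : ℂ) : ℂ :=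
  (p.g M).eval z * σ ^ 2 + ((p.g (M + 1)).eval z - p.E1 z * (p.g M).eval z) * σ +
    ((p.g (M + 2)).eval z - p.E1 z * (p.g (M + 1)).eval z + p.E2 z * (p.g M).eval z)

lemma Par.S_identity (σ : ℂ) (hσ : σ ≠ 0) (M : ℕ) (z : ℂ) : p.chi z σ * (p.S σ M).eval z =
    (σ - p.s1) * (σ - p.s2) - σ⁻¹ ^ M * p.R σ M z := by
  induction M with
  | zero =>
    rw [Par.S, Par.R, p.g_zero, zero_add, zero_add, p.g_one, p.g_two]
    simp
    ring
  | succ M ih =>
    have e : (p.S σ (M + 1)).eval z = (p.S σ M).eval z + σ⁻¹ ^ (M + 1) * (p.g M).eval z := by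
      rw [Par.S, Finset.sum_range_succ, ← Par.S]
      simp
    have hR : p.R σ (M + 1) z = σ * p.R σ M z - p.chi z σ * (p.g M).eval z := by
      have h3 := p.g_rec M z
      rw [Par.R, Par.R, Par.chi, show M + 1 + 1 = M + 2 by ring, show M + 1 + 2 = M + 3 by ring]
      linear_combination h3
    rw [e, mul_add, ih, hR, pow_succ]
    field_simp
    ring

lemma Par.psi_sub {p : Par} {σ : ℂ} (h1 : σ ≠ p.s1) (h2 : σ ≠ p.s2) (z : ℂ) :
    (p.psi σ - z) * ((σ - p.s1) * (σ - p.s2)) = p.chi z σ := by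
  have a1 : σ - p.s1 ≠ 0 := sub_ne_zero.2 h1
  have a2 : σ - p.s2 ≠ 0 := sub_ne_zero.2 h2
  rw [Par.psi, Par.chi, Par.E1, Par.E2, Par.E3]
  field_simp
  ring

/-- Points whose preimages lie in the closed unit disc. -/
def Par.Kset (p : Par) : Set ℂ := {z | ∃ w1 w2 w3, p.Tri z w1 w2 w3 ∧ ‖w1‖ ≤ 1 ∧ ‖w2‖ ≤ 1 ∧ ‖w3‖ ≤ 1}

lemma chi_lower {p : Par} {z σ : ℂ} (hz : z ∈ p.Kset) (hσ : 1 < ‖σ‖) :
    (‖σ‖ - 1) ^ 3 ≤ ‖p.chi z σ‖ := by
  obtain ⟨w1, w2, w3, h, h1, h2, h3⟩ := hz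
  rw [h.chi_eq, norm_mul, norm_mul]
  have a1 : ‖σ‖ - 1 ≤ ‖σ - w1‖ := by have := norm_sub_norm_le σ w1; linarith
  have a2 : ‖σ‖ - 1 ≤ ‖σ - w2‖ := by have := norm_sub_norm_le σ w2; linarith
  have a3 : ‖σ‖ - 1 ≤ ‖σ - w3‖ := by have := norm_sub_norm_le σ w3; linarith
  have h0 : 0 ≤ ‖σ‖ - 1 := by linarith
  calc (‖σ‖ - 1) ^ 3 = (‖σ‖ - 1) * (‖σ‖ - 1) * (‖σ‖ - 1) := by ring
    _ ≤ ‖σ - w1‖ * ‖σ - w2‖ * ‖σ - w3‖ := by gcongr

lemma Good.approx {p : Par} (hp : Good p) {σ : ℂ} (hσ : 1 < ‖σ‖) {ε : ℝ} (hε : 0 < ε) :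
    ∃ S : ℂ[X], ∀ z ∈ p.Kset, ‖(p.psi σ - z)⁻¹ - S.eval z‖ ≤ ε := by
  have hσ0 : σ ≠ 0 := by intro h; rw [h, norm_zero] at hσ; linarith
  have hn1 : σ ≠ p.s1 := by intro h; rw [h] at hσ; linarith [hp.s1lt]
  have hn2 : σ ≠ p.s2 := by intro h; rw [h] at hσ; linarith [hp.s2lt]
  set q : ℝ := ‖σ‖⁻¹ with hq
  have hq0 : 0 < q := inv_pos.2 (by linarith)
  have hq1 : q < 1 := inv_lt_one_of_one_lt₀ hσ
  set D : ℝ := ‖σ‖ ^ 2 + 4 * ‖σ‖ + 7 with hD
  have hD0 : 0 < D := by positivity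
  have hδ : 0 < (‖σ‖ - 1) ^ 3 := by
    have : 0 < ‖σ‖ - 1 := by linarith
    positivity
  have hlim : Tendsto (fun M : ℕ => q ^ M * (D * (1 + (M + 2 : ℝ) * (4 + 4 * (M + 2 : ℝ)))) /
      (‖σ‖ - 1) ^ 3) atTop (𝓝 0) := by
    have hq' : |q| < 1 := by rw [abs_of_pos hq0]; exact hq1
    have q0 := tendsto_pow_const_mul_const_pow_of_abs_lt_one 0 hq'
    have q1 := tendsto_pow_const_mul_const_pow_of_abs_lt_one 1 hq'
    have q2 := tendsto_pow_const_mul_const_pow_of_abs_lt_one 2 hq'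
    have := (((q2.const_mul (4 * D / (‖σ‖ - 1) ^ 3)).add
      (q1.const_mul (20 * D / (‖σ‖ - 1) ^ 3))).add (q0.const_mul (25 * D / (‖σ‖ - 1) ^ 3)))
    simp only [mul_zero, add_zero] at this
    refine this.congr fun n => ?_
    ring
  obtain ⟨M, hM⟩ := (hlim.eventually_lt_const hε).exists
  refine ⟨p.S σ M, fun z hz => ?_⟩
  have hχ := chi_lower hz hσ
  have hχ0 : p.chi z σ ≠ 0 := norm_pos_iff.1 (lt_of_lt_of_le hδ hχ)
  have hlow := hχ
  have hsub := Par.psi_sub hn1 hn2 z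
  have hbz : p.psi σ - z ≠ 0 := by
    intro h; rw [h, zero_mul] at hsub; exact hχ0 hsub.symm
  have hid := p.S_identity σ hσ0 M z
  have herr : (p.psi σ - z)⁻¹ - (p.S σ M).eval z = σ⁻¹ ^ M * p.R σ M z / p.chi z σ := by
    have e1 : (p.psi σ - z)⁻¹ = (σ - p.s1) * (σ - p.s2) / p.chi z σ := by
      rw [← hsub]
      have a1 : σ - p.s1 ≠ 0 := sub_ne_zero.2 hn1
      have a2 : σ - p.s2 ≠ 0 := sub_ne_zero.2 hn2
      field_simp
    rw [e1, eq_div_iff hχ0, sub_mul, div_mul_cancel₀ _ hχ0]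
    linear_combination -hid
  rw [herr, norm_div, norm_mul, norm_pow, norm_inv, ← hq]
  obtain ⟨w1, w2, w3, h, h1, h2, h3⟩ := hz
  have gb : ∀ n : ℕ, ‖(p.g n).eval z‖ ≤ 1 + n * (4 + 4 * n) := by
    intro n
    have := h.g_bound hp.s1lt hp.s2lt one_pos le_rfl h1 h2 h3 n
    simpa using this
  have gb' : ∀ n : ℕ, n ≤ M + 2 → ‖(p.g n).eval z‖ ≤ 1 + (M + 2 : ℝ) * (4 + 4 * (M + 2 : ℝ)) := by
    intro n hn
    have hn' : (n : ℝ) ≤ M + 2 := by exact_mod_cast hn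
    have hn0 : (0:ℝ) ≤ n := Nat.cast_nonneg n
    refine (gb n).trans ?_
    gcongr
  have hE1 : ‖p.E1 z‖ ≤ 3 := by
    rw [h.e1]
    exact norm_add₃_le.trans (by linarith)
  have hE2 : ‖p.E2 z‖ ≤ 3 := by
    rw [h.e2]
    refine norm_add₃_le.trans ?_
    rw [norm_mul, norm_mul, norm_mul]
    have t1 : ‖w1‖ * ‖w2‖ ≤ 1 := mul_le_one₀ h1 (norm_nonneg _) h2
    have t2 : ‖w1‖ * ‖w3‖ ≤ 1 := mul_le_one₀ h1 (norm_nonneg _) h3
    have t3 : ‖w2‖ * ‖w3‖ ≤ 1 := mul_le_one₀ h2 (norm_nonneg _) h3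
    linarith
  set G : ℝ := 1 + (M + 2 : ℝ) * (4 + 4 * (M + 2 : ℝ)) with hG
  have hG0 : 0 ≤ G := by positivity
  have hR : ‖p.R σ M z‖ ≤ D * G := by
    have g0 := gb' M (by omega)
    have g1 := gb' (M + 1) (by omega)
    have g2 := gb' (M + 2) le_rfl
    rw [Par.R]
    have t1 : ‖(p.g M).eval z * σ ^ 2‖ ≤ G * ‖σ‖ ^ 2 := by
      rw [norm_mul, norm_pow]; gcongr
    have t2 : ‖((p.g (M + 1)).eval z - p.E1 z * (p.g M).eval z) * σ‖ ≤ (G + 3 * G) * ‖σ‖ := by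
      rw [norm_mul]
      gcongr
      refine (norm_sub_le _ _).trans ?_
      rw [norm_mul]
      gcongr
    have t3 : ‖(p.g (M + 2)).eval z - p.E1 z * (p.g (M + 1)).eval z + p.E2 z * (p.g M).eval z‖ ≤
        G + 3 * G + 3 * G := by
      refine (norm_add_le _ _).trans ?_
      rw [norm_mul (p.E2 z)]
      gcongr
      refine (norm_sub_le _ _).trans ?_
      rw [norm_mul]
      gcongr
    refine norm_add₃_le.trans ((add_le_add (add_le_add t1 t2) t3).trans (le_of_eq ?_))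
    rw [hD]; ring
  have hfin : q ^ M * ‖p.R σ M z‖ / ‖p.chi z σ‖ ≤ q ^ M * (D * G) / (‖σ‖ - 1) ^ 3 := by
    gcongr
  exact hfin.trans hM.le

lemma Good.circle_mem {p : Par} (hp : Good p) {w : ℂ} (hw : ‖w‖ = 1) : p.psi w ∈ p.Kset := by
  have h1 : w ≠ p.s1 := by intro h; rw [h] at hw; linarith [hp.s1lt]
  have h2 : w ≠ p.s2 := by intro h; rw [h] at hw; linarith [hp.s2lt]
  obtain ⟨w2, w3, h⟩ := Par.exists_tri_of_root (Par.root_of_psi h1 h2)
  exact ⟨w, w2, w3, h, hw.le, (hp.uni w w2 hw h.K_eq).le, (hp.uni w w3 hw h.swap23.K_eq).le⟩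

lemma Good.zero_mem {p : Par} (hp : Good p) : (0:ℂ) ∈ p.Kset := by
  obtain ⟨w1, w2, w3, h, _⟩ := p.exists_tri 0
  exact ⟨w1, w2, w3, h, (hp.base _ h.root1).le, (hp.base _ h.swap12.root1).le,
    (hp.base _ h.swap13.root1).le⟩

/-- From a rational function to a polynomial. -/
theorem Good.exists_eta {p : Par} (hp : Good p) {m : ℕ} (σ α : Fin m → ℂ) (hσ : ∀ j, 1 < ‖σ j‖)
    (hC : ∀ w : ℂ, ‖w‖ = 1 → (∑ j, α j / p.psi (σ j)).re + (w * p.dpsi w / p.psi w).re <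
      (∑ j, α j / (p.psi (σ j) - p.psi w)).re) :
    ∃ η : ℂ[X], ∀ w : ℂ, ‖w‖ = 1 →
      (η.eval 0).re + (w * p.dpsi w / p.psi w).re < (η.eval (p.psi w)).re := by
  have hs1 : ∀ w : ℂ, ‖w‖ = 1 → w - p.s1 ≠ 0 := by
    intro w hw h; rw [sub_eq_zero.1 h] at hw; linarith [hp.s1lt]
  have hs2 : ∀ w : ℂ, ‖w‖ = 1 → w - p.s2 ≠ 0 := by
    intro w hw h; rw [sub_eq_zero.1 h] at hw; linarith [hp.s2lt]
  have hne : ∀ (j : Fin m) (z : ℂ), z ∈ p.Kset → p.psi (σ j) - z ≠ 0 := by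
    intro j z hz h
    have hj := hσ j
    have hn1 : σ j ≠ p.s1 := by intro h; rw [h] at hj; linarith [hp.s1lt]
    have hn2 : σ j ≠ p.s2 := by intro h; rw [h] at hj; linarith [hp.s2lt]
    have h1 := Par.psi_sub hn1 hn2 z
    rw [h, zero_mul] at h1
    have h2 := chi_lower hz hj
    rw [← h1, norm_zero] at h2
    have h3 : 0 < (‖σ j‖ - 1) ^ 3 := by
      have : 0 < ‖σ j‖ - 1 := by linarith
      positivity
    linarith
  have hψ0 : ∀ w : ℂ, ‖w‖ = 1 → p.psi w ≠ 0 := by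
    intro w hw h
    have h1 := Par.root_of_psi (p := p) (w := w) (sub_ne_zero.1 (hs1 w hw)) (sub_ne_zero.1 (hs2 w hw))
    rw [h] at h1
    have := hp.base w h1
    linarith
  set H : ℂ → ℝ := fun w => (∑ j, α j / (p.psi (σ j) - p.psi w)).re -
    ((∑ j, α j / p.psi (σ j)).re + (w * p.dpsi w / p.psi w).re) with hH
  have hcpsi : ContinuousOn p.psi (sphere 0 1) := by
    unfold Par.psi
    refine ContinuousOn.add (ContinuousOn.add (by fun_prop) ?_) ?_
    · exact continuousOn_const.div (by fun_prop) fun w hw => hs1 w (by simpa using hw)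
    · exact continuousOn_const.div (by fun_prop) fun w hw => hs2 w (by simpa using hw)
  have hcd : ContinuousOn p.dpsi (sphere 0 1) := by
    unfold Par.dpsi
    refine ContinuousOn.sub (ContinuousOn.sub (by fun_prop) ?_) ?_
    · exact continuousOn_const.div (by fun_prop) fun w hw =>
        pow_ne_zero 2 (hs1 w (by simpa using hw))
    · exact continuousOn_const.div (by fun_prop) fun w hw =>
        pow_ne_zero 2 (hs2 w (by simpa using hw))
  have hcH : ContinuousOn H (sphere 0 1) := by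
    rw [hH]
    refine ContinuousOn.sub ?_ (ContinuousOn.add continuousOn_const ?_)
    · refine Complex.continuous_re.comp_continuousOn ?_
      refine continuousOn_finset_sum _ fun j _ => ?_
      exact continuousOn_const.div (continuousOn_const.sub hcpsi) fun w hw =>
        hne j _ (hp.circle_mem (by simpa using hw))
    · refine Complex.continuous_re.comp_continuousOn ?_
      exact (continuousOn_id.mul hcd).div hcpsi fun w hw => hψ0 w (by simpa using hw)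
  have hsne : (sphere (0:ℂ) 1).Nonempty := ⟨1, by simp⟩
  obtain ⟨w0, hw0, hmin⟩ := (isCompact_sphere (0:ℂ) 1).exists_isMinOn hsne hcH
  have hw0' : ‖w0‖ = 1 := by simpa using hw0
  set mm : ℝ := H w0 with hmm
  have hmpos : 0 < mm := by
    rw [hmm, hH]
    have := hC w0 hw0'
    simp only
    linarith
  set a : ℝ := ∑ j, ‖α j‖ with ha
  have ha0 : 0 ≤ a := Finset.sum_nonneg fun j _ => norm_nonneg _
  set ε : ℝ := mm / (4 * (a + 1)) with hε
  have hε0 : 0 < ε := by positivity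
  have hex := fun j => hp.approx (hσ j) hε0
  choose S hS using hex
  have hsum : ∀ z ∈ p.Kset, ‖(∑ j, C (α j) * S j).eval z - ∑ j, α j / (p.psi (σ j) - z)‖ ≤ mm / 4 := by
    intro z hz
    rw [eval_finset_sum, ← Finset.sum_sub_distrib]
    calc ‖∑ j, ((C (α j) * S j).eval z - α j / (p.psi (σ j) - z))‖
        ≤ ∑ j, ‖(C (α j) * S j).eval z - α j / (p.psi (σ j) - z)‖ := norm_sum_le _ _
      _ ≤ ∑ j, ‖α j‖ * ε := by
          refine Finset.sum_le_sum fun j _ => ?_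
          have e : (C (α j) * S j).eval z - α j / (p.psi (σ j) - z) =
              -(α j * ((p.psi (σ j) - z)⁻¹ - (S j).eval z)) := by
            rw [eval_mul, eval_C]; ring
          rw [e, norm_neg, norm_mul]
          exact mul_le_mul_of_nonneg_left (hS j z hz) (norm_nonneg _)
      _ = a * ε := by rw [← Finset.sum_mul]
      _ ≤ mm / 4 := by
          rw [hε, ← mul_div_assoc, div_le_div_iff₀ (by positivity) (by positivity)]
          nlinarith
  refine ⟨∑ j, C (α j) * S j, fun w hw => ?_⟩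
  have h1 := hsum _ (hp.circle_mem hw)
  have h2 := hsum _ hp.zero_mem
  have r1 := (Complex.abs_re_le_norm _).trans h1
  have r2 := (Complex.abs_re_le_norm _).trans h2
  rw [Complex.sub_re, abs_le] at r1 r2
  simp only [sub_zero] at r2
  have h3 : mm ≤ H w := hmin (by simpa using hw)
  rw [hH] at h3
  simp only at h3
  linarith [r1.1, r2.2]

end Pool.Agent.TH222.SM
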