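import Mathlib

/-! Integer polynomials as lists of coefficients, and a positivity test. -/

set_option autoImplicit false

namespace Pool.Agent.TH222.SM

/-- Value of an integer polynomial at a real point. -/
noncomputable def evR (l : List ℤ) (x : ℝ) : ℝ := l.foldr (fun c acc => (c : ℝ) + x * acc) 0

@[simp] lemma evR_nil (x : ℝ) : evR [] x = 0 := rfl
@[simp] lemma evR_cons (c : ℤ) (l : List ℤ) (x : ℝ) : evR (c :: l) x = c + x * evR l x := rfl

/-- Sum. -/
def addR : List ℤ → List ℤ → List ℤ
  | [], q => q
  | p, [] => p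
  | a :: p, b :: q => (a + b) :: addR p q

lemma evR_addR (p q : List ℤ) (x : ℝ) : evR (addR p q) x = evR p x + evR q x := by
  induction p generalizing q with
  | nil => simp [addR]
  | cons a p ih =>
    cases q with
    | nil => simp [addR]
    | cons b q =>
      simp only [addR, evR_cons, ih]
      push_cast
      ring

/-- Multiplication by a constant. -/
def smulR (c : ℤ) : List ℤ → List ℤ
  | [] => []
  | a :: p => (c * a) :: smulR c p

lemma evR_smulR (c : ℤ) (p : List ℤ) (x : ℝ) : evR (smulR c p) x = c * evR p x := by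
  induction p with
  | nil => simp [smulR]
  | cons a p ih => simp only [smulR, evR_cons, ih]; push_cast; ring

/-- Product. -/
def mulR : List ℤ → List ℤ → List ℤ
  | [], _ => []
  | a :: p, q => addR (smulR a q) (0 :: mulR p q)

lemma evR_mulR (p q : List ℤ) (x : ℝ) : evR (mulR p q) x = evR p x * evR q x := by
  induction p with
  | nil => simp [mulR]
  | cons a p ih => simp only [mulR, evR_addR, evR_smulR, evR_cons, ih]; push_cast; ring

/-- Multiplication by `a + b t`, with a carry. -/
def linR (a b : ℤ) : ℤ → List ℤ → List ℤ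
  | carry, [] => [carry]
  | carry, h :: t => (carry + a * h) :: linR a b (b * h) t

lemma evR_linR (a b : ℤ) (carry : ℤ) (l : List ℤ) (x : ℝ) :
    evR (linR a b carry l) x = carry + (a + b * x) * evR l x := by
  induction l generalizing carry with
  | nil => simp [linR]
  | cons h t ih => simp only [linR, evR_cons, ih]; push_cast; ring

/-- All entries are positive. -/
def allPos : List ℤ → Bool
  | [] => true
  | a :: p => decide (0 < a) && allPos p

lemma evR_nonneg_of_allPos (l : List ℤ) (h : allPos l = true) {x : ℝ} (hx : 0 ≤ x) :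
    0 ≤ evR l x := by
  induction l with
  | nil => simp
  | cons a p ih =>
    simp only [allPos, Bool.and_eq_true, decide_eq_true_eq] at h
    rw [evR_cons]
    have h1 : (0:ℝ) < a := by exact_mod_cast h.1
    have := mul_nonneg hx (ih h.2)
    linarith

lemma evR_pos_of_allPos (l : List ℤ) (h : allPos l = true) (hne : l ≠ []) {x : ℝ} (hx : 0 ≤ x) :
    0 < evR l x := by
  cases l with
  | nil => exact absurd rfl hne
  | cons a p =>
    simp only [allPos, Bool.and_eq_true, decide_eq_true_eq] at h
    rw [evR_cons]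
    have h1 : (0:ℝ) < a := by exact_mod_cast h.1
    have := mul_nonneg hx (evR_nonneg_of_allPos p h.2 hx)
    linarith

/-- State of the substitution `x = (a + b t) / (1 + t)`. -/
def bernAux (a b : ℤ) : List ℤ → List ℤ × List ℤ
  | [] => ([], [1])
  | c :: l =>
    let s := bernAux a b l
    (addR (linR a b 0 s.1) (smulR c s.2), linR 1 1 0 s.2)

lemma bernAux_spec (a b : ℤ) (l : List ℤ) {t : ℝ} (ht : 0 ≤ t) :
    evR (bernAux a b l).2 t = (1 + t) ^ l.length ∧
    evR (bernAux a b l).1 t * (1 + t) = (1 + t) ^ l.length * evR l ((a + b * t) / (1 + t)) := by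
  have hs : (1 + t) ≠ 0 := by positivity
  induction l with
  | nil => simp [bernAux]
  | cons c l ih =>
    obtain ⟨h1, h2⟩ := ih
    simp only [bernAux, evR_addR, evR_linR, evR_smulR, evR_cons, List.length_cons, h1]
    push_cast
    refine ⟨by ring, ?_⟩
    generalize evR l ((a + b * t) / (1 + t)) = X at h2 ⊢
    have e : (1 + t) ^ (l.length + 1) * ((c : ℝ) + (a + b * t) / (1 + t) * X)
        = (1 + t) ^ (l.length + 1) * c + (a + b * t) * ((1 + t) ^ l.length * X) := by
      rw [pow_succ]
      field_simp
    rw [e, ← h2]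
    ring

/-- Test for positivity on `[a, b)`. -/
def bernTest (R : List ℤ) (a b : ℤ) : Bool :=
  decide (a < b) && allPos (bernAux a b R).1 && !(bernAux a b R).1.isEmpty

lemma bernTest_spec {R : List ℤ} {a b : ℤ} (h : bernTest R a b = true) {x : ℝ} (hx : (a:ℝ) ≤ x)
    (hxb : x < b) : 0 < evR R x := by
  simp only [bernTest, Bool.and_eq_true, decide_eq_true_eq, Bool.not_eq_true',
    List.isEmpty_eq_false_iff] at h
  obtain ⟨⟨hab, h1⟩, h2⟩ := h
  have hbx : (0:ℝ) < b - x := by linarith
  set t : ℝ := (x - a) / (b - x) with ht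
  have ht0 : 0 ≤ t := div_nonneg (by linarith) hbx.le
  have e : ((a:ℝ) + b * t) / (1 + t) = x := by
    have hab' : (b:ℝ) - a ≠ 0 := by
      have : (a:ℝ) < b := by exact_mod_cast hab
      linarith
    rw [ht]
    have h3 : (b:ℝ) - x ≠ 0 := hbx.ne'
    have h4 : (1:ℝ) + (x - a) / (b - x) ≠ 0 := by positivity
    rw [div_eq_iff h4]
    field_simp
    ring
  have hs := (bernAux_spec a b R ht0).2
  rw [e] at hs
  have hpos := evR_pos_of_allPos _ h1 h2 ht0
  have hp : 0 < (1 + t) ^ R.length := by positivity
  have h5 : 0 < (1 + t) ^ R.length * evR R x := by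
    rw [← hs]; positivity
  exact (pos_iff_pos_of_mul_pos h5).1 hp

/-- The shifted polynomial `R (a + t)`. -/
def shiftR (a : ℤ) : List ℤ → List ℤ
  | [] => []
  | c :: l => addR [c] (linR a 1 0 (shiftR a l))

lemma evR_shiftR (a : ℤ) (l : List ℤ) (t : ℝ) : evR (shiftR a l) t = evR l (a + t) := by
  induction l with
  | nil => simp [shiftR]
  | cons c l ih => simp only [shiftR, evR_addR, evR_linR, evR_cons, evR_nil, ih]; push_cast; ring

/-- Drop a trailing zero produced by the linear multiplication. -/
def dropZ (l : List ℤ) : List ℤ := l.reverse.dropWhile (fun c => decide (c = 0)) |>.reverse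

lemma evR_append_zero (l : List ℤ) (x : ℝ) : evR (l ++ [0]) x = evR l x := by
  induction l with
  | nil => simp
  | cons a l ih => simp only [List.cons_append, evR_cons, ih]

/-- Entries are nonnegative and the first one is positive. -/
def nonnegTest : List ℤ → Bool
  | [] => false
  | a :: p => decide (0 < a) && p.all (fun c => decide (0 ≤ c))

lemma evR_nonneg (l : List ℤ) (h : l.all (fun c => decide (0 ≤ c)) = true) {x : ℝ} (hx : 0 ≤ x) :
    0 ≤ evR l x := by
  induction l with
  | nil => simp
  | cons a p ih =>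
    simp only [List.all_cons, Bool.and_eq_true, decide_eq_true_eq] at h
    rw [evR_cons]
    have h1 : (0:ℝ) ≤ a := by exact_mod_cast h.1
    have := mul_nonneg hx (ih h.2)
    linarith

lemma evR_pos_of_nonnegTest (l : List ℤ) (h : nonnegTest l = true) {x : ℝ} (hx : 0 ≤ x) :
    0 < evR l x := by
  cases l with
  | nil => simp [nonnegTest] at h
  | cons a p =>
    simp only [nonnegTest, Bool.and_eq_true, decide_eq_true_eq] at h
    rw [evR_cons]
    have h1 : (0:ℝ) < a := by exact_mod_cast h.1
    have := mul_nonneg hx (evR_nonneg p h.2 hx)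
    linarith

/-- Test for positivity on `[a, b)` allowing zero coefficients after the first. -/
def bTest (R : List ℤ) (a b : ℤ) : Bool := decide (a < b) && nonnegTest (bernAux a b R).1

lemma bTest_spec {R : List ℤ} {a b : ℤ} (h : bTest R a b = true) {x : ℝ} (hx : (a:ℝ) ≤ x)
    (hxb : x < b) : 0 < evR R x := by
  simp only [bTest, Bool.and_eq_true, decide_eq_true_eq] at h
  obtain ⟨hab, h1⟩ := h
  have hbx : (0:ℝ) < b - x := by linarith
  set t : ℝ := (x - a) / (b - x) with ht
  have ht0 : 0 ≤ t := div_nonneg (by linarith) hbx.le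
  have e : ((a:ℝ) + b * t) / (1 + t) = x := by
    have hab' : (b:ℝ) - a ≠ 0 := by
      have : (a:ℝ) < b := by exact_mod_cast hab
      linarith
    rw [ht]
    have h3 : (b:ℝ) - x ≠ 0 := hbx.ne'
    have h4 : (1:ℝ) + (x - a) / (b - x) ≠ 0 := by positivity
    rw [div_eq_iff h4]
    field_simp
    ring
  have hs := (bernAux_spec a b R ht0).2
  rw [e] at hs
  have hpos := evR_pos_of_nonnegTest _ h1 ht0
  have hp : 0 < (1 + t) ^ R.length := by positivity
  have h5 : 0 < (1 + t) ^ R.length * evR R x := by
    rw [← hs]; positivity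
  exact (pos_iff_pos_of_mul_pos h5).1 hp

/-- Test for positivity on `[a, ∞)` through a list of breakpoints. -/
def posTest (R : List ℤ) (a : ℤ) : List ℤ → Bool
  | [] => nonnegTest (shiftR a R)
  | b :: l => bTest R a b && posTest R b l

lemma posTest_spec {R : List ℤ} {a : ℤ} {l : List ℤ} (h : posTest R a l = true) {x : ℝ}
    (hx : (a:ℝ) ≤ x) : 0 < evR R x := by
  induction l generalizing a with
  | nil =>
    have h1 := evR_pos_of_nonnegTest _ h (x := x - a) (by linarith)
    rw [evR_shiftR] at h1
    simpa using h1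
  | cons b l ih =>
    simp only [posTest, Bool.and_eq_true] at h
    rcases lt_or_ge x b with hb | hb
    · exact bTest_spec h.1 hx hb
    · exact ih h.2 hb

/-- `R (-x)`. -/
def negX : List ℤ → List ℤ
  | [] => []
  | a :: p => a :: smulR (-1) (negX p)

lemma evR_negX (l : List ℤ) (x : ℝ) : evR (negX l) x = evR l (-x) := by
  induction l with
  | nil => simp [negX]
  | cons a p ih => simp only [negX, evR_cons, evR_smulR, ih]; push_cast; ring

/-- Positivity on the whole line. -/
def lineTest (R : List ℤ) (l1 l2 : List ℤ) : Bool := posTest R 0 l1 && posTest (negX R) 0 l2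

lemma lineTest_spec {R l1 l2 : List ℤ} (h : lineTest R l1 l2 = true) (x : ℝ) : 0 < evR R x := by
  simp only [lineTest, Bool.and_eq_true] at h
  rcases le_total 0 x with hx | hx
  · exact posTest_spec h.1 (by simpa using hx)
  · have := posTest_spec h.2 (x := -x) (by simpa using hx)
    rwa [evR_negX, neg_neg] at this

/-- Gaussian integer polynomials, as pairs of integer polynomials. -/
noncomputable def evG (l : List ℤ × List ℤ) (x : ℝ) : ℂ := (evR l.1 x : ℂ) + (evR l.2 x : ℂ) * Complex.I

def addG (p q : List ℤ × List ℤ) : List ℤ × List ℤ := (addR p.1 q.1, addR p.2 q.2)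
def mulG (p q : List ℤ × List ℤ) : List ℤ × List ℤ :=
  (addR (mulR p.1 q.1) (smulR (-1) (mulR p.2 q.2)), addR (mulR p.1 q.2) (mulR p.2 q.1))
/-- Multiplication by the Gaussian integer `a + b i`. -/
def smulG (a b : ℤ) (p : List ℤ × List ℤ) : List ℤ × List ℤ :=
  (addR (smulR a p.1) (smulR (-b) p.2), addR (smulR a p.2) (smulR b p.1))

lemma evG_addG (p q : List ℤ × List ℤ) (x : ℝ) : evG (addG p q) x = evG p x + evG q x := by
  simp only [evG, addG, evR_addR]; push_cast; ring

lemma evG_mulG (p q : List ℤ × List ℤ) (x : ℝ) : evG (mulG p q) x = evG p x * evG q x := by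
  simp only [evG, mulG, evR_addR, evR_mulR, evR_smulR]
  push_cast
  linear_combination (-(evR p.2 x * evR q.2 x : ℂ)) * Complex.I_sq

lemma evG_smulG (a b : ℤ) (p : List ℤ × List ℤ) (x : ℝ) :
    evG (smulG a b p) x = ((a : ℂ) + b * Complex.I) * evG p x := by
  simp only [evG, smulG, evR_addR, evR_smulR]
  push_cast
  linear_combination (-(b * evR p.2 x : ℂ)) * Complex.I_sq

/-- Real part of `p * conj q`. -/
def reG (p q : List ℤ × List ℤ) : List ℤ := addR (mulR p.1 q.1) (mulR p.2 q.2)

lemma evR_reG (p q : List ℤ × List ℤ) (x : ℝ) :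
    evR (reG p q) x = (evG p x * (starRingEnd ℂ) (evG q x)).re := by
  simp only [evG, reG, evR_addR, evR_mulR]
  simp

end Pool.Agent.TH222.SM
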