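import Mathlib
import Pool.Agent.TH222.SM6
import Pool.Agent.TH222.SM7

/-! Location of the zeros of quadratic and cubic polynomials in the unit disc. -/

set_option autoImplicit false

open Complex ComplexConjugate

namespace Pool.Agent.TH222.SM

lemma normSq_flip (E : ℝ) (F w : ℂ) :
    normSq (E * w + F) - normSq (E + conj F * w) = (E ^ 2 - normSq F) * (normSq w - 1) := by
  simp only [normSq_apply, add_re, add_im, mul_re, mul_im, ofReal_re, ofReal_im, conj_re, conj_im]
  ring

lemma one_le_normSq {w : ℂ} (h : ¬ ‖w‖ < 1) : 1 ≤ normSq w := by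
  rw [not_lt] at h
  rw [normSq_eq_norm_sq]
  nlinarith [norm_nonneg w]

/-- Two-step test for the quadratic. -/
lemma schur2 {A β γ w : ℂ} (h1 : normSq γ < normSq A)
    (h2 : normSq (β * conj A - γ * conj β) < (normSq A - normSq γ) ^ 2)
    (h : A * w ^ 2 + β * w + γ = 0) : ‖w‖ < 1 := by
  by_contra hw
  have hw1 := one_le_normSq hw
  set E : ℝ := normSq A - normSq γ with hE
  set F : ℂ := β * conj A - γ * conj β with hF
  have hE0 : 0 < E := by linarith
  have hEc : (E : ℂ) = A * conj A - γ * conj γ := by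
    rw [hE, mul_conj, mul_conj]; push_cast; ring
  have hFc : conj F = conj β * A - conj γ * β := by
    rw [hF]; simp
  have e : A * w * (E * w + F) = -(γ * (E + conj F * w)) := by
    have : A * w * (E * w + F) + γ * (E + conj F * w) = E * (A * w ^ 2 + β * w + γ) := by
      rw [hFc, hEc, hF]; ring
    rw [h, mul_zero] at this
    linear_combination this
  have e2 := congrArg normSq e
  rw [normSq_neg, normSq_mul, normSq_mul, normSq_mul] at e2
  have hfl := normSq_flip E F w
  have h3 : 0 < normSq (E * w + F) := by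
    by_contra hcon
    have h4 : normSq (E * w + F) = 0 := le_antisymm (not_lt.1 hcon) (normSq_nonneg _)
    have h5 : E * w + F = 0 := normSq_eq_zero.1 h4
    have h6 : F = -(E * w) := by linear_combination h5
    have h7 : normSq F = E ^ 2 * normSq w := by
      rw [h6, normSq_neg, normSq_mul, normSq_ofReal]; ring
    rw [h7] at h2
    nlinarith [sq_nonneg E, pow_pos hE0 2]
  have h8 : normSq (E + conj F * w) ≤ normSq (E * w + F) := by
    have : 0 ≤ (E ^ 2 - normSq F) * (normSq w - 1) := mul_nonneg (by linarith) (by linarith)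
    linarith
  have h9 : normSq γ * normSq (E + conj F * w) ≤ normSq γ * normSq (E * w + F) :=
    mul_le_mul_of_nonneg_left h8 (normSq_nonneg _)
  have h10 : normSq γ * normSq (E * w + F) < normSq A * normSq (E * w + F) :=
    mul_lt_mul_of_pos_right h1 h3
  have h11 : normSq A * normSq (E * w + F) ≤ normSq A * normSq w * normSq (E * w + F) := by
    have : normSq A * 1 ≤ normSq A * normSq w := mul_le_mul_of_nonneg_left hw1 (normSq_nonneg _)
    rw [mul_one] at this
    exact mul_le_mul_of_nonneg_right this h3.le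
  linarith

/-- The reversed quadratic is smaller outside the disc. -/
lemma star_le {E : ℝ} {F G w : ℂ} (h1 : normSq G < E ^ 2)
    (h2 : normSq (F * E - G * conj F) < (E ^ 2 - normSq G) ^ 2) (hw : 1 ≤ normSq w) :
    normSq (E + conj F * w + conj G * w ^ 2) ≤ normSq (E * w ^ 2 + F * w + G) := by
  set E' : ℝ := E ^ 2 - normSq G with hE'
  set F' : ℂ := F * E - G * conj F with hF'
  have hE0 : 0 < E' := by linarith
  have hfl := normSq_flip E' F' w
  have hEc : (E' : ℂ) = (E:ℂ) ^ 2 - G * conj G := by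
    rw [hE', mul_conj]; push_cast; ring
  have hFc : conj F' = conj F * E - conj G * F := by
    rw [hF']; simp
  set T : ℂ := E * w ^ 2 + F * w + G with hT
  set T' : ℂ := E + conj F * w + conj G * w ^ 2 with hT'
  have e1 : w * (E' * w + F') = E * T - G * T' := by
    rw [hEc, hF', hT, hT']; ring
  have e2 : E' + conj F' * w = E * T' - conj G * T := by
    rw [hEc, hFc, hT, hT']; ring
  have e3 : normSq (E * T - G * T') - normSq (E * T' - conj G * T) =
      (E ^ 2 - normSq G) * (normSq T - normSq T') := by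
    simp only [normSq_apply, sub_re, sub_im, mul_re, mul_im, ofReal_re, ofReal_im, conj_re, conj_im]
    ring
  have h4 : normSq (E' * w + F') ≤ normSq (w * (E' * w + F')) := by
    rw [normSq_mul]
    nlinarith [normSq_nonneg (E' * w + F')]
  have h5 : 0 ≤ (E' ^ 2 - normSq F') * (normSq w - 1) := mul_nonneg (by linarith) (by linarith)
  have h6 : 0 ≤ E' * (normSq T - normSq T') := by
    rw [hE', ← e3, ← e1, ← e2]
    linarith
  have h7 : 0 ≤ normSq T - normSq T' := by
    by_contra hcon
    rw [not_le] at hcon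
    nlinarith
  linarith

/-- Three-step test for the cubic. -/
lemma schur3 {A : ℝ} {b0 b1 b2 w : ℂ} (h0 : normSq b0 < A ^ 2)
    (h1 : normSq (b1 * A - b0 * conj b2) < (A ^ 2 - normSq b0) ^ 2)
    (h2 : normSq ((b2 * A - b0 * conj b1) * ((A ^ 2 - normSq b0 : ℝ) : ℂ) -
        (b1 * A - b0 * conj b2) * conj (b2 * A - b0 * conj b1)) <
      ((A ^ 2 - normSq b0) ^ 2 - normSq (b1 * A - b0 * conj b2)) ^ 2)
    (h : A * w ^ 3 + b2 * w ^ 2 + b1 * w + b0 = 0) : ‖w‖ < 1 := by
  by_contra hw
  have hw1 := one_le_normSq hw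
  set E : ℝ := A ^ 2 - normSq b0 with hE
  set F : ℂ := b2 * A - b0 * conj b1 with hF
  set G : ℂ := b1 * A - b0 * conj b2 with hG
  have hE0 : 0 < E := by linarith
  have hEc : (E : ℂ) = (A:ℂ) ^ 2 - b0 * conj b0 := by
    rw [hE, mul_conj]; push_cast; ring
  have hFc : conj F = conj b2 * A - conj b0 * b1 := by
    rw [hF]; simp
  have hGc : conj G = conj b1 * A - conj b0 * b2 := by
    rw [hG]; simp
  have e : A * w * (E * w ^ 2 + F * w + G) = -(b0 * (E + conj F * w + conj G * w ^ 2)) := by
    have : A * w * (E * w ^ 2 + F * w + G) + b0 * (E + conj F * w + conj G * w ^ 2) =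
        E * (A * w ^ 3 + b2 * w ^ 2 + b1 * w + b0) := by
      rw [hFc, hGc, hEc, hF, hG]; ring
    rw [h, mul_zero] at this
    linear_combination this
  have e2 := congrArg normSq e
  rw [normSq_neg, normSq_mul, normSq_mul, normSq_mul, normSq_ofReal] at e2
  have h8 := star_le h1 h2 hw1
  have h3 : 0 < normSq (E * w ^ 2 + F * w + G) := by
    by_contra hcon
    have h4 : normSq (E * w ^ 2 + F * w + G) = 0 := le_antisymm (not_lt.1 hcon) (normSq_nonneg _)
    have h5 : (E : ℂ) * w ^ 2 + F * w + G = 0 := normSq_eq_zero.1 h4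
    refine hw (schur2 (A := (E:ℂ)) (β := F) (γ := G) ?_ ?_ h5)
    · rw [normSq_ofReal, ← sq]; exact h1
    · rw [conj_ofReal, normSq_ofReal, ← sq]; exact h2
  have h9 : normSq b0 * normSq (E + conj F * w + conj G * w ^ 2) ≤
      normSq b0 * normSq (E * w ^ 2 + F * w + G) :=
    mul_le_mul_of_nonneg_left h8 (normSq_nonneg _)
  have h10 : normSq b0 * normSq (E * w ^ 2 + F * w + G) < A ^ 2 * normSq (E * w ^ 2 + F * w + G) :=
    mul_lt_mul_of_pos_right h0 h3
  have h11 : A ^ 2 * normSq (E * w ^ 2 + F * w + G) ≤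
      A ^ 2 * normSq w * normSq (E * w ^ 2 + F * w + G) := by
    have : A ^ 2 * 1 ≤ A ^ 2 * normSq w := mul_le_mul_of_nonneg_left hw1 (sq_nonneg _)
    rw [mul_one] at this
    exact mul_le_mul_of_nonneg_right this h3.le
  rw [sq] at h10 h11
  nlinarith

/-- Points of the circle other than `-1`. -/
lemma circle_param {w : ℂ} (hw : ‖w‖ = 1) (hne : w ≠ -1) (N : ℝ) (hN : 0 < N) :
    ∃ x : ℝ, (N : ℂ) - x * I ≠ 0 ∧ w = ((N : ℂ) + x * I) / ((N : ℂ) - x * I) := by
  have h1 : w.re ^ 2 + w.im ^ 2 = 1 := by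
    have := normSq_eq_norm_sq w
    rw [hw, normSq_apply] at this
    linarith
  have h2 : (1 + w.re) ≠ 0 := by
    intro h
    apply hne
    have h3 : w.re = -1 := by linarith
    rw [h3] at h1
    have h4 : w.im = 0 := by nlinarith
    apply Complex.ext <;> simp [h3, h4]
  obtain ⟨x, hx⟩ : ∃ x : ℝ, x * (1 + w.re) = N * w.im :=
    ⟨N * w.im / (1 + w.re), div_mul_cancel₀ _ h2⟩
  have hd : (N : ℂ) - x * I ≠ 0 := by
    intro h
    have := congrArg Complex.re h
    simp at this
    exact hN.ne' this
  refine ⟨x, hd, ?_⟩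
  rw [eq_div_iff hd]
  have h3 : w.im * x = N * (1 - w.re) := by
    apply mul_right_cancel₀ h2
    linear_combination w.im * hx + N * h1
  apply Complex.ext
  · simp
    linear_combination h3
  · simp
    linear_combination -hx

end Pool.Agent.TH222.SM
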