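import Mathlib
import Pool.Agent.TH222.SM8

/-! The explicit exterior map and the kernel checks. -/

set_option autoImplicit false

open Complex ComplexConjugate

namespace Pool.Agent.TH222.SM

/-- Pairs of integer polynomials. -/
abbrev GPo := List ℤ × List ℤ

/-- Gaussian integers as pairs. -/
abbrev GI := ℤ × ℤ
def gmul (x y : GI) : GI := (x.1 * y.1 - x.2 * y.2, x.1 * y.2 + x.2 * y.1)
def gadd (x y : GI) : GI := (x.1 + y.1, x.2 + y.2)

/-- The complex number. -/
noncomputable def gc (x : GI) : ℂ := (x.1 : ℂ) + (x.2 : ℂ) * I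

lemma gc_mul (x y : GI) : gc (gmul x y) = gc x * gc y := by
  simp only [gc, gmul]
  push_cast
  linear_combination (-(x.2 * y.2 : ℂ)) * I_sq

lemma gc_add (x y : GI) : gc (gadd x y) = gc x + gc y := by
  simp only [gc, gadd]
  push_cast
  ring

def sG (a : GI) (p : GPo) : GPo := smulG a.1 a.2 p

lemma evG_sG (a : GI) (p : GPo) (x : ℝ) : evG (sG a p) x = gc a * evG p x := by
  rw [sG, evG_smulG, gc]

def cU : GPo := ([200000], [0, 1])
def cV : GPo := ([200000], [0, -1])

def qL1 (U V : GPo) : GPo := addG (sG (100000, 0) U) (sG (-99999, 0) V)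
def qL2 (U V : GPo) : GPo := addG (sG (10000, 0) U) (sG (-9864, -59) V)
def qM0 (U V : GPo) : GPo :=
  addG (sG (100, 0) (mulG (addG (sG (1000, 0) U) (sG (-921, -154) V))
      (mulG (qL1 U V) (qL2 U V))))
    (addG (sG (-1532, -3390) (mulG (mulG V V) (qL2 U V)))
      (sG (-1340000, -520000) (mulG (mulG V V) (qL1 U V))))
def qZ0 (U V : GPo) : GPo :=
  addG (mulG (mulG (qL1 U V) (qL2 U V)) (mulG (qL1 U V) (qL2 U V)))
    (addG (sG (1532, 3390) (mulG (mulG V (qL2 U V)) (mulG V (qL2 U V))))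
      (sG (134000, 52000) (mulG (mulG V (qL1 U V)) (mulG V (qL1 U V)))))

def dI (s : GI) : GI := gmul (gadd s (-999990, 0)) (gadd s (-986400, -5900))
def bI (s : GI) : GI :=
  gadd (gmul (gadd s (-921000, -154000)) (dI s))
    (gadd (gmul (-153200, -339000) (gadd s (-986400, -5900)))
      (gmul (-1340000000, -520000000) (gadd s (-999990, 0))))

def qM (s : GI) (U V : GPo) : GPo :=
  addG (sG (bI s) (mulG V (mulG (qL1 U V) (qL2 U V))))
    (sG (-10, 0) (sG (dI s) (qM0 U V)))

def t1 : GI := (1000020, -1)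
def t2 : GI := (1000009, 1)
def t3 : GI := (1006000, -8000)
def t4 : GI := (1003400, -4600)
def e1 : GI := (-10670, 8318)
def e2 : GI := (10452, -26461)
def e3 : GI := (47454, 9071)
def e4 : GI := (-54946, 10099)
def A1 : GI := gmul e1 (dI t1)
def A2 : GI := gmul e2 (dI t2)
def A3 : GI := gmul e3 (dI t3)
def A4 : GI := gmul e4 (dI t4)

def qNum (U V : GPo) : GPo :=
  addG (mulG (mulG V (mulG (mulG (mulG (qL1 U V) (qL2 U V)) (mulG (qL1 U V) (qL2 U V))) (qM0 U V)))
      (addG (mulG (addG (sG A1 (qM t2 U V)) (sG A2 (qM t1 U V))) (mulG (qM t3 U V) (qM t4 U V)))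
        (mulG (addG (sG A3 (qM t4 U V)) (sG A4 (qM t3 U V))) (mulG (qM t1 U V) (qM t2 U V)))))
    (sG (-10, 0) (mulG (mulG U (qZ0 U V))
      (mulG (mulG (qM t1 U V) (qM t2 U V)) (mulG (qM t3 U V) (qM t4 U V)))))

def qDen (U V : GPo) : GPo :=
  mulG (mulG (mulG (qL1 U V) (qL2 U V)) (qM0 U V))
    (mulG (mulG (qM t1 U V) (qM t2 U V)) (mulG (qM t3 U V) (qM t4 U V)))

def qFin (U V : GPo) : List ℤ :=
  addR (smulR 10000000 (reG (qNum U V) (qDen U V))) (smulR 42566 (reG (qDen U V) (qDen U V)))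

def qA (U V : GPo) : GPo := sG (1000000000, 0) (mulG (qL1 U V) (qL2 U V))
def qB (U V : GPo) : GPo := sG (10000, 0) (addG (sG (-198639, -590) (mulG (qL1 U V) (qL2 U V)))
  (addG (sG (1532, 3390) (mulG V (qL2 U V))) (sG (1340000, 520000) (mulG V (qL1 U V)))))
def qC (U V : GPo) : GPo := addG (sG (986390136, 5899941) (mulG (qL1 U V) (qL2 U V)))
  (addG (sG (gmul (-1532, -3390) (9864, 59)) (mulG V (qL2 U V)))
    (sG (gmul (-134, -52) (99999000, 0)) (mulG V (qL1 U V))))

def conjG (p : GPo) : GPo := (p.1, smulR (-1) p.2)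

lemma evG_conjG (p : GPo) (x : ℝ) : evG (conjG p) x = conj (evG p x) := by
  simp only [evG, conjG, evR_smulR]
  simp

def qP1 (U V : GPo) : List ℤ := addR (reG (qA U V) (qA U V)) (smulR (-1) (reG (qC U V) (qC U V)))
def qX (U V : GPo) : GPo :=
  addG (mulG (qB U V) (conjG (qA U V))) (sG (-1, 0) (mulG (qC U V) (conjG (qB U V))))
def qP2 (U V : GPo) : List ℤ :=
  addR (mulR (qP1 U V) (qP1 U V)) (smulR (-1) (reG (qX U V) (qX U V)))

/-- The point `w = -1`. -/
def dU : GPo := ([0], [1])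
def dV : GPo := ([0], [-1])

theorem check_P1 : lineTest (qP1 cU cV) [] [11, 9943] = true := by decide +kernel
theorem check_P2 : lineTest (qP2 cU cV) [] [16, 12639] = true := by decide +kernel
theorem check_P1' : nonnegTest (qP1 dU dV) = true := by decide +kernel
theorem check_P2' : nonnegTest (qP2 dU dV) = true := by decide +kernel
theorem check_F : lineTest (qFin cU cV) [56, 2018, 23410] [35, 204, 2759, 134994] = true := by
  decide +kernel
theorem check_F' : nonnegTest (qFin dU dV) = true := by decide +kernel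

end Pool.Agent.TH222.SM
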