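import Mathlib
import Pool.Agent.TH222.SM9

/-! The explicit exterior map satisfies the standing assumptions. -/

set_option autoImplicit false

open Complex ComplexConjugate

namespace Pool.Agent.TH222.SM

/-- The explicit parameters. -/
noncomputable def p0 : Par where
  a := (921 + 154 * I) / 1000
  s1 := 99999 / 100000
  s2 := (9864 + 59 * I) / 10000
  c1 := (-1532 - 3390 * I) / 10000000000
  c2 := (-134 - 52 * I) / 100000

/-- Every point of the circle comes from one of the two charts. -/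
lemma circle_cases {w : ℂ} (hw : ‖w‖ = 1) :
    (∃ x : ℝ, evG cV x ≠ 0 ∧ w = evG cU x / evG cV x) ∨
      (evG dV 0 ≠ 0 ∧ w = evG dU 0 / evG dV 0) := by
  by_cases hne : w = -1
  · right
    have h1 : evG dV 0 = -I := by simp [evG, dV]
    have h2 : evG dU 0 = I := by simp [evG, dU]
    rw [h1, h2, hne]
    refine ⟨neg_ne_zero.2 I_ne_zero, ?_⟩
    rw [div_neg, div_self I_ne_zero]
  · left
    obtain ⟨x, h1, h2⟩ := circle_param hw hne 200000 (by norm_num)
    refine ⟨x, ?_, ?_⟩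
    · have : evG cV x = ((200000 : ℝ) : ℂ) - x * I := by simp [evG, cV]; ring
      rw [this]; exact h1
    · have e1 : evG cV x = ((200000 : ℝ) : ℂ) - x * I := by simp [evG, cV]; ring
      have e2 : evG cU x = ((200000 : ℝ) : ℂ) + x * I := by simp [evG, cU]
      rw [e1, e2]; exact h2

lemma gc_mk (a b : ℤ) : gc (a, b) = (a : ℂ) + b * I := rfl

section
variable {U V : GPo} {x : ℝ} {w : ℂ}

lemma evG_qL1 (hv : evG V x ≠ 0) (hw : w = evG U x / evG V x) :
    evG (qL1 U V) x = 100000 * evG V x * (w - p0.s1) := by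
  have hu : evG U x = w * evG V x := by rw [hw, div_mul_cancel₀ _ hv]
  rw [qL1, evG_addG, evG_sG, evG_sG, gc_mk, gc_mk, hu, p0]
  push_cast
  ring

lemma evG_qL2 (hv : evG V x ≠ 0) (hw : w = evG U x / evG V x) :
    evG (qL2 U V) x = 10000 * evG V x * (w - p0.s2) := by
  have hu : evG U x = w * evG V x := by rw [hw, div_mul_cancel₀ _ hv]
  rw [qL2, evG_addG, evG_sG, evG_sG, gc_mk, gc_mk, hu, p0]
  push_cast
  ring

/-- The quadratic relation. -/
lemma quad_eq (hv : evG V x ≠ 0) (hw : w = evG U x / evG V x) (z : ℂ) :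
    evG (qA U V) x * z ^ 2 + evG (qB U V) x * z + evG (qC U V) x =
      10 ^ 18 * evG V x ^ 2 * p0.K w z := by
  rw [qA, qB, qC]
  simp only [evG_addG, evG_sG, evG_mulG, evG_qL1 hv hw, evG_qL2 hv hw, gc_mk, gc_mul]
  rw [Par.K]
  simp only [p0]
  push_cast
  ring

end

lemma uni_aux {U V : GPo} {x : ℝ} {w z : ℂ} (hv : evG V x ≠ 0) (hw : w = evG U x / evG V x)
    (h1 : 0 < evR (qP1 U V) x) (h2 : 0 < evR (qP2 U V) x) (hK : p0.K w z = 0) : ‖z‖ < 1 := by
  have hq := quad_eq hv hw z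
  rw [hK, mul_zero] at hq
  have e1 : evR (qP1 U V) x = normSq (evG (qA U V) x) - normSq (evG (qC U V) x) := by
    rw [qP1, evR_addR, evR_smulR, evR_reG, evR_reG, mul_conj, mul_conj, ofReal_re, ofReal_re]
    push_cast; ring
  have e2 : evG (qX U V) x = evG (qB U V) x * conj (evG (qA U V) x) -
      evG (qC U V) x * conj (evG (qB U V) x) := by
    rw [qX, evG_addG, evG_sG, evG_mulG, evG_mulG, evG_conjG, evG_conjG, gc_mk]
    push_cast; ring
  have e3 : evR (qP2 U V) x = (normSq (evG (qA U V) x) - normSq (evG (qC U V) x)) ^ 2 -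
      normSq (evG (qB U V) x * conj (evG (qA U V) x) -
      evG (qC U V) x * conj (evG (qB U V) x)) := by
    rw [qP2, evR_addR, evR_mulR, evR_smulR, evR_reG, mul_conj, ofReal_re, e1, e2]
    push_cast; ring
  refine schur2 ?_ ?_ hq
  · rw [e1] at h1; linarith
  · rw [e3] at h2; linarith

lemma p0_uni (w z : ℂ) (hw : ‖w‖ = 1) (hK : p0.K w z = 0) : ‖z‖ < 1 := by
  rcases circle_cases hw with ⟨x, h1, h2⟩ | ⟨h1, h2⟩
  · exact uni_aux h1 h2 (lineTest_spec check_P1 x) (lineTest_spec check_P2 x) hK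
  · exact uni_aux h1 h2 (evR_pos_of_nonnegTest _ check_P1' le_rfl)
      (evR_pos_of_nonnegTest _ check_P2' le_rfl) hK

lemma norm_lt_one_of {z : ℂ} (h : normSq z < 1) : ‖z‖ < 1 := by
  rw [normSq_eq_norm_sq] at h
  nlinarith [norm_nonneg z]

lemma p0_s1 : ‖p0.s1‖ < 1 := by
  have : p0.s1 = ((99999 / 100000 : ℝ) : ℂ) := by simp [p0]
  rw [this, norm_real, Real.norm_eq_abs, abs_of_pos (by norm_num)]
  norm_num

lemma p0_s2 : ‖p0.s2‖ < 1 := by
  have : p0.s2 = ⟨9864 / 10000, 59 / 10000⟩ := by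
    apply Complex.ext <;> simp [p0]
  rw [this]
  apply norm_lt_one_of
  rw [normSq_mk]
  norm_num

lemma mk_eq (a b : ℝ) : (⟨a, b⟩ : ℂ) = (a : ℂ) + (b : ℂ) * I := mk_eq_add_mul_I a b

/-- The preimages of the origin. -/
lemma p0_base (w : ℂ) (h : p0.chi 0 w = 0) : ‖w‖ < 1 := by
  have hq : ((10 ^ 14 : ℝ) : ℂ) * w ^ 3 + (⟨-290739000000000, -15990000000000⟩ : ℂ) * w ^ 2 +
      (⟨281360657280000, 31671756200000⟩ : ℂ) * w + (⟨-90621658862562, -15681759651152⟩ : ℂ) = 0 := by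
    have e : ((10 ^ 14 : ℝ) : ℂ) * w ^ 3 + (⟨-290739000000000, -15990000000000⟩ : ℂ) * w ^ 2 +
      (⟨281360657280000, 31671756200000⟩ : ℂ) * w + (⟨-90621658862562, -15681759651152⟩ : ℂ) =
        10 ^ 14 * p0.chi 0 w := by
      rw [Par.chi, Par.E1, Par.E2, Par.E3, mk_eq, mk_eq, mk_eq]
      simp only [p0]
      push_cast
      ring_nf
      simp only [I_sq]
      ring
    rw [e, h, mul_zero]
  refine schur3 ?_ ?_ ?_ hq
  · rw [normSq_mk]; norm_num
  · rw [normSq_apply, normSq_mk]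
    simp only [sub_re, sub_im, mul_re, mul_im, conj_re, conj_im, ofReal_re, ofReal_im]
    norm_num
  · rw [normSq_apply, normSq_apply, normSq_mk]
    simp only [sub_re, sub_im, mul_re, mul_im, conj_re, conj_im, ofReal_re, ofReal_im]
    norm_num

theorem p0_good : Good p0 := ⟨p0_s1, p0_s2, p0_uni, p0_base⟩

end Pool.Agent.TH222.SM
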