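import Mathlib
import Pool.Agent.TH222.SM10

/-! Condition on the circle for the explicit exterior map. -/

set_option autoImplicit false

open Complex ComplexConjugate

namespace Pool.Agent.TH222.SM

/-- The points of the poles and the coefficients. -/
def tI : Fin 4 → GI := ![t1, t2, t3, t4]
def eI : Fin 4 → GI := ![e1, e2, e3, e4]
def AI (j : Fin 4) : GI := gmul (eI j) (dI (tI j))

noncomputable def sig (j : Fin 4) : ℂ := gc (tI j) / 1000000
noncomputable def alp (j : Fin 4) : ℂ := gc (eI j) / 100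

lemma gc_eq_zero {x : GI} (h : gc x = 0) : x = (0, 0) := by
  have h1 := congrArg re h
  have h2 := congrArg im h
  simp [gc] at h1 h2
  exact Prod.ext h1 h2

lemma normSq_gc (x : GI) : normSq (gc x) = ((x.1 * x.1 + x.2 * x.2 : ℤ) : ℝ) := by
  simp [gc, normSq_apply]

lemma sig_norm (j : Fin 4) : 1 < ‖sig j‖ := by
  have h1 : 1000000 ^ 2 < (tI j).1 * (tI j).1 + (tI j).2 * (tI j).2 := by
    revert j; decide
  have h2 : (1000000 ^ 2 : ℝ) < normSq (gc (tI j)) := by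
    rw [normSq_gc]; exact_mod_cast h1
  rw [normSq_eq_norm_sq] at h2
  have h3 : (1000000 : ℝ) < ‖gc (tI j)‖ := lt_of_pow_lt_pow_left₀ 2 (norm_nonneg _) h2
  rw [sig, norm_div, lt_div_iff₀ (by simp)]
  simpa using h3

lemma dI_ne (j : Fin 4) : gc (dI (tI j)) ≠ 0 := by
  intro h
  have h1 := gc_eq_zero h
  have h2 : ∀ j, dI (tI j) ≠ (0, 0) := by decide
  exact h2 j h1

lemma dI_eq (s : GI) : gc (dI s) = 10 ^ 12 * ((gc s / 1000000 - p0.s1) * (gc s / 1000000 - p0.s2)) := by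
  rw [dI, gc_mul, gc_add, gc_add, gc_mk (-999990) 0, gc_mk (-986400) (-5900)]
  simp only [p0]
  push_cast
  ring

lemma bI_eq (s : GI) : gc (bI s) = (gc s - (921000 + 154000 * I)) * gc (dI s) +
    (-153200 - 339000 * I) * (gc s - (986400 + 5900 * I)) +
    (-1340000000 - 520000000 * I) * (gc s - 999990) := by
  rw [bI, gc_add, gc_add, gc_mul, gc_mul, gc_mul, gc_add, gc_add, gc_add, gc_mk (-999990) 0,
    gc_mk (-986400) (-5900), gc_mk (-921000) (-154000), gc_mk (-153200) (-339000),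
    gc_mk (-1340000000) (-520000000)]
  push_cast
  ring

/-- Value of the map at the points of the poles. -/
lemma psi_sig (s : GI) (hd : gc (dI s) ≠ 0) :
    p0.psi (gc s / 1000000) = gc (bI s) / (10 ^ 6 * gc (dI s)) := by
  have hd' := dI_eq s
  have h1 : gc s / 1000000 - p0.s1 ≠ 0 := by
    intro h; rw [h] at hd'; apply hd; rw [hd']; ring
  have h2 : gc s / 1000000 - p0.s2 ≠ 0 := by
    intro h; rw [h] at hd'; apply hd; rw [hd']; ring
  have h3 : p0.psi (gc s / 1000000) = ((gc s / 1000000 - p0.a) *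
      ((gc s / 1000000 - p0.s1) * (gc s / 1000000 - p0.s2)) +
      p0.c1 * (gc s / 1000000 - p0.s2) + p0.c2 * (gc s / 1000000 - p0.s1)) /
      ((gc s / 1000000 - p0.s1) * (gc s / 1000000 - p0.s2)) := by
    rw [Par.psi]
    generalize gc s / 1000000 = S at *
    field_simp
  have h4 : (gc s / 1000000 - p0.s1) * (gc s / 1000000 - p0.s2) ≠ 0 := mul_ne_zero h1 h2
  rw [h3, div_eq_div_iff h4 (mul_ne_zero (by norm_num) hd), bI_eq, hd']
  simp only [p0]
  ring

section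
variable {U V : GPo} {x : ℝ} {w : ℂ}

lemma evG_qM0 (hv : evG V x ≠ 0) (hw : w = evG U x / evG V x) :
    evG (qM0 U V) x = 10 ^ 14 * evG V x ^ 3 * ((w - p0.a) * ((w - p0.s1) * (w - p0.s2)) +
      p0.c1 * (w - p0.s2) + p0.c2 * (w - p0.s1)) := by
  have hu : evG U x = w * evG V x := by rw [hw, div_mul_cancel₀ _ hv]
  rw [qM0]
  simp only [evG_addG, evG_sG, evG_mulG, evG_qL1 hv hw, evG_qL2 hv hw, gc_mk, hu]
  simp only [p0]
  push_cast
  ring

lemma evG_qZ0 (hv : evG V x ≠ 0) (hw : w = evG U x / evG V x) :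
    evG (qZ0 U V) x = 10 ^ 18 * evG V x ^ 4 * (((w - p0.s1) * (w - p0.s2)) ^ 2 -
      p0.c1 * (w - p0.s2) ^ 2 - p0.c2 * (w - p0.s1) ^ 2) := by
  rw [qZ0]
  simp only [evG_addG, evG_sG, evG_mulG, evG_qL1 hv hw, evG_qL2 hv hw, gc_mk]
  simp only [p0]
  push_cast
  ring

lemma psi_w (hv : evG V x ≠ 0) (hw : w = evG U x / evG V x) (h1 : evG (qL1 U V) x ≠ 0)
    (h2 : evG (qL2 U V) x ≠ 0) : p0.psi w =
      evG (qM0 U V) x / (10 ^ 5 * evG V x * evG (qL1 U V) x * evG (qL2 U V) x) := by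
  have e1 := evG_qL1 hv hw
  have e2 := evG_qL2 hv hw
  have h1' : w - p0.s1 ≠ 0 := by intro h; apply h1; rw [e1, h, mul_zero]
  have h2' : w - p0.s2 ≠ 0 := by intro h; apply h2; rw [e2, h, mul_zero]
  have hv' := hv
  rw [evG_qM0 hv hw, e1, e2, Par.psi]
  generalize evG V x = v at hv
  field_simp
  ring

lemma dpsi_w (hv : evG V x ≠ 0) (hw : w = evG U x / evG V x) (h1 : evG (qL1 U V) x ≠ 0)
    (h2 : evG (qL2 U V) x ≠ 0) : p0.dpsi w =
      evG (qZ0 U V) x / (evG (qL1 U V) x * evG (qL2 U V) x) ^ 2 := by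
  have e1 := evG_qL1 hv hw
  have e2 := evG_qL2 hv hw
  have h1' : w - p0.s1 ≠ 0 := by intro h; apply h1; rw [e1, h, mul_zero]
  have h2' : w - p0.s2 ≠ 0 := by intro h; apply h2; rw [e2, h, mul_zero]
  rw [evG_qZ0 hv hw, e1, e2, Par.dpsi]
  generalize evG V x = v at hv
  field_simp
  ring

lemma evG_qM (s : GI) : evG (qM s U V) x = gc (bI s) * (evG V x * (evG (qL1 U V) x *
    evG (qL2 U V) x)) - 10 * (gc (dI s) * evG (qM0 U V) x) := by
  rw [qM, evG_addG, evG_sG, evG_sG, evG_sG, evG_mulG, evG_mulG, gc_mk (-10) 0]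
  push_cast
  ring

/-- One term of the sum. -/
lemma term_eq (s e : GI) (hv : evG V x ≠ 0) (hw : w = evG U x / evG V x)
    (h1 : evG (qL1 U V) x ≠ 0) (h2 : evG (qL2 U V) x ≠ 0) (hd : gc (dI s) ≠ 0)
    (hM : evG (qM s U V) x ≠ 0) :
    gc e / 100 / (p0.psi (gc s / 1000000) - p0.psi w) = 10 ^ 4 * (gc (gmul e (dI s)) *
      (evG V x * (evG (qL1 U V) x * evG (qL2 U V) x)) / evG (qM s U V) x) := by
  rw [psi_sig s hd, psi_w hv hw h1 h2, gc_mul]
  have hM' := hM
  rw [evG_qM] at hM' ⊢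
  generalize evG V x = v at *
  generalize evG (qL1 U V) x = l1 at *
  generalize evG (qL2 U V) x = l2 at *
  generalize evG (qM0 U V) x = m0 at *
  generalize gc (dI s) = d at *
  generalize gc (bI s) = b at *
  have e1 : b / (10 ^ 6 * d) - m0 / (10 ^ 5 * v * l1 * l2) =
      (b * (v * (l1 * l2)) - 10 * (d * m0)) / (10 ^ 6 * d * v * l1 * l2) := by
    field_simp
  rw [e1]
  field_simp
  ring

end

end Pool.Agent.TH222.SM
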