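import Mathlib
import Pool.Agent.TH222.SM11

/-! The inequality on the circle for the explicit exterior map. -/

set_option autoImplicit false

open Complex ComplexConjugate

namespace Pool.Agent.TH222.SM

def N0 : GI := gadd
  (gmul (gadd (gmul A1 (bI t2)) (gmul A2 (bI t1))) (gmul (bI t3) (bI t4)))
  (gmul (gadd (gmul A3 (bI t4)) (gmul A4 (bI t3))) (gmul (bI t1) (bI t2)))
def D0 : GI := gmul (gmul (bI t1) (bI t2)) (gmul (bI t3) (bI t4))

theorem check_0 : 10000000 * (N0.1 * D0.1 + N0.2 * D0.2) + 42566 * (D0.1 * D0.1 + D0.2 * D0.2) < 0 := by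
  decide +kernel
theorem check_00 : 0 < D0.1 * D0.1 + D0.2 * D0.2 := by
  decide +kernel

/-- Real part of a quotient. -/
lemma re_div_lt {N D : ℂ} {c : ℝ} (hD : D ≠ 0) (h : c * normSq D < (N * conj D).re) :
    c < (N / D).re := by
  have h1 : 0 < normSq D := normSq_pos.2 hD
  rw [div_eq_mul_inv, inv_def, ← mul_assoc, re_mul_ofReal]
  rw [← div_eq_mul_inv, lt_div_iff₀ h1]
  exact h

lemma re_div_gt {N D : ℂ} {c : ℝ} (hD : D ≠ 0) (h : (N * conj D).re < c * normSq D) :
    (N / D).re < c := by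
  have h1 : 0 < normSq D := normSq_pos.2 hD
  rw [div_eq_mul_inv, inv_def, ← mul_assoc, re_mul_ofReal]
  rw [← div_eq_mul_inv, div_lt_iff₀ h1]
  exact h

lemma gc_D0_ne : gc D0 ≠ 0 := by
  intro h
  have h1 := gc_eq_zero h
  have h2 := check_00
  rw [h1] at h2
  exact absurd h2 (by norm_num)

lemma base_value : (∑ j, alp j / p0.psi (sig j)).re < -42.566 := by
  have hb := gc_D0_ne
  have hb' := hb
  rw [D0, gc_mul, gc_mul, gc_mul] at hb'
  have b1 : gc (bI t1) ≠ 0 := fun h => hb' (by rw [h]; ring)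
  have b2 : gc (bI t2) ≠ 0 := fun h => hb' (by rw [h]; ring)
  have b3 : gc (bI t3) ≠ 0 := fun h => hb' (by rw [h]; ring)
  have b4 : gc (bI t4) ≠ 0 := fun h => hb' (by rw [h]; ring)
  have d1 : gc (dI t1) ≠ 0 := dI_ne 0
  have d2 : gc (dI t2) ≠ 0 := dI_ne 1
  have d3 : gc (dI t3) ≠ 0 := dI_ne 2
  have d4 : gc (dI t4) ≠ 0 := dI_ne 3
  have hs : ∑ j, alp j / p0.psi (sig j) = 10 ^ 4 * (gc N0 / gc D0) := by
    rw [Fin.sum_univ_four]
    have k1 : alp 0 / p0.psi (sig 0) = 10 ^ 4 * (gc A1 / gc (bI t1)) := by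
      change gc e1 / 100 / p0.psi (gc t1 / 1000000) = _
      rw [psi_sig t1 d1, A1, gc_mul]; field_simp; ring
    have k2 : alp 1 / p0.psi (sig 1) = 10 ^ 4 * (gc A2 / gc (bI t2)) := by
      change gc e2 / 100 / p0.psi (gc t2 / 1000000) = _
      rw [psi_sig t2 d2, A2, gc_mul]; field_simp; ring
    have k3 : alp 2 / p0.psi (sig 2) = 10 ^ 4 * (gc A3 / gc (bI t3)) := by
      change gc e3 / 100 / p0.psi (gc t3 / 1000000) = _
      rw [psi_sig t3 d3, A3, gc_mul]; field_simp; ring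
    have k4 : alp 3 / p0.psi (sig 3) = 10 ^ 4 * (gc A4 / gc (bI t4)) := by
      change gc e4 / 100 / p0.psi (gc t4 / 1000000) = _
      rw [psi_sig t4 d4, A4, gc_mul]; field_simp; ring
    rw [k1, k2, k3, k4, N0, D0]
    simp only [gc_mul, gc_add]
    field_simp
    ring
  rw [hs, show (10 ^ 4 : ℂ) = ((10 ^ 4 : ℝ) : ℂ) by norm_num, re_ofReal_mul]
  have h1 : (gc N0 / gc D0).re < -0.0042566 := by
    apply re_div_gt gc_D0_ne
    have e : (gc N0 * conj (gc D0)).re = ((N0.1 * D0.1 + N0.2 * D0.2 : ℤ) : ℝ) := by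
      simp [gc]
    rw [e, normSq_gc]
    have h2 : ((10000000 * (N0.1 * D0.1 + N0.2 * D0.2) +
        42566 * (D0.1 * D0.1 + D0.2 * D0.2) : ℤ) : ℝ) < 0 := by
      exact_mod_cast check_0
    push_cast at h2 ⊢
    linarith
  linarith

lemma C_aux {U V : GPo} {x : ℝ} {w : ℂ} (hv : evG V x ≠ 0) (hw : w = evG U x / evG V x)
    (h : 0 < evR (qFin U V) x) :
    -42.566 < (∑ j, alp j / (p0.psi (sig j) - p0.psi w)).re - (w * p0.dpsi w / p0.psi w).re := by
  have e : evR (qFin U V) x = 10000000 * (evG (qNum U V) x * conj (evG (qDen U V) x)).re +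
      42566 * normSq (evG (qDen U V) x) := by
    rw [qFin, evR_addR, evR_smulR, evR_smulR, evR_reG, evR_reG, mul_conj (evG (qDen U V) x),
      ofReal_re]
    push_cast; ring
  have hD : evG (qDen U V) x ≠ 0 := by
    intro h0
    rw [e, h0] at h
    simp at h
  rw [e] at h
  have hre : -0.0042566 < (evG (qNum U V) x / evG (qDen U V) x).re := by
    apply re_div_lt hD
    linarith
  have hD' := hD
  rw [qDen] at hD'
  simp only [evG_mulG] at hD'
  have l1 : evG (qL1 U V) x ≠ 0 := fun h => hD' (by rw [h]; ring)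
  have l2 : evG (qL2 U V) x ≠ 0 := fun h => hD' (by rw [h]; ring)
  have m0 : evG (qM0 U V) x ≠ 0 := fun h => hD' (by rw [h]; ring)
  have m1 : evG (qM t1 U V) x ≠ 0 := fun h => hD' (by rw [h]; ring)
  have m2 : evG (qM t2 U V) x ≠ 0 := fun h => hD' (by rw [h]; ring)
  have m3 : evG (qM t3 U V) x ≠ 0 := fun h => hD' (by rw [h]; ring)
  have m4 : evG (qM t4 U V) x ≠ 0 := fun h => hD' (by rw [h]; ring)
  have hs : ∑ j, alp j / (p0.psi (sig j) - p0.psi w) - w * p0.dpsi w / p0.psi w =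
      10 ^ 4 * (evG (qNum U V) x / evG (qDen U V) x) := by
    rw [Fin.sum_univ_four]
    have k1 : alp 0 / (p0.psi (sig 0) - p0.psi w) = _ :=
      term_eq t1 e1 hv hw l1 l2 (dI_ne 0) m1
    have k2 : alp 1 / (p0.psi (sig 1) - p0.psi w) = _ :=
      term_eq t2 e2 hv hw l1 l2 (dI_ne 1) m2
    have k3 : alp 2 / (p0.psi (sig 2) - p0.psi w) = _ :=
      term_eq t3 e3 hv hw l1 l2 (dI_ne 2) m3
    have k4 : alp 3 / (p0.psi (sig 3) - p0.psi w) = _ :=
      term_eq t4 e4 hv hw l1 l2 (dI_ne 3) m4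
    have k5 : w * p0.dpsi w / p0.psi w = 10 ^ 5 * (evG U x * evG (qZ0 U V) x /
        (evG (qL1 U V) x * evG (qL2 U V) x * evG (qM0 U V) x)) := by
      rw [dpsi_w hv hw l1 l2, psi_w hv hw l1 l2, hw]
      generalize evG V x = v at *
      field_simp
    rw [k1, k2, k3, k4, k5, qNum, qDen, A1, A2, A3, A4]
    simp only [evG_mulG, evG_addG, evG_sG, gc_mk (-10) 0]
    push_cast
    generalize evG V x = v at *
    generalize evG U x = u at *
    generalize evG (qL1 U V) x = l1 at *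
    generalize evG (qL2 U V) x = l2 at *
    generalize evG (qM0 U V) x = m0 at *
    generalize evG (qZ0 U V) x = z0 at *
    generalize evG (qM t1 U V) x = m1 at *
    generalize evG (qM t2 U V) x = m2 at *
    generalize evG (qM t3 U V) x = m3 at *
    generalize evG (qM t4 U V) x = m4 at *
    generalize gc (gmul e1 (dI t1)) = a1 at *
    generalize gc (gmul e2 (dI t2)) = a2 at *
    generalize gc (gmul e3 (dI t3)) = a3 at *
    generalize gc (gmul e4 (dI t4)) = a4 at *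
    field_simp
    ring
  rw [← sub_re, hs, show (10 ^ 4 : ℂ) = ((10 ^ 4 : ℝ) : ℂ) by norm_num, re_ofReal_mul]
  linarith

/-- The inequality on the circle. -/
theorem p0_C (w : ℂ) (hw : ‖w‖ = 1) :
    (∑ j, alp j / p0.psi (sig j)).re + (w * p0.dpsi w / p0.psi w).re <
      (∑ j, alp j / (p0.psi (sig j) - p0.psi w)).re := by
  have h0 := base_value
  have h1 : -42.566 < (∑ j, alp j / (p0.psi (sig j) - p0.psi w)).re -
      (w * p0.dpsi w / p0.psi w).re := by
    rcases circle_cases hw with ⟨x, h1, h2⟩ | ⟨h1, h2⟩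
    · exact C_aux h1 h2 (lineTest_spec check_F x)
    · exact C_aux h1 h2 (evR_pos_of_nonnegTest _ check_F' le_rfl)
  linarith

open Polynomial in
/-- For all large `n` the polynomial is a counterexample. -/
theorem exists_bad : ∃ η : ℂ[X], ∀ᶠ n : ℕ in Filter.atTop, Bad (p0.P η n) := by
  obtain ⟨η, hη⟩ := p0_good.exists_eta sig alp sig_norm p0_C
  exact ⟨η, p0_good.asymptotic η hη⟩

end Pool.Agent.TH222.SM
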