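import Mathlib
import Pool.Agent.TH222.SM12

/-! A polynomial failing the mean value inequality with constant one. -/

set_option autoImplicit false

open Polynomial Filter Topology

namespace Pool.Agent.TH222.SM

variable (p : Par)

lemma Par.deg_P1 : p.P1.natDegree ≤ 1 := by
  unfold Par.P1; compute_degree
lemma Par.coeff_P1 : p.P1.coeff 1 = 1 := by
  simp [Par.P1]
lemma Par.deg_P2 : p.P2.natDegree ≤ 1 := by
  unfold Par.P2; compute_degree
lemma Par.deg_P3 : p.P3.natDegree ≤ 1 := by
  unfold Par.P3; compute_degree

lemma Par.g_deg (n : ℕ) : (p.g n).natDegree ≤ n ∧ (p.g n).coeff n = 1 := by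
  induction n using Nat.strong_induction_on with
  | _ n ih =>
    match n, ih with
    | 0, _ => rw [Par.g]; simp
    | 1, _ =>
      rw [Par.g]
      refine ⟨?_, ?_⟩
      · exact (natDegree_sub_le _ _).trans (max_le p.deg_P1 (by simp))
      · rw [coeff_sub, p.coeff_P1]; simp
    | 2, _ =>
      rw [Par.g]
      have h1 : (p.P1 ^ 2).natDegree ≤ 2 := by
        refine natDegree_pow_le.trans ?_
        have := p.deg_P1
        omega
      have h1' : (p.P1 ^ 2).coeff 2 = 1 := by
        rw [sq, show 2 = 1 + 1 by norm_num, coeff_mul_add_eq_of_natDegree_le p.deg_P1 p.deg_P1,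
          p.coeff_P1, one_mul]
      have h2 : p.P2.natDegree < 2 := by have := p.deg_P2; omega
      have h3 : (C (p.s1 + p.s2) * p.P1).natDegree < 2 := by
        have := (natDegree_C_mul_le (p.s1 + p.s2) p.P1).trans p.deg_P1
        omega
      have h4 : (C (p.s1 * p.s2)).natDegree < 2 := by rw [natDegree_C]; norm_num
      refine ⟨?_, ?_⟩
      · refine (natDegree_add_le _ _).trans (max_le ?_ h4.le)
        refine (natDegree_sub_le _ _).trans (max_le ?_ h3.le)
        exact (natDegree_sub_le _ _).trans (max_le h1 h2.le)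
      · rw [coeff_add, coeff_sub, coeff_sub, h1', coeff_eq_zero_of_natDegree_lt h2,
          coeff_eq_zero_of_natDegree_lt h3, coeff_eq_zero_of_natDegree_lt h4]
        ring
    | (n + 3), ih =>
      obtain ⟨a2, b2⟩ := ih (n + 2) (by omega)
      obtain ⟨a1, b1⟩ := ih (n + 1) (by omega)
      obtain ⟨a0, b0⟩ := ih n (by omega)
      rw [p.g_rec']
      have h1 : (p.P1 * p.g (n + 2)).natDegree ≤ n + 3 := by
        refine natDegree_mul_le.trans ?_
        have := p.deg_P1
        omega
      have h1' : (p.P1 * p.g (n + 2)).coeff (n + 3) = 1 := by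
        rw [show n + 3 = 1 + (n + 2) by ring, coeff_mul_add_eq_of_natDegree_le p.deg_P1 a2,
          p.coeff_P1, b2, one_mul]
      have h2 : (p.P2 * p.g (n + 1)).natDegree < n + 3 := by
        refine lt_of_le_of_lt natDegree_mul_le ?_
        have := p.deg_P2
        omega
      have h3 : (p.P3 * p.g n).natDegree < n + 3 := by
        refine lt_of_le_of_lt natDegree_mul_le ?_
        have := p.deg_P3
        omega
      refine ⟨?_, ?_⟩
      · refine (natDegree_add_le _ _).trans (max_le ?_ h3.le)
        exact (natDegree_sub_le _ _).trans (max_le h1 h2.le)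
      · rw [coeff_add, coeff_sub, h1', coeff_eq_zero_of_natDegree_lt h2,
          coeff_eq_zero_of_natDegree_lt h3]
        ring

/-- There is a polynomial failing the mean value inequality with constant one. -/
theorem exists_poly : ∃ q : ℂ[X], q.eval 0 = 0 ∧ 2 ≤ q.natDegree ∧ Bad q := by
  obtain ⟨η, hη⟩ := exists_bad
  obtain ⟨n, h1, h2, h3⟩ := (hη.and ((eventually_gt_atTop (η + X * derivative η).natDegree).and
    (eventually_gt_atTop 1))).exists
  refine ⟨p0.P η n, ?_, ?_, h1⟩
  · rw [p0.P_eval]; ring
  · have hd : derivative (p0.P η n) = 1 + C ((n : ℂ) + 1)⁻¹ * (η + X * derivative η) - p0.g n := by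
      refine Polynomial.funext fun z => ?_
      rw [p0.P_deriv_eval]
      simp
    have hc : (derivative (p0.P η n)).coeff n = -1 := by
      rw [hd, coeff_sub, coeff_add, coeff_C_mul, coeff_eq_zero_of_natDegree_lt h2, (p0.g_deg n).2,
        coeff_one, if_neg (by omega)]
      ring
    have h4 : n ≤ (derivative (p0.P η n)).natDegree :=
      le_natDegree_of_ne_zero (by rw [hc]; norm_num)
    have h5 := natDegree_derivative_le (p0.P η n)
    omega

end Pool.Agent.TH222.SM
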