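import Mathlib
import Pool.Agent.TH222.SM13

/-! Polynomials of every large degree failing the mean value inequality with constant one. -/

set_option autoImplicit false

open Polynomial Filter Topology

namespace Pool.Agent.TH222.SM

/-- For every large `m` there is a bad polynomial of degree `m + 1` vanishing at the origin. -/
theorem exists_poly_degree : ∃ M : ℕ, 1 ≤ M ∧ ∀ m : ℕ, M ≤ m → ∃ q : ℂ[X],
    q.eval 0 = 0 ∧ q.natDegree = m + 1 ∧ Bad q := by
  obtain ⟨η, hη⟩ := exists_bad
  obtain ⟨M, hM⟩ := eventually_atTop.1 (hη.and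
    (eventually_gt_atTop (η + X * derivative η).natDegree))
  refine ⟨max M 1, le_max_right _ _, fun n hn => ?_⟩
  have hnM : M ≤ n := le_trans (le_max_left _ _) hn
  have hn1 : 1 ≤ n := le_trans (le_max_right _ _) hn
  obtain ⟨h1, h2⟩ := hM n hnM
  refine ⟨p0.P η n, ?_, ?_, h1⟩
  · rw [p0.P_eval]; ring
  · have hd : derivative (p0.P η n) = 1 + C ((n : ℂ) + 1)⁻¹ * (η + X * derivative η) - p0.g n := by
      refine Polynomial.funext fun z => ?_
      rw [p0.P_deriv_eval]
      simp
    have hc : (derivative (p0.P η n)).coeff n = -1 := by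
      rw [hd, coeff_sub, coeff_add, coeff_C_mul, coeff_eq_zero_of_natDegree_lt h2, (p0.g_deg n).2,
        coeff_one, if_neg (by omega)]
      ring
    have h4 : n ≤ (derivative (p0.P η n)).natDegree :=
      le_natDegree_of_ne_zero (by rw [hc]; norm_num)
    have h5 : (derivative (p0.P η n)).natDegree ≤ n := by
      rw [hd]
      refine (natDegree_sub_le _ _).trans (max_le ?_ (p0.g_deg n).1)
      refine (natDegree_add_le _ _).trans (max_le (by simp) ?_)
      exact (natDegree_C_mul_le _ _).trans h2.le
    have h6 := natDegree_derivative (p0.P η n)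
    omega

end Pool.Agent.TH222.SM
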