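import Mathlib

/-! Definitions for the problem on quasi-proper maps of two-sheeted coverings of the disc. -/

set_option autoImplicit false

open Filter Topology Metric

namespace Pool.Agent.TH222.QP

/-- The Blaschke factor of the unit disc with zero `a`. -/
noncomputable def bf (a z : ℂ) : ℂ :=
  if a = 0 then z else (‖a‖ : ℂ) / a * ((a - z) / (1 - (starRingEnd ℂ) a * z))

/-- A sequence in the unit disc satisfying the Blaschke condition. -/
structure BSeq (β : ℕ → ℂ) : Prop where
  lt_one : ∀ k, ‖β k‖ < 1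
  summable : Summable fun k => 1 - ‖β k‖

/-- The Blaschke product with zeros `β k`. -/
noncomputable def B (β : ℕ → ℂ) (z : ℂ) : ℂ := ∏' k, bf (β k) z

/-- `b` is (on the unit disc) a finite or infinite Blaschke product times a unimodular constant.
The index set may be empty, finite or infinite, and zeros may be repeated. -/
def IsBlaschke (b : ℂ → ℂ) : Prop :=
  ∃ (ι : Set ℕ) (a : ι → ℂ) (c : ℂ), (∀ j, ‖a j‖ < 1) ∧ (Summable fun j => 1 - ‖a j‖) ∧
    ‖c‖ = 1 ∧ ∀ z, ‖z‖ < 1 → b z = c * ∏' j, bf (a j) z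

/-- The Riemann surface `{(z, w) : |z| < 1, w ^ 2 = B z}`, a two-sheeted covering of the unit disc
branched exactly over the `β k`. Its points are the pairs `(phi, theta)`: `phi` is the proper
projection to the disc, and `theta` is the square root of `B ∘ phi`. -/
structure Cover (β : ℕ → ℂ) where
  phi : ℂ
  theta : ℂ
  norm_phi_lt : ‖phi‖ < 1
  theta_sq : theta ^ 2 = B β phi

/-- Holomorphic functions on the surface: those which are locally restrictions of holomorphic
functions of two variables. -/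
def Hol (β : ℕ → ℂ) (f : Cover β → ℂ) : Prop :=
  ∀ p : Cover β, ∃ (V : Set (ℂ × ℂ)) (g : ℂ × ℂ → ℂ), IsOpen V ∧ (p.phi, p.theta) ∈ V ∧
    DifferentiableOn ℂ g V ∧ ∀ x : Cover β, (x.phi, x.theta) ∈ V → f x = g (x.phi, x.theta)

/-- Quasi-proper maps of the surface to the unit disc. -/
def QuasiProper (β : ℕ → ℂ) (θ : Cover β → ℂ) : Prop :=
  Hol β θ ∧ (∀ p, ‖θ p‖ < 1) ∧ ∀ f : Cover β → ℂ, Hol β f → ⨆ p, ‖f p‖ₑ = ⨆ p, ‖θ p * f p‖ₑ

/-- A class of functions containing the class `L` of the problem: in the third kind `u` is only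
asked to be holomorphic with `|u| ≤ 1` (every inner function is), and no further condition is
imposed. -/
def Member (β : ℕ → ℂ) (g : Cover β → ℂ) : Prop :=
  (∃ b, IsBlaschke b ∧ ∀ p, g p = b p.phi) ∨
  (∀ p, g p = p.theta) ∨
  ∃ b u : ℂ → ℂ, IsBlaschke b ∧ DifferentiableOn ℂ u (ball 0 1) ∧ (∀ z, ‖z‖ < 1 → ‖u z‖ ≤ 1) ∧
    ∀ p, g p = b (u p.phi * p.theta)

/-- Finite products of members, and infinite products: pointwise limits of the products of the
first `n` members of a sequence (possibly after multiplying them by unimodular constants). -/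
def IsProduct (β : ℕ → ℂ) (θ : Cover β → ℂ) : Prop :=
  (∃ l : List (Cover β → ℂ), (∀ g ∈ l, Member β g) ∧ θ = l.prod) ∨
  ∃ (g : ℕ → Cover β → ℂ) (c : ℕ → ℂ), (∀ n, Member β (g n)) ∧ (∀ n, ‖c n‖ = 1) ∧
    ∀ p, Tendsto (fun n => c n * ∏ k ∈ Finset.range n, g k p) atTop (𝓝 (θ p))

end Pool.Agent.TH222.QP
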