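import Mathlib
import Pool.Agent.TH222.QP0

/-! Blaschke factors and Blaschke products on the unit disc. -/

set_option autoImplicit false

open Filter Topology Metric

namespace Pool.Agent.TH222.QP

lemma den_ne {a z : ℂ} (ha : ‖a‖ < 1) (hz : ‖z‖ ≤ 1) : 1 - (starRingEnd ℂ) a * z ≠ 0 := by
  intro h
  have h1 : (starRingEnd ℂ) a * z = 1 := (sub_eq_zero.1 h).symm
  have h2 : ‖a‖ * ‖z‖ = 1 := by
    rw [← RCLike.norm_conj a, ← norm_mul]
    have := congrArg norm h1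
    simpa using this
  nlinarith [norm_nonneg a, norm_nonneg z]

/-- The Schwarz-Pick identity. -/
lemma pick_identity (a z : ℂ) : ‖1 - (starRingEnd ℂ) a * z‖ ^ 2 - ‖a - z‖ ^ 2 =
    (1 - ‖a‖ ^ 2) * (1 - ‖z‖ ^ 2) := by
  simp only [← Complex.normSq_eq_norm_sq, Complex.normSq_apply]
  simp
  ring

lemma norm_bf_sq {a z : ℂ} (ha : ‖a‖ < 1) (hz : ‖z‖ ≤ 1) : 1 - ‖bf a z‖ ^ 2 =
    (1 - ‖a‖ ^ 2) * (1 - ‖z‖ ^ 2) / ‖1 - (starRingEnd ℂ) a * z‖ ^ 2 := by
  have hd := den_ne ha hz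
  have hd' : ‖1 - (starRingEnd ℂ) a * z‖ ≠ 0 := norm_ne_zero_iff.2 hd
  rw [bf]
  split_ifs with h
  · subst h; simp
  · have h' : ‖a‖ ≠ 0 := norm_ne_zero_iff.2 h
    rw [norm_mul, norm_div, norm_div, Complex.norm_real, norm_norm, div_self h', one_mul,
      ← pick_identity, sub_div, div_self (pow_ne_zero 2 hd'), div_pow]

lemma norm_bf_le {a z : ℂ} (ha : ‖a‖ < 1) (hz : ‖z‖ ≤ 1) : ‖bf a z‖ ≤ 1 := by
  have h := norm_bf_sq ha hz
  have h1 : 0 ≤ (1 - ‖a‖ ^ 2) * (1 - ‖z‖ ^ 2) / ‖1 - (starRingEnd ℂ) a * z‖ ^ 2 := by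
    have e1 : ‖a‖ ^ 2 ≤ 1 := by nlinarith [norm_nonneg a]
    have e2 : ‖z‖ ^ 2 ≤ 1 := by nlinarith [norm_nonneg z]
    exact div_nonneg (mul_nonneg (by linarith) (by linarith)) (by positivity)
  nlinarith [norm_nonneg (bf a z)]

lemma norm_bf_lt {a z : ℂ} (ha : ‖a‖ < 1) (hz : ‖z‖ < 1) : ‖bf a z‖ < 1 := by
  have h := norm_bf_sq ha hz.le
  have hd' : 0 < ‖1 - (starRingEnd ℂ) a * z‖ := norm_pos_iff.2 (den_ne ha hz.le)
  have h1 : 0 < (1 - ‖a‖ ^ 2) * (1 - ‖z‖ ^ 2) / ‖1 - (starRingEnd ℂ) a * z‖ ^ 2 := by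
    have e1 : ‖a‖ ^ 2 < 1 := by nlinarith [norm_nonneg a]
    have e2 : ‖z‖ ^ 2 < 1 := by nlinarith [norm_nonneg z]
    exact div_pos (mul_pos (by linarith) (by linarith)) (by positivity)
  nlinarith [norm_nonneg (bf a z)]

lemma norm_den_ge {a z : ℂ} (ha : ‖a‖ ≤ 1) :
    1 - ‖z‖ ≤ ‖1 - (starRingEnd ℂ) a * z‖ := by
  have h1 : ‖(1:ℂ)‖ - ‖(starRingEnd ℂ) a * z‖ ≤ ‖1 - (starRingEnd ℂ) a * z‖ := norm_sub_norm_le _ _
  rw [norm_one, norm_mul, RCLike.norm_conj] at h1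
  nlinarith [norm_nonneg a, norm_nonneg z]

lemma norm_den_ge' {a z : ℂ} (hz : ‖z‖ ≤ 1) :
    1 - ‖a‖ ≤ ‖1 - (starRingEnd ℂ) a * z‖ := by
  have h1 : ‖(1:ℂ)‖ - ‖(starRingEnd ℂ) a * z‖ ≤ ‖1 - (starRingEnd ℂ) a * z‖ := norm_sub_norm_le _ _
  rw [norm_one, norm_mul, RCLike.norm_conj] at h1
  nlinarith [norm_nonneg a, norm_nonneg z]

lemma norm_one_sub_bf {a z : ℂ} (ha : ‖a‖ < 1) (hz : ‖z‖ < 1) :
    ‖1 - bf a z‖ ≤ 2 * (1 - ‖a‖) / (1 - ‖z‖) := by
  have hz' : 0 < 1 - ‖z‖ := by linarith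
  rw [bf]
  split_ifs with h
  · subst h
    rw [norm_zero, sub_zero, mul_one, le_div_iff₀ hz']
    have h2 : ‖1 - z‖ ≤ 1 + ‖z‖ := by
      calc ‖1 - z‖ ≤ ‖(1:ℂ)‖ + ‖z‖ := norm_sub_le _ _
        _ = _ := by rw [norm_one]
    nlinarith [norm_nonneg z, norm_nonneg (1 - z)]
  · have h' : ‖a‖ ≠ 0 := norm_ne_zero_iff.2 h
    have hd := den_ne ha hz.le
    have hconj : (starRingEnd ℂ) a = (‖a‖ : ℂ) ^ 2 / a := by
      rw [eq_div_iff h, mul_comm, Complex.mul_conj, Complex.normSq_eq_norm_sq]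
      push_cast; rfl
    have e : 1 - (‖a‖ : ℂ) / a * ((a - z) / (1 - (starRingEnd ℂ) a * z)) =
        (1 - ‖a‖) * (1 + (‖a‖ : ℂ) / a * z) / (1 - (starRingEnd ℂ) a * z) := by
      rw [eq_div_iff hd, sub_mul, one_mul, mul_assoc, div_mul_cancel₀ _ hd, hconj]
      field_simp
      ring
    rw [e, norm_div, norm_mul]
    have e1 : ‖(1:ℂ) - ‖a‖‖ = 1 - ‖a‖ := by
      rw [show (1:ℂ) - ‖a‖ = ((1 - ‖a‖ : ℝ) : ℂ) by push_cast; rfl, Complex.norm_real,
        Real.norm_of_nonneg (by linarith)]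
    have e2 : ‖1 + (‖a‖ : ℂ) / a * z‖ ≤ 2 := by
      calc ‖1 + (‖a‖ : ℂ) / a * z‖ ≤ ‖(1:ℂ)‖ + ‖(‖a‖ : ℂ) / a * z‖ := norm_add_le _ _
        _ = 1 + ‖z‖ := by
            rw [norm_one, norm_mul, norm_div, Complex.norm_real, norm_norm, div_self h', one_mul]
        _ ≤ 2 := by linarith
    have e3 := norm_den_ge (z := z) ha.le
    rw [e1]
    have e4 : (1 - ‖a‖) * ‖1 + (‖a‖ : ℂ) / a * z‖ ≤ 2 * (1 - ‖a‖) := by nlinarith
    exact div_le_div₀ (by linarith) e4 hz' e3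

lemma differentiableOn_bf {a : ℂ} (ha : ‖a‖ < 1) : DifferentiableOn ℂ (bf a) (ball 0 1) := by
  intro z hz
  have hd := den_ne ha (by simpa using (mem_ball_zero_iff.1 hz).le)
  unfold bf
  split_ifs with h
  · exact differentiableWithinAt_id
  · have : DifferentiableAt ℂ (fun z => (‖a‖ : ℂ) / a * ((a - z) / (1 - (starRingEnd ℂ) a * z))) z := by
      fun_prop (disch := exact hd)
    exact this.differentiableWithinAt

lemma bf_self (a : ℂ) : bf a a = 0 := by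
  rw [bf]; split_ifs with h
  · exact h
  · simp

lemma bf_eq_zero {a z : ℂ} (ha : ‖a‖ < 1) (hz : ‖z‖ < 1) (h : bf a z = 0) : z = a := by
  rw [bf] at h
  split_ifs at h with h0
  · rw [h, h0]
  · have hd := den_ne ha hz.le
    rcases mul_eq_zero.1 h with h1 | h1
    · rcases div_eq_zero_iff.1 h1 with h2 | h2
      · exact absurd (by simpa using h2) h0
      · exact absurd h2 h0
    · rcases div_eq_zero_iff.1 h1 with h2 | h2
      · exact (sub_eq_zero.1 h2).symm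
      · exact absurd h2 hd

lemma BSeq.shift {β : ℕ → ℂ} (h : BSeq β) (n : ℕ) : BSeq fun k => β (k + n) :=
  ⟨fun k => h.lt_one _, (summable_nat_add_iff (f := fun k => 1 - ‖β k‖) n).2 h.summable⟩

lemma BSeq.summable_norm {β : ℕ → ℂ} (h : BSeq β) {z : ℂ} (hz : ‖z‖ < 1) :
    Summable fun k => ‖bf (β k) z - 1‖ := by
  refine Summable.of_nonneg_of_le (fun k => norm_nonneg _) (fun k => ?_)
    (h.summable.mul_left (2 / (1 - ‖z‖)))
  rw [norm_sub_rev]
  refine (norm_one_sub_bf (h.lt_one k) hz).trans (le_of_eq ?_)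
  ring

lemma BSeq.multipliable {β : ℕ → ℂ} (h : BSeq β) {z : ℂ} (hz : ‖z‖ < 1) :
    Multipliable fun k => bf (β k) z := by
  have := multipliable_one_add_of_summable (h.summable_norm hz)
  refine this.congr fun k => ?_
  ring

lemma BSeq.hasProd {β : ℕ → ℂ} (h : BSeq β) {z : ℂ} (hz : ‖z‖ < 1) :
    HasProd (fun k => bf (β k) z) (B β z) := (h.multipliable hz).hasProd

lemma BSeq.norm_B_le {β : ℕ → ℂ} (h : BSeq β) {z : ℂ} (hz : ‖z‖ < 1) : ‖B β z‖ ≤ 1 := by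
  have h1 := (h.hasProd hz).tendsto_prod_nat
  refine le_of_tendsto h1.norm (Eventually.of_forall fun n => ?_)
  rw [norm_prod]
  exact Finset.prod_le_one (fun i _ => norm_nonneg _) (fun i _ => norm_bf_le (h.lt_one i) hz.le)

lemma BSeq.B_split {β : ℕ → ℂ} (h : BSeq β) (n : ℕ) {z : ℂ} (hz : ‖z‖ < 1) :
    B β z = (∏ k ∈ Finset.range n, bf (β k) z) * B (fun k => β (k + n)) z := by
  have := ((h.shift n).multipliable hz)
  exact (this.prod_mul_tprod_nat_mul' (f := fun k => bf (β k) z)).symm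

lemma BSeq.norm_B_lt {β : ℕ → ℂ} (h : BSeq β) {z : ℂ} (hz : ‖z‖ < 1) : ‖B β z‖ < 1 := by
  rw [h.B_split 1 hz, Finset.prod_range_one, norm_mul]
  have h1 := norm_bf_lt (h.lt_one 0) hz
  have h2 := (h.shift 1).norm_B_le hz
  nlinarith [norm_nonneg (bf (β 0) z), norm_nonneg (B (fun k => β (k + 1)) z)]

lemma BSeq.B_zero {β : ℕ → ℂ} (h : BSeq β) (k : ℕ) : B β (β k) = 0 := by
  rw [h.B_split (k + 1) (h.lt_one k), Finset.prod_range_succ, bf_self]
  ring

lemma BSeq.B_ne_zero {β : ℕ → ℂ} (h : BSeq β) {z : ℂ} (hz : ‖z‖ < 1) (hne : ∀ k, z ≠ β k) :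
    B β z ≠ 0 := by
  have h1 : B β z = ∏' k, (1 + (bf (β k) z - 1)) := by
    rw [B]; congr 1; funext k; ring
  rw [h1]
  refine tprod_one_add_ne_zero_of_summable (fun k => ?_) (h.summable_norm hz)
  rw [add_sub_cancel]
  exact fun h0 => hne k (bf_eq_zero (h.lt_one k) hz h0)

lemma BSeq.differentiableOn {β : ℕ → ℂ} (h : BSeq β) : DifferentiableOn ℂ (B β) (ball 0 1) := by
  intro z hz
  have hz1 : ‖z‖ < 1 := mem_ball_zero_iff.1 hz
  obtain ⟨r, hzr, hr⟩ := exists_between hz1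
  have hr0 : 0 ≤ r := (norm_nonneg z).trans hzr.le
  have key : HasProdLocallyUniformlyOn (fun k (z : ℂ) => 1 + (bf (β k) z - 1))
      (fun z => ∏' k, (1 + (bf (β k) z - 1))) (ball 0 r) := by
    refine Summable.hasProdLocallyUniformlyOn_nat_one_add isOpen_ball
      (u := fun k => 2 / (1 - r) * (1 - ‖β k‖)) (h.summable.mul_left _) ?_ ?_
    · refine Eventually.of_forall fun k w hw => ?_
      have hw' : ‖w‖ < r := mem_ball_zero_iff.1 hw
      rw [norm_sub_rev]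
      refine (norm_one_sub_bf (h.lt_one k) (hw'.trans hr)).trans ?_
      rw [div_mul_eq_mul_div]
      have := h.lt_one k
      exact div_le_div_of_nonneg_left (by linarith) (by linarith) (by linarith)
    · intro k
      refine (ContinuousOn.mono ?_ (ball_subset_ball hr.le)).sub continuousOn_const
      exact (differentiableOn_bf (h.lt_one k)).continuousOn
  have h1 := (hasProdLocallyUniformlyOn_iff_tendstoLocallyUniformlyOn.1 key).differentiableOn
    (Eventually.of_forall fun s => ?_) isOpen_ball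
  · have h2 := h1 z (mem_ball_zero_iff.2 hzr)
    have h3 : DifferentiableAt ℂ (fun z => ∏' k, (1 + (bf (β k) z - 1))) z :=
      h2.differentiableAt (isOpen_ball.mem_nhds (mem_ball_zero_iff.2 hzr))
    have h4 : (fun z => ∏' k, (1 + (bf (β k) z - 1))) = B β := by
      funext w; rw [B]; congr 1; funext k; ring
    rw [h4] at h3
    exact h3.differentiableWithinAt
  · refine DifferentiableOn.fun_finsetProd fun k _ => ?_
    refine (differentiableOn_const _).add (((differentiableOn_bf (h.lt_one k)).mono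
      (ball_subset_ball hr.le)).sub (differentiableOn_const _))

/-- Tails tend to `1`. -/
lemma BSeq.tendsto_tail {β : ℕ → ℂ} (h : BSeq β) {z : ℂ} (hz : ‖z‖ < 1) :
    Tendsto (fun n => B (fun k => β (k + n)) z) atTop (𝓝 1) := by
  have hb : ∀ n, ‖B (fun k => β (k + n)) z - 1‖ ≤
      Real.exp (∑' k, ‖bf (β (k + n)) z - 1‖) - 1 := by
    intro n
    have h1 := ((h.shift n).hasProd hz).tendsto_prod_nat
    refine le_of_tendsto ((h1.sub_const 1).norm) (Eventually.of_forall fun m => ?_)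
    have h2 := (Finset.range m).norm_prod_one_add_sub_one_le (fun k => bf (β (k + n)) z - 1)
    simp only [add_sub_cancel] at h2
    refine h2.trans ?_
    have h3 := ((h.shift n).summable_norm hz).sum_le_tsum (Finset.range m)
      (fun i _ => norm_nonneg _)
    have := Real.exp_le_exp.2 h3
    linarith
  have h4 : Tendsto (fun n => ∑' k, ‖bf (β (k + n)) z - 1‖) atTop (𝓝 0) :=
    tendsto_sum_nat_add fun k => ‖bf (β k) z - 1‖
  have h5 : Tendsto (fun n => Real.exp (∑' k, ‖bf (β (k + n)) z - 1‖) - 1) atTop (𝓝 0) := by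
    have := (Real.continuous_exp.tendsto 0).comp h4
    simpa using this.sub_const 1
  rw [tendsto_iff_norm_sub_tendsto_zero]
  exact squeeze_zero (fun n => norm_nonneg _) hb h5

end Pool.Agent.TH222.QP
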