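import Mathlib
import Pool.Agent.TH222.QP1

/-! Disc automorphisms and integral means over circles. -/

set_option autoImplicit false

open Filter Topology Metric MeasureTheory Set

namespace Pool.Agent.TH222.QP

/-- The disc automorphism sending `0` to `q`. -/
noncomputable def mob (q z : ℂ) : ℂ := (z + q) / (1 + (starRingEnd ℂ) q * z)

lemma mob_den_ne {q z : ℂ} (hq : ‖q‖ < 1) (hz : ‖z‖ ≤ 1) : 1 + (starRingEnd ℂ) q * z ≠ 0 := by
  have := den_ne (a := -q) (z := z) (by simpa using hq) hz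
  simpa using this

lemma mob_zero (q : ℂ) : mob q 0 = q := by simp [mob]

lemma one_sub_norm_mob_sq {q z : ℂ} (hq : ‖q‖ < 1) (hz : ‖z‖ ≤ 1) : 1 - ‖mob q z‖ ^ 2 =
    (1 - ‖q‖ ^ 2) * (1 - ‖z‖ ^ 2) / ‖1 + (starRingEnd ℂ) q * z‖ ^ 2 := by
  have hd := mob_den_ne hq hz
  have hd' : ‖1 + (starRingEnd ℂ) q * z‖ ≠ 0 := norm_ne_zero_iff.2 hd
  have h := pick_identity (-q) z
  rw [norm_neg] at h
  have e1 : 1 - (starRingEnd ℂ) (-q) * z = 1 + (starRingEnd ℂ) q * z := by simp
  have e2 : ‖-q - z‖ = ‖z + q‖ := by rw [← norm_neg]; congr 1; ring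
  rw [e1, e2] at h
  rw [mob, norm_div, div_pow, ← h, sub_div, div_self (pow_ne_zero 2 hd')]

lemma norm_mob_lt {q z : ℂ} (hq : ‖q‖ < 1) (hz : ‖z‖ < 1) : ‖mob q z‖ < 1 := by
  have h := one_sub_norm_mob_sq hq hz.le
  have hd' : 0 < ‖1 + (starRingEnd ℂ) q * z‖ := norm_pos_iff.2 (mob_den_ne hq hz.le)
  have h1 : 0 < (1 - ‖q‖ ^ 2) * (1 - ‖z‖ ^ 2) / ‖1 + (starRingEnd ℂ) q * z‖ ^ 2 := by
    have e1 : ‖q‖ ^ 2 < 1 := by nlinarith [norm_nonneg q]
    have e2 : ‖z‖ ^ 2 < 1 := by nlinarith [norm_nonneg z]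
    exact div_pos (mul_pos (by linarith) (by linarith)) (by positivity)
  nlinarith [norm_nonneg (mob q z)]

lemma one_sub_norm_mob_sq_le {q z : ℂ} (hq : ‖q‖ < 1) (hz : ‖z‖ < 1) :
    1 - ‖mob q z‖ ^ 2 ≤ (1 - ‖z‖ ^ 2) / (1 - ‖q‖) ^ 2 := by
  rw [one_sub_norm_mob_sq hq hz.le]
  have h0 : 1 - ‖q‖ ≤ ‖1 + (starRingEnd ℂ) q * z‖ := by
    have := norm_den_ge' (a := -q) (z := z) hz.le
    simpa using this
  have h1 : 0 < 1 - ‖q‖ := by linarith
  have e2 : 0 ≤ 1 - ‖z‖ ^ 2 := by nlinarith [norm_nonneg z]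
  have e1 : 0 ≤ ‖q‖ ^ 2 := by positivity
  refine div_le_div₀ e2 ?_ (by positivity) (by gcongr)
  nlinarith

lemma differentiableOn_mob {q : ℂ} (hq : ‖q‖ < 1) : DifferentiableOn ℂ (mob q) (ball 0 1) := by
  intro z hz
  have hd := mob_den_ne hq (by simpa using (mem_ball_zero_iff.1 hz).le)
  unfold mob
  have : DifferentiableAt ℂ (fun z => (z + q) / (1 + (starRingEnd ℂ) q * z)) z := by
    fun_prop (disch := exact hd)
  exact this.differentiableWithinAt

lemma mapsTo_mob {q : ℂ} (hq : ‖q‖ < 1) : MapsTo (mob q) (ball 0 1) (ball 0 1) := by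
  intro z hz
  rw [mem_ball_zero_iff] at hz ⊢
  exact norm_mob_lt hq hz

/-- The measure on the parameter circle. -/
noncomputable def mu : Measure ℝ := volume.restrict (Ioc 0 (2 * Real.pi))

instance : IsFiniteMeasure mu := by
  constructor
  rw [mu, Measure.restrict_apply_univ, Real.volume_Ioc]
  exact ENNReal.ofReal_lt_top

lemma mu_univ : mu univ = ENNReal.ofReal (2 * Real.pi) := by
  rw [mu, Measure.restrict_apply_univ, Real.volume_Ioc, sub_zero]

lemma two_pi_pos : (0:ℝ) < 2 * Real.pi := by positivity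

lemma integral_mu {E : Type*} [NormedAddCommGroup E] [NormedSpace ℝ E] (g : ℝ → E) :
    ∫ t, g t ∂mu = ∫ t in (0:ℝ)..(2 * Real.pi), g t := by
  rw [intervalIntegral.integral_of_le two_pi_pos.le, mu]

lemma integrable_mu_of_circleIntegrable {E : Type*} [NormedAddCommGroup E] {g : ℂ → E} {c : ℂ}
    {r : ℝ} (h : CircleIntegrable g c r) : Integrable (fun t => g (circleMap c r t)) mu := by
  rw [mu]
  have h1 : IntervalIntegrable (fun t => g (circleMap c r t)) volume 0 (2 * Real.pi) := h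
  exact (intervalIntegrable_iff_integrableOn_Ioc_of_le two_pi_pos.le).1 h1

lemma circleAverage_mu {E : Type*} [NormedAddCommGroup E] [NormedSpace ℝ E] (g : ℂ → E) (c : ℂ)
    (r : ℝ) : (2 * Real.pi) • Real.circleAverage g c r = ∫ t, g (circleMap c r t) ∂mu := by
  rw [Real.circleAverage_def, integral_mu, smul_smul, mul_inv_cancel₀ two_pi_pos.ne', one_smul]

lemma ofReal_integral_le {α : Type*} [MeasurableSpace α] {μ : Measure α} (h : α → ℝ)
    (hi : Integrable h μ) : ENNReal.ofReal (∫ t, h t ∂μ) ≤ ∫⁻ t, ENNReal.ofReal (h t) ∂μ := by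
  rw [integral_eq_lintegral_pos_part_sub_lintegral_neg_part hi]
  refine (ENNReal.ofReal_le_ofReal (sub_le_self _ ENNReal.toReal_nonneg)).trans ?_
  exact ENNReal.ofReal_toReal_le

lemma norm_circleMap_zero' {r : ℝ} (hr : 0 ≤ r) (t : ℝ) : ‖circleMap 0 r t‖ = r := by
  rw [norm_circleMap_zero, abs_of_nonneg hr]

/-- Jensen's inequality, as an upper bound for the value at the centre. -/
lemma jensen_bound {S : ℂ → ℂ} (hS : DifferentiableOn ℂ S (ball 0 1)) (h0 : S 0 ≠ 0) {r : ℝ}
    (hr0 : 0 < r) (hr1 : r < 1) (c : ℝ) (g : ℝ → ENNReal)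
    (hg : ∀ t, ENNReal.ofReal (Real.log ‖S (circleMap 0 r t)‖ - c) ≤ g t) :
    ENNReal.ofReal (2 * Real.pi * (Real.log ‖S 0‖ - c)) ≤ ∫⁻ t, g t ∂mu := by
  have hr : |r| = r := abs_of_pos hr0
  have hA : AnalyticOnNhd ℂ S (closedBall 0 |r|) := by
    have := hS.analyticOnNhd isOpen_ball
    exact this.mono (by rw [hr]; exact closedBall_subset_ball hr1)
  have hJ := hA.circleAverage_log_norm hr0.ne' h0
  have hci : CircleIntegrable (fun z => Real.log ‖S z‖) 0 r :=
    (hA.mono sphere_subset_closedBall).meromorphicOn.circleIntegrable_log_norm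
  have h1 : Real.log ‖S 0‖ ≤ Real.circleAverage (fun z => Real.log ‖S z‖) 0 r := by
    rw [hJ]
    have : 0 ≤ ∑ᶠ u, (MeromorphicOn.divisor S (closedBall 0 |r|) u : ℝ) *
        Real.log (r * ‖0 - u‖⁻¹) := by
      refine finsum_nonneg fun u => ?_
      by_cases hu : u ∈ closedBall (0:ℂ) |r|
      · refine mul_nonneg ?_ ?_
        · exact_mod_cast MeromorphicOn.AnalyticOnNhd.divisor_nonneg hA u
        · by_cases hu0 : u = 0
          · subst hu0; simp
          · apply Real.log_nonneg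
            rw [zero_sub, norm_neg, ← div_eq_mul_inv, one_le_div (norm_pos_iff.2 hu0)]
            simpa [hr] using hu
      · rw [Function.locallyFinsuppWithin.apply_eq_zero_of_notMem _ hu]
        simp
    linarith
  have hi := integrable_mu_of_circleIntegrable hci
  have h2 := circleAverage_mu (fun z => Real.log ‖S z‖) 0 r
  have h3 : 2 * Real.pi * (Real.log ‖S 0‖ - c) ≤
      ∫ t, (Real.log ‖S (circleMap 0 r t)‖ - c) ∂mu := by
    rw [integral_sub hi (integrable_const c), ← h2, integral_const]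
    have : mu.real univ = 2 * Real.pi := by
      rw [measureReal_def, mu_univ, ENNReal.toReal_ofReal two_pi_pos.le]
    rw [this, smul_eq_mul, smul_eq_mul]
    have := mul_le_mul_of_nonneg_left h1 two_pi_pos.le
    linarith
  refine (ENNReal.ofReal_le_ofReal h3).trans ?_
  refine (ofReal_integral_le _ (hi.sub (integrable_const c))).trans ?_
  exact lintegral_mono hg

/-- Means of `1 - |C|`. -/
lemma lintegral_one_sub_norm {C : ℂ → ℂ} (hC : DifferentiableOn ℂ C (ball 0 1))
    (hb : ∀ z, ‖z‖ < 1 → ‖C z‖ ≤ 1) {r : ℝ} (hr0 : 0 < r) (hr1 : r < 1) :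
    ∫⁻ t, ENNReal.ofReal (1 - ‖C (circleMap 0 r t)‖) ∂mu ≤
      ENNReal.ofReal (2 * Real.pi * (1 - ‖C 0‖)) := by
  have hr : |r| = r := abs_of_pos hr0
  have hsub : closedBall (0:ℂ) r ⊆ ball 0 1 := closedBall_subset_ball hr1
  have hcont : Continuous fun t => C (circleMap 0 r t) := by
    refine hC.continuousOn.comp_continuous (continuous_circleMap 0 r) fun t => ?_
    rw [mem_ball_zero_iff, norm_circleMap_zero' hr0.le]; exact hr1
  have hd : DiffContOnCl ℂ C (ball 0 |r|) := by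
    rw [hr]
    refine DifferentiableOn.diffContOnCl ?_
    rw [closure_ball _ hr0.ne']
    exact hC.mono hsub
  have hm := hd.circleAverage
  have h2 := circleAverage_mu C 0 r
  rw [hm] at h2
  have hci : Integrable (fun t => C (circleMap 0 r t)) mu := by
    have : CircleIntegrable C 0 r := by
      refine ContinuousOn.circleIntegrable hr0.le ?_
      exact hC.continuousOn.mono (sphere_subset_closedBall.trans hsub)
    exact integrable_mu_of_circleIntegrable this
  have h3 : 2 * Real.pi * ‖C 0‖ ≤ ∫ t, ‖C (circleMap 0 r t)‖ ∂mu := by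
    have := norm_integral_le_integral_norm (μ := mu) (fun t => C (circleMap 0 r t))
    rw [← h2, norm_smul, Real.norm_of_nonneg two_pi_pos.le] at this
    exact this
  have hi1 : Integrable (fun t => 1 - ‖C (circleMap 0 r t)‖) mu :=
    (integrable_const 1).sub hci.norm
  rw [← ofReal_integral_eq_lintegral_ofReal hi1 (Eventually.of_forall fun t => ?_)]
  · apply ENNReal.ofReal_le_ofReal
    have : mu.real univ = 2 * Real.pi := by
      rw [measureReal_def, mu_univ, ENNReal.toReal_ofReal two_pi_pos.le]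
    rw [integral_sub (integrable_const 1) hci.norm, integral_const, this, smul_eq_mul]
    linarith
  · have := hb (circleMap 0 r t) (by rw [norm_circleMap_zero' hr0.le]; exact hr1)
    simpa using this

/-- Means of `log (2 / |G|)` for zero-free `G` bounded by `2`. -/
lemma lintegral_log {G : ℂ → ℂ} (hG : DifferentiableOn ℂ G (ball 0 1))
    (hb : ∀ z, ‖z‖ < 1 → ‖G z‖ ≤ 2) (h0 : ∀ z, ‖z‖ < 1 → G z ≠ 0) {r : ℝ} (hr0 : 0 < r)
    (hr1 : r < 1) :
    ∫⁻ t, ENNReal.ofReal (Real.log (2 / ‖G (circleMap 0 r t)‖)) ∂mu ≤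
      ENNReal.ofReal (2 * Real.pi * Real.log (2 / ‖G 0‖)) := by
  have hr : |r| = r := abs_of_pos hr0
  have hA : AnalyticOnNhd ℂ G (closedBall 0 |r|) := by
    have := hG.analyticOnNhd isOpen_ball
    exact this.mono (by rw [hr]; exact closedBall_subset_ball hr1)
  have hci : CircleIntegrable (fun z => Real.log ‖G z‖) 0 r :=
    (hA.mono sphere_subset_closedBall).meromorphicOn.circleIntegrable_log_norm
  have hz0 : ‖(0:ℂ)‖ < 1 := by simp
  have hm : Real.circleAverage (fun z => Real.log ‖G z‖) 0 r = Real.log ‖G 0‖ := by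
    refine AnalyticOnNhd.circleAverage_log_norm_of_ne_zero hA fun u hu => h0 u ?_
    rw [hr, mem_closedBall_zero_iff] at hu
    linarith
  have hi := integrable_mu_of_circleIntegrable hci
  have h2 := circleAverage_mu (fun z => Real.log ‖G z‖) 0 r
  rw [hm] at h2
  have hlog : ∀ z, ‖z‖ < 1 → Real.log (2 / ‖G z‖) = Real.log 2 - Real.log ‖G z‖ := fun z hz =>
    Real.log_div two_ne_zero (norm_ne_zero_iff.2 (h0 z hz))
  have hlt : ∀ t, ‖circleMap 0 r t‖ < 1 := fun t => by rw [norm_circleMap_zero' hr0.le]; exact hr1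
  simp_rw [hlog _ (hlt _)]
  have hi1 : Integrable (fun t => Real.log 2 - Real.log ‖G (circleMap 0 r t)‖) mu :=
    (integrable_const _).sub hi
  rw [hlog 0 hz0, ← ofReal_integral_eq_lintegral_ofReal hi1
    (Eventually.of_forall fun t => ?_)]
  · apply ENNReal.ofReal_le_ofReal
    have : mu.real univ = 2 * Real.pi := by
      rw [measureReal_def, mu_univ, ENNReal.toReal_ofReal two_pi_pos.le]
    rw [integral_sub (integrable_const _) hi, integral_const, this, smul_eq_mul, ← h2, smul_eq_mul]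
    linarith
  · have h1 := hb _ (hlt t)
    have h3 := Real.log_le_log (norm_pos_iff.2 (h0 _ (hlt t))) h1
    simpa using h3

end Pool.Agent.TH222.QP
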