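import Mathlib
import Pool.Agent.TH222.QP2

/-! A rational inner function of two variables, and a lemma of Frostman. -/

set_option autoImplicit false

open Filter Topology Metric MeasureTheory Set

namespace Pool.Agent.TH222.QP

/-- A rational inner function of two variables. -/
noncomputable def F (x w : ℂ) : ℂ := (x + w - 2 * x * w) / (2 - x - w)

lemma F_identity (x w : ℂ) : ‖2 - x - w‖ ^ 2 - ‖x + w - 2 * x * w‖ ^ 2 =
    2 * (1 - ‖x‖ ^ 2) * ‖1 - w‖ ^ 2 + 2 * (1 - ‖w‖ ^ 2) * ‖1 - x‖ ^ 2 := by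
  simp only [← Complex.normSq_eq_norm_sq, Complex.normSq_apply]
  simp
  ring

lemma F_den_ne {x w : ℂ} (hx : ‖x‖ < 1) (hw : ‖w‖ < 1) : 2 - x - w ≠ 0 := by
  intro h
  have h1 : x + w = 2 := by linear_combination -h
  have h2 := norm_add_le x w
  rw [h1] at h2
  norm_num at h2
  linarith

lemma norm_F_sq {x w : ℂ} (hx : ‖x‖ < 1) (hw : ‖w‖ < 1) : 1 - ‖F x w‖ ^ 2 =
    (2 * (1 - ‖x‖ ^ 2) * ‖1 - w‖ ^ 2 + 2 * (1 - ‖w‖ ^ 2) * ‖1 - x‖ ^ 2) / ‖2 - x - w‖ ^ 2 := by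
  have hd : ‖2 - x - w‖ ≠ 0 := norm_ne_zero_iff.2 (F_den_ne hx hw)
  rw [← F_identity, F, norm_div, div_pow, sub_div, div_self (pow_ne_zero 2 hd)]

lemma one_sub_ne {x : ℂ} (hx : ‖x‖ < 1) : 1 - x ≠ 0 := by
  intro h
  have h1 : x = 1 := (sub_eq_zero.1 h).symm
  rw [h1, norm_one] at hx
  exact lt_irrefl _ hx

lemma norm_F_lt {x w : ℂ} (hx : ‖x‖ < 1) (hw : ‖w‖ < 1) : ‖F x w‖ < 1 := by
  have h := norm_F_sq hx hw
  have hd' : 0 < ‖2 - x - w‖ := norm_pos_iff.2 (F_den_ne hx hw)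
  have hx1 : 0 < ‖1 - x‖ := norm_pos_iff.2 (one_sub_ne hx)
  have hw1 : 0 < ‖1 - w‖ := norm_pos_iff.2 (one_sub_ne hw)
  have e1 : 0 < 1 - ‖x‖ ^ 2 := by nlinarith [norm_nonneg x]
  have e2 : 0 < 1 - ‖w‖ ^ 2 := by nlinarith [norm_nonneg w]
  have h1 : 0 < (2 * (1 - ‖x‖ ^ 2) * ‖1 - w‖ ^ 2 + 2 * (1 - ‖w‖ ^ 2) * ‖1 - x‖ ^ 2) /
      ‖2 - x - w‖ ^ 2 := by positivity
  nlinarith [norm_nonneg (F x w)]

lemma norm_den_F_ge {x w : ℂ} (hx : ‖x‖ < 1) (hw : ‖w‖ < 1) : ‖1 - x‖ ^ 2 / 2 ≤ ‖2 - x - w‖ := by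
  have h1 : (2 - x - w).re ≤ ‖2 - x - w‖ := Complex.re_le_norm _
  have h2 : ‖1 - x‖ ^ 2 = 1 - 2 * x.re + ‖x‖ ^ 2 := by
    simp only [← Complex.normSq_eq_norm_sq, Complex.normSq_apply]
    simp
    ring
  have h3 : w.re ≤ ‖w‖ := Complex.re_le_norm _
  have h4 : ‖x‖ ^ 2 ≤ 1 := by nlinarith [norm_nonneg x]
  simp at h1
  linarith

lemma norm_one_sub_le {x : ℂ} (hx : ‖x‖ < 1) : ‖1 - x‖ ≤ 2 := by
  calc ‖1 - x‖ ≤ ‖(1:ℂ)‖ + ‖x‖ := norm_sub_le _ _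
    _ ≤ 2 := by rw [norm_one]; linarith

lemma one_sub_norm_F_le {x w : ℂ} (hx : ‖x‖ < 1) (hw : ‖w‖ < 1) {η : ℝ} (h0 : 0 < η)
    (h1 : η < 1) : 1 - ‖F x w‖ ≤ Real.log (2 / ‖1 - x‖) / Real.log (2 / η) +
      32 / η ^ 4 * ((1 - ‖x‖ ^ 2) + (1 - ‖w‖ ^ 2)) := by
  have hx1 : 0 < ‖1 - x‖ := norm_pos_iff.2 (one_sub_ne hx)
  have hx2 := norm_one_sub_le hx
  have hw2 := norm_one_sub_le hw
  have e1 : 0 ≤ 1 - ‖x‖ ^ 2 := by nlinarith [norm_nonneg x]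
  have e2 : 0 ≤ 1 - ‖w‖ ^ 2 := by nlinarith [norm_nonneg w]
  have hlog : 0 < Real.log (2 / η) := Real.log_pos (by rw [lt_div_iff₀ h0]; linarith)
  have hlog2 : 0 ≤ Real.log (2 / ‖1 - x‖) := Real.log_nonneg (by rw [le_div_iff₀ hx1]; linarith)
  rcases lt_or_ge ‖1 - x‖ η with hlt | hge
  · have h2 : 1 ≤ Real.log (2 / ‖1 - x‖) / Real.log (2 / η) := by
      rw [le_div_iff₀ hlog, one_mul]
      apply Real.log_le_log (by positivity)
      exact div_le_div_of_nonneg_left (by norm_num) hx1 hlt.le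
    have h3 : 0 ≤ 32 / η ^ 4 * ((1 - ‖x‖ ^ 2) + (1 - ‖w‖ ^ 2)) := by positivity
    have := norm_nonneg (F x w)
    linarith
  · have h2 : 0 ≤ Real.log (2 / ‖1 - x‖) / Real.log (2 / η) := by positivity
    have h3 : 1 - ‖F x w‖ ≤ 1 - ‖F x w‖ ^ 2 := by
      nlinarith [norm_nonneg (F x w), norm_F_lt hx hw]
    have h4 : 1 - ‖F x w‖ ^ 2 ≤ 32 / η ^ 4 * ((1 - ‖x‖ ^ 2) + (1 - ‖w‖ ^ 2)) := by
      rw [norm_F_sq hx hw]
      have h5 : η ^ 2 / 2 ≤ ‖2 - x - w‖ :=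
        le_trans (by gcongr) (norm_den_F_ge hx hw)
      have h6 : (η ^ 2 / 2) ^ 2 ≤ ‖2 - x - w‖ ^ 2 := by gcongr
      have h7 : 2 * (1 - ‖x‖ ^ 2) * ‖1 - w‖ ^ 2 + 2 * (1 - ‖w‖ ^ 2) * ‖1 - x‖ ^ 2 ≤
          8 * ((1 - ‖x‖ ^ 2) + (1 - ‖w‖ ^ 2)) := by
        have a1 : ‖1 - w‖ ^ 2 ≤ 4 := by nlinarith [norm_nonneg (1 - w)]
        have a2 : ‖1 - x‖ ^ 2 ≤ 4 := by nlinarith [norm_nonneg (1 - x)]
        nlinarith
      calc (2 * (1 - ‖x‖ ^ 2) * ‖1 - w‖ ^ 2 + 2 * (1 - ‖w‖ ^ 2) * ‖1 - x‖ ^ 2) / ‖2 - x - w‖ ^ 2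
          ≤ 8 * ((1 - ‖x‖ ^ 2) + (1 - ‖w‖ ^ 2)) / (η ^ 2 / 2) ^ 2 :=
            div_le_div₀ (by positivity) h7 (by positivity) h6
        _ = 32 / η ^ 4 * ((1 - ‖x‖ ^ 2) + (1 - ‖w‖ ^ 2)) := by field_simp; ring
    linarith

/-- Minus the logarithm of the modulus. -/
noncomputable def ell (x : ℂ) : ENNReal := if x = 0 then ⊤ else ENNReal.ofReal (-Real.log ‖x‖)

lemma measurable_ell : Measurable ell := by
  unfold ell
  refine Measurable.ite (measurableSet_eq) measurable_const ?_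
  exact ENNReal.measurable_ofReal.comp (Real.measurable_log.comp measurable_norm).neg

/-- The Frostman shift. -/
noncomputable def bx (ξ c : ℂ) : ℂ := (c - ξ) / (1 - (starRingEnd ℂ) ξ * c)

lemma norm_bx_sq {ξ c : ℂ} (hξ : ‖ξ‖ < 1) (hc : ‖c‖ ≤ 1) : 1 - ‖bx ξ c‖ ^ 2 =
    (1 - ‖ξ‖ ^ 2) * (1 - ‖c‖ ^ 2) / ‖1 - (starRingEnd ℂ) ξ * c‖ ^ 2 := by
  have hd := den_ne hξ hc
  have hd' : ‖1 - (starRingEnd ℂ) ξ * c‖ ≠ 0 := norm_ne_zero_iff.2 hd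
  rw [bx, norm_div, div_pow, ← pick_identity, sub_div, div_self (pow_ne_zero 2 hd'),
    norm_sub_rev c ξ]

lemma norm_bx_le {ξ c : ℂ} (hξ : ‖ξ‖ < 1) (hc : ‖c‖ ≤ 1) : ‖bx ξ c‖ ≤ 1 := by
  have h := norm_bx_sq hξ hc
  have h1 : 0 ≤ (1 - ‖ξ‖ ^ 2) * (1 - ‖c‖ ^ 2) / ‖1 - (starRingEnd ℂ) ξ * c‖ ^ 2 := by
    have e1 : ‖ξ‖ ^ 2 ≤ 1 := by nlinarith [norm_nonneg ξ]
    have e2 : ‖c‖ ^ 2 ≤ 1 := by nlinarith [norm_nonneg c]
    exact div_nonneg (mul_nonneg (by linarith) (by linarith)) (by positivity)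
  nlinarith [norm_nonneg (bx ξ c)]

lemma norm_bx_lt {ξ c : ℂ} (hξ : ‖ξ‖ < 1) (hc : ‖c‖ < 1) : ‖bx ξ c‖ < 1 := by
  have h := norm_bx_sq hξ hc.le
  have hd' : 0 < ‖1 - (starRingEnd ℂ) ξ * c‖ := norm_pos_iff.2 (den_ne hξ hc.le)
  have h1 : 0 < (1 - ‖ξ‖ ^ 2) * (1 - ‖c‖ ^ 2) / ‖1 - (starRingEnd ℂ) ξ * c‖ ^ 2 := by
    have e1 : ‖ξ‖ ^ 2 < 1 := by nlinarith [norm_nonneg ξ]
    have e2 : ‖c‖ ^ 2 < 1 := by nlinarith [norm_nonneg c]
    exact div_pos (mul_pos (by linarith) (by linarith)) (by positivity)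
  nlinarith [norm_nonneg (bx ξ c)]

lemma frost_pt {ρ : ℝ} (h0 : 0 < ρ) (h1 : ρ < 1) {c : ℂ} (hc : ‖c‖ ≤ 1) :
    ∫⁻ α, ell (bx (circleMap 0 ρ α) c) ∂mu ≤ ENNReal.ofReal (2 * Real.pi * ((1 - ‖c‖) / ρ)) := by
  set h : ℂ → ℝ := fun ξ => Real.log ‖ξ - (ρ:ℂ) ^ 2 * c‖ - Real.log ρ - Real.log ‖ξ - c‖ with hh
  have hnull : ∀ᵐ α ∂mu, circleMap 0 ρ α ≠ c := by
    have hcount : (circleMap 0 ρ ⁻¹' {c}).Countable :=
      (Set.countable_singleton c).preimage_circleMap 0 h0.ne'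
    have h2 : ∀ᵐ α ∂(volume : Measure ℝ), circleMap 0 ρ α ≠ c := by
      rw [ae_iff]
      refine measure_mono_null (fun α hα => ?_) (hcount.measure_zero volume)
      simpa using hα
    exact ae_restrict_of_ae h2
  have key : ∀ α, circleMap 0 ρ α ≠ c → ell (bx (circleMap 0 ρ α) c) =
      ENNReal.ofReal (h (circleMap 0 ρ α)) ∧ 0 ≤ h (circleMap 0 ρ α) := by
    intro α hα
    set ξ := circleMap 0 ρ α with hξ
    have hξn : ‖ξ‖ = ρ := norm_circleMap_zero' h0.le α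
    have hξ1 : ‖ξ‖ < 1 := by rw [hξn]; exact h1
    have hd := den_ne hξ1 hc
    have hcξ : c - ξ ≠ 0 := sub_ne_zero.2 (Ne.symm hα)
    have hb : bx ξ c ≠ 0 := div_ne_zero hcξ hd
    have hξ0 : ξ ≠ 0 := by
      intro h; rw [h, norm_zero] at hξn; exact h0.ne hξn
    have e1 : 1 - (starRingEnd ℂ) ξ * c = (ξ - (ρ:ℂ) ^ 2 * c) / ξ := by
      have : (starRingEnd ℂ) ξ * ξ = (ρ:ℂ) ^ 2 := by
        rw [mul_comm, Complex.mul_conj, Complex.normSq_eq_norm_sq, hξn]; push_cast; rfl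
      rw [eq_div_iff hξ0, ← this]; ring
    have e2 : -Real.log ‖bx ξ c‖ = h ξ := by
      have hn1 : ‖c - ξ‖ ≠ 0 := norm_ne_zero_iff.2 hcξ
      have hn2 : ‖1 - (starRingEnd ℂ) ξ * c‖ ≠ 0 := norm_ne_zero_iff.2 hd
      have hn3 : ‖ξ - (ρ:ℂ) ^ 2 * c‖ ≠ 0 := by
        intro h3
        apply hn2
        rw [e1, norm_div, h3, zero_div]
      rw [bx, norm_div, Real.log_div hn1 hn2, e1, norm_div, Real.log_div hn3 (by rw [hξn]; exact h0.ne'),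
        hξn, norm_sub_rev c ξ, hh]
      ring
    refine ⟨?_, ?_⟩
    · rw [ell, if_neg hb, e2]
    · rw [← e2]
      have := Real.log_nonpos (norm_nonneg _) (norm_bx_le hξ1 hc)
      linarith
  have hae : ∀ᵐ α ∂mu, ell (bx (circleMap 0 ρ α) c) = ENNReal.ofReal (h (circleMap 0 ρ α)) := by
    filter_upwards [hnull] with α hα using (key α hα).1
  have hnn : 0 ≤ᵐ[mu] fun α => h (circleMap 0 ρ α) := by
    filter_upwards [hnull] with α hα using (key α hα).2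
  have hci : ∀ a : ℂ, CircleIntegrable (fun ξ => Real.log ‖ξ - a‖) 0 ρ := fun a =>
    MeromorphicOn.circleIntegrable_log_norm (fun _ _ => by fun_prop)
  have hi1 := integrable_mu_of_circleIntegrable (hci ((ρ:ℂ) ^ 2 * c))
  have hi2 := integrable_mu_of_circleIntegrable (hci c)
  have hi : Integrable (fun α => h (circleMap 0 ρ α)) mu :=
    (hi1.sub (integrable_const _)).sub hi2
  rw [lintegral_congr_ae hae, ← ofReal_integral_eq_lintegral_ofReal hi hnn]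
  apply ENNReal.ofReal_le_ofReal
  have hmu : mu.real univ = 2 * Real.pi := by
    rw [measureReal_def, mu_univ, ENNReal.toReal_ofReal two_pi_pos.le]
  have hav : ∀ a : ℂ, ∫ α, Real.log ‖circleMap 0 ρ α - a‖ ∂mu =
      2 * Real.pi * (Real.log ρ + Real.posLog (ρ⁻¹ * ‖a‖)) := by
    intro a
    have := circleAverage_mu (fun ξ => Real.log ‖ξ - a‖) 0 ρ
    rw [← this, smul_eq_mul, circleAverage_log_norm_sub_const_eq_log_radius_add_posLog h0.ne',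
      zero_sub, norm_neg]
  have hint : ∫ α, h (circleMap 0 ρ α) ∂mu =
      2 * Real.pi * (-Real.log ρ - Real.posLog (ρ⁻¹ * ‖c‖)) := by
    have e0 : ∫ α, h (circleMap 0 ρ α) ∂mu = (∫ α, Real.log ‖circleMap 0 ρ α - (ρ:ℂ) ^ 2 * c‖ ∂mu)
        - (∫ α, Real.log ρ ∂mu) - ∫ α, Real.log ‖circleMap 0 ρ α - c‖ ∂mu := by
      have hi12 : Integrable (fun α => Real.log ‖circleMap 0 ρ α - (ρ:ℂ) ^ 2 * c‖ - Real.log ρ) mu :=
        hi1.sub (integrable_const _)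
      rw [← integral_sub hi1 (integrable_const _), ← integral_sub hi12 hi2]
    rw [e0, hav, hav, integral_const, hmu, smul_eq_mul]
    have hp0 : Real.posLog (ρ⁻¹ * ‖(ρ:ℂ) ^ 2 * c‖) = 0 := by
      rw [Real.posLog_eq_zero_iff]
      rw [norm_mul, norm_pow, Complex.norm_real, Real.norm_of_nonneg h0.le]
      have : ρ⁻¹ * (ρ ^ 2 * ‖c‖) = ρ * ‖c‖ := by field_simp
      rw [this, abs_of_nonneg (by positivity)]
      nlinarith [norm_nonneg c]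
    rw [hp0]
    ring
  rw [hint]
  refine mul_le_mul_of_nonneg_left ?_ two_pi_pos.le
  rcases le_or_gt ρ ‖c‖ with hle | hgt
  · have hc0 : 0 < ‖c‖ := lt_of_lt_of_le h0 hle
    have e1 : Real.posLog (ρ⁻¹ * ‖c‖) = Real.log ‖c‖ - Real.log ρ := by
      rw [Real.posLog_eq_log, Real.log_mul (inv_ne_zero h0.ne') hc0.ne', Real.log_inv]
      · ring
      · rw [abs_of_nonneg (by positivity), inv_mul_eq_div, one_le_div h0]; exact hle
    rw [e1]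
    have h2 := Real.one_sub_inv_le_log_of_pos hc0
    have h3 : ‖c‖⁻¹ - 1 ≤ (1 - ‖c‖) / ρ := by
      rw [show ‖c‖⁻¹ - 1 = (1 - ‖c‖) / ‖c‖ by field_simp]
      exact div_le_div_of_nonneg_left (by linarith) h0 hle
    linarith
  · have e1 := Real.posLog_nonneg (x := ρ⁻¹ * ‖c‖)
    have h2 := Real.one_sub_inv_le_log_of_pos h0
    have h3 : ρ⁻¹ - 1 ≤ (1 - ‖c‖) / ρ := by
      rw [show ρ⁻¹ - 1 = (1 - ρ) / ρ by field_simp]
      gcongr
    linarith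

/-- Frostman's selection lemma, for two countable families of measurable functions. -/
lemma frostman {ι : Type} [Countable ι] (c c' : ι → ℕ → ℝ → ℂ)
    (hm : ∀ i k, Measurable (c i k)) (hm' : ∀ i k, Measurable (c' i k))
    (hb : ∀ i k t, ‖c i k t‖ ≤ 1) (hb' : ∀ i k t, ‖c' i k t‖ ≤ 1)
    (hl : ∀ i, Tendsto (fun k => ∫⁻ t, ENNReal.ofReal (1 - ‖c i k t‖) ∂mu) atTop (𝓝 0))
    (hl' : ∀ i, Tendsto (fun k => ∫⁻ t, ENNReal.ofReal (1 - ‖c' i k t‖) ∂mu) atTop (𝓝 0))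
    {ρ : ℝ} (h0 : 0 < ρ) (h1 : ρ < 1) :
    ∃ ξ : ℂ, ‖ξ‖ = ρ ∧ ∀ i, liminf (fun k => ∫⁻ t, (ell (bx ξ (c i k t)) +
      ell (bx ξ (c' i k t))) ∂mu) atTop = 0 := by
  have hmb : ∀ g : ℝ → ℂ, Measurable g →
      Measurable (fun p : ℝ × ℝ => ell (bx (circleMap 0 ρ p.1) (g p.2))) := by
    intro g hg
    refine measurable_ell.comp ?_
    unfold bx
    have h1 : Measurable fun p : ℝ × ℝ => circleMap 0 ρ p.1 :=
      (continuous_circleMap 0 ρ).measurable.comp measurable_fst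
    have h2 : Measurable fun p : ℝ × ℝ => g p.2 := hg.comp measurable_snd
    exact (h2.sub h1).div (measurable_const.sub
      (((continuous_star (R := ℂ)).measurable.comp h1).mul h2))
  have hint : ∀ g : ℝ → ℂ, Measurable g → (∀ t, ‖g t‖ ≤ 1) →
      ∫⁻ α, ∫⁻ t, ell (bx (circleMap 0 ρ α) (g t)) ∂mu ∂mu ≤
        ENNReal.ofReal (2 * Real.pi / ρ) * ∫⁻ t, ENNReal.ofReal (1 - ‖g t‖) ∂mu := by
    intro g hg hgb
    rw [lintegral_lintegral_swap (hmb g hg).aemeasurable, ← lintegral_const_mul']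
    · refine lintegral_mono fun t => (frost_pt h0 h1 (hgb t)).trans (le_of_eq ?_)
      rw [← ENNReal.ofReal_mul (by positivity)]
      congr 1
      ring
    · exact ENNReal.ofReal_ne_top
  set Φ : ι → ℕ → ℝ → ENNReal := fun i k α => ∫⁻ t, (ell (bx (circleMap 0 ρ α) (c i k t)) +
      ell (bx (circleMap 0 ρ α) (c' i k t))) ∂mu with hΦ
  have hΦm : ∀ i k, Measurable (Φ i k) := by
    intro i k
    exact ((hmb _ (hm i k)).add (hmb _ (hm' i k))).lintegral_prod_right'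
  have hΦi : ∀ i, Tendsto (fun k => ∫⁻ α, Φ i k α ∂mu) atTop (𝓝 0) := by
    intro i
    have hA : Tendsto (fun k => ENNReal.ofReal (2 * Real.pi / ρ) *
        ∫⁻ t, ENNReal.ofReal (1 - ‖c i k t‖) ∂mu + ENNReal.ofReal (2 * Real.pi / ρ) *
        ∫⁻ t, ENNReal.ofReal (1 - ‖c' i k t‖) ∂mu) atTop (𝓝 0) := by
      have e1 := ENNReal.Tendsto.const_mul (hl i)
        (Or.inr (ENNReal.ofReal_ne_top (r := 2 * Real.pi / ρ)))
      have e2 := ENNReal.Tendsto.const_mul (hl' i)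
        (Or.inr (ENNReal.ofReal_ne_top (r := 2 * Real.pi / ρ)))
      have := e1.add e2
      simpa using this
    refine tendsto_of_tendsto_of_tendsto_of_le_of_le tendsto_const_nhds hA
      (fun k => zero_le) fun k => ?_
    have e3 : ∀ α, Φ i k α = (∫⁻ t, ell (bx (circleMap 0 ρ α) (c i k t)) ∂mu) +
        ∫⁻ t, ell (bx (circleMap 0 ρ α) (c' i k t)) ∂mu := by
      intro α
      rw [hΦ]
      exact lintegral_add_left ((hmb _ (hm i k)).comp measurable_prodMk_left) _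
    simp only [e3]
    rw [lintegral_add_left (hmb _ (hm i k)).lintegral_prod_right']
    exact add_le_add (hint _ (hm i k) (hb i k)) (hint _ (hm' i k) (hb' i k))
  have hae : ∀ i, ∀ᵐ α ∂mu, liminf (fun k => Φ i k α) atTop = 0 := by
    intro i
    have h2 : ∫⁻ α, liminf (fun k => Φ i k α) atTop ∂mu = 0 := by
      have := lintegral_liminf_le (μ := mu) (u := (atTop : Filter ℕ)) (hΦm i)
      rw [(hΦi i).liminf_eq] at this
      exact le_antisymm this zero_le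
    rw [lintegral_eq_zero_iff (Measurable.liminf (hΦm i))] at h2
    exact h2
  have hall := ae_all_iff.2 hae
  have hne : (ae mu).NeBot := by
    rw [ae_neBot]
    intro h
    have := mu_univ
    rw [h] at this
    simp only [Measure.coe_zero, Pi.zero_apply] at this
    have h3 := (ENNReal.ofReal_pos.2 two_pi_pos)
    rw [← this] at h3
    exact lt_irrefl _ h3
  obtain ⟨α, hα⟩ := hall.exists
  exact ⟨circleMap 0 ρ α, norm_circleMap_zero' h0.le α, hα⟩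

end Pool.Agent.TH222.QP
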