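import Mathlib
import Pool.Agent.TH222.QP3

/-! Limits of means of `1 - |c|` over circles for the functions `F (s, ± w)`. -/

set_option autoImplicit false

open Filter Topology Metric MeasureTheory Set

namespace Pool.Agent.TH222.QP

/-- Radii tending to one. -/
noncomputable def rk (k : ℕ) : ℝ := 1 - 1 / ((k : ℝ) + 2)

lemma rk_pos (k : ℕ) : 0 < rk k := by
  have : (0:ℝ) < (k:ℝ) + 2 := by positivity
  rw [rk, sub_pos, div_lt_one this]
  have : (0:ℝ) ≤ (k:ℝ) := by positivity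
  linarith

lemma rk_lt (k : ℕ) : rk k < 1 := by
  have : (0:ℝ) < 1 / ((k:ℝ) + 2) := by positivity
  rw [rk]; linarith

lemma tendsto_rk : Tendsto rk atTop (𝓝 1) := by
  have h1 : Tendsto (fun k : ℕ => 1 / ((k:ℝ) + 2)) atTop (𝓝 0) := by
    have h2 : Tendsto (fun k : ℕ => (k:ℝ) + 2) atTop atTop :=
      tendsto_atTop_add_const_right _ _ tendsto_natCast_atTop_atTop
    have h3 := h2.inv_tendsto_atTop
    refine h3.congr fun k => ?_
    simp
  have h4 := h1.const_sub 1
  rw [sub_zero] at h4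
  exact h4.congr fun k => by rw [rk]

lemma norm_cm (k : ℕ) (t : ℝ) : ‖circleMap 0 (rk k) t‖ = rk k := norm_circleMap_zero' (rk_pos k).le t

lemma norm_cm_lt (k : ℕ) (t : ℝ) : ‖circleMap 0 (rk k) t‖ < 1 := by rw [norm_cm]; exact rk_lt k

/-- The point `mob q (r e^{it})`. -/
noncomputable def gm (q : ℂ) (k : ℕ) (t : ℝ) : ℂ := mob q (circleMap 0 (rk k) t)

lemma norm_gm_lt {q : ℂ} (hq : ‖q‖ < 1) (k : ℕ) (t : ℝ) : ‖gm q k t‖ < 1 :=
  norm_mob_lt hq (norm_cm_lt k t)

lemma one_sub_norm_gm_le {q : ℂ} (hq : ‖q‖ < 1) (k : ℕ) (t : ℝ) :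
    1 - ‖gm q k t‖ ^ 2 ≤ (1 - rk k ^ 2) / (1 - ‖q‖) ^ 2 := by
  have := one_sub_norm_mob_sq_le hq (norm_cm_lt k t)
  rwa [norm_cm] at this

lemma continuous_gm {q : ℂ} (hq : ‖q‖ < 1) (k : ℕ) : Continuous (gm q k) := by
  refine (differentiableOn_mob hq).continuousOn.comp_continuous (continuous_circleMap 0 (rk k))
    fun t => ?_
  rw [mem_ball_zero_iff]; exact norm_cm_lt k t

/-- A quantity tending to zero. -/
lemma tendsto_const_bound (K : ℝ) :
    Tendsto (fun k => ENNReal.ofReal (K * (1 - rk k ^ 2))) atTop (𝓝 0) := by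
  have h1 : Tendsto (fun k => K * (1 - rk k ^ 2)) atTop (𝓝 0) := by
    have := ((tendsto_rk.pow 2).const_sub 1).const_mul K
    simpa using this
  have := (ENNReal.continuous_ofReal.tendsto 0).comp h1
  simpa [Function.comp_def] using this

lemma lintegral_le_const {g : ℝ → ENNReal} {c : ℝ} (h : ∀ t, g t ≤ ENNReal.ofReal c) :
    ∫⁻ t, g t ∂mu ≤ ENNReal.ofReal (2 * Real.pi * c) := by
  refine (lintegral_mono h).trans ?_
  rw [lintegral_const, mu_univ, mul_comm, ← ENNReal.ofReal_mul two_pi_pos.le]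

lemma tendsto_gm {q : ℂ} (hq : ‖q‖ < 1) :
    Tendsto (fun k => ∫⁻ t, ENNReal.ofReal (1 - ‖gm q k t‖ ^ 2) ∂mu) atTop (𝓝 0) := by
  have h1 := tendsto_const_bound (2 * Real.pi / (1 - ‖q‖) ^ 2)
  refine tendsto_of_tendsto_of_tendsto_of_le_of_le tendsto_const_nhds h1
    (fun k => zero_le) fun k => ?_
  refine (lintegral_le_const (c := (1 - rk k ^ 2) / (1 - ‖q‖) ^ 2) fun t =>
    ENNReal.ofReal_le_ofReal (one_sub_norm_gm_le hq k t)).trans (le_of_eq ?_)
  congr 1
  ring

lemma one_sub_prod_le {β : ℕ → ℂ} (h : BSeq β) (n : ℕ) {z : ℂ} (hz : ‖z‖ < 1) :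
    1 - ‖∏ k ∈ Finset.range n, bf (β k) z‖ ≤ ∑ k ∈ Finset.range n, (1 - ‖bf (β k) z‖) := by
  induction n with
  | zero => simp
  | succ n ih =>
    rw [Finset.prod_range_succ, Finset.sum_range_succ, norm_mul]
    have h1 : ‖∏ k ∈ Finset.range n, bf (β k) z‖ ≤ 1 := by
      rw [norm_prod]
      exact Finset.prod_le_one (fun i _ => norm_nonneg _) (fun i _ => norm_bf_le (h.lt_one i) hz.le)
    have h2 := norm_bf_le (h.lt_one n) hz.le
    nlinarith [norm_nonneg (∏ k ∈ Finset.range n, bf (β k) z), norm_nonneg (bf (β n) z)]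

lemma one_sub_bf_le {a z : ℂ} (ha : ‖a‖ < 1) (hz : ‖z‖ < 1) :
    1 - ‖bf a z‖ ≤ (1 / (1 - ‖a‖) ^ 2) * (1 - ‖z‖ ^ 2) := by
  have h1 := norm_bf_sq ha hz.le
  have h2 := norm_bf_le ha hz.le
  have h3 : 1 - ‖bf a z‖ ≤ 1 - ‖bf a z‖ ^ 2 := by nlinarith [norm_nonneg (bf a z)]
  have h4 := norm_den_ge' (a := a) (z := z) hz.le
  have h5 : 0 < 1 - ‖a‖ := by linarith
  have e2 : 0 ≤ 1 - ‖z‖ ^ 2 := by nlinarith [norm_nonneg z]
  have e1 : 1 - ‖a‖ ^ 2 ≤ 1 := by nlinarith [norm_nonneg a]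
  have h6 : (1 - ‖a‖ ^ 2) * (1 - ‖z‖ ^ 2) / ‖1 - (starRingEnd ℂ) a * z‖ ^ 2 ≤
      (1 - ‖z‖ ^ 2) / (1 - ‖a‖) ^ 2 := by
    refine div_le_div₀ e2 ?_ (by positivity) (by gcongr)
    nlinarith
  have h7 : (1 / (1 - ‖a‖) ^ 2) * (1 - ‖z‖ ^ 2) = (1 - ‖z‖ ^ 2) / (1 - ‖a‖) ^ 2 := by ring
  rw [h7]
  linarith

lemma tendsto_B {β : ℕ → ℂ} (h : BSeq β) {q : ℂ} (hq : ‖q‖ < 1) :
    Tendsto (fun k => ∫⁻ t, ENNReal.ofReal (1 - ‖B β (gm q k t)‖) ∂mu) atTop (𝓝 0) := by
  rw [ENNReal.tendsto_nhds_zero]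
  intro ε hε
  have hε2 : 0 < ε / 2 := ENNReal.half_pos hε.ne'
  -- choose the tail
  have htail : Tendsto (fun n => ENNReal.ofReal (2 * Real.pi * (1 - ‖B (fun k => β (k + n)) q‖)))
      atTop (𝓝 0) := by
    have h1 : Tendsto (fun n => 2 * Real.pi * (1 - ‖B (fun k => β (k + n)) q‖)) atTop (𝓝 0) := by
      have := (((h.tendsto_tail hq).norm).const_sub 1).const_mul (2 * Real.pi)
      simpa using this
    have := (ENNReal.continuous_ofReal.tendsto 0).comp h1
    simpa [Function.comp_def] using this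
  obtain ⟨n, hn⟩ := ((ENNReal.tendsto_nhds_zero.1 htail) (ε / 2) hε2).exists
  set K : ℝ := ∑ k ∈ Finset.range n, 1 / (1 - ‖β k‖) ^ 2 with hK
  have hK0 : 0 ≤ K := Finset.sum_nonneg fun k _ => by positivity
  have hmain : ∀ k, ∫⁻ t, ENNReal.ofReal (1 - ‖B β (gm q k t)‖) ∂mu ≤
      ENNReal.ofReal (2 * Real.pi * K / (1 - ‖q‖) ^ 2 * (1 - rk k ^ 2)) + ε / 2 := by
    intro k
    have hpt : ∀ t, ENNReal.ofReal (1 - ‖B β (gm q k t)‖) ≤
        ENNReal.ofReal (K * ((1 - rk k ^ 2) / (1 - ‖q‖) ^ 2)) +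
        ENNReal.ofReal (1 - ‖B (fun k => β (k + n)) (gm q k t)‖) := by
      intro t
      rw [← ENNReal.ofReal_add]
      · apply ENNReal.ofReal_le_ofReal
        have hz := norm_gm_lt hq k t
        rw [h.B_split n hz, norm_mul]
        have h1 := one_sub_prod_le h n hz
        have h2 := (h.shift n).norm_B_le hz
        have h3 : ∑ j ∈ Finset.range n, (1 - ‖bf (β j) (gm q k t)‖) ≤
            K * ((1 - rk k ^ 2) / (1 - ‖q‖) ^ 2) := by
          rw [hK, Finset.sum_mul]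
          refine Finset.sum_le_sum fun j _ => ?_
          refine (one_sub_bf_le (h.lt_one j) hz).trans ?_
          exact mul_le_mul_of_nonneg_left (one_sub_norm_gm_le hq k t) (by positivity)
        have h4 : ‖∏ j ∈ Finset.range n, bf (β j) (gm q k t)‖ ≤ 1 := by
          rw [norm_prod]
          exact Finset.prod_le_one (fun i _ => norm_nonneg _)
            (fun i _ => norm_bf_le (h.lt_one i) hz.le)
        nlinarith [norm_nonneg (∏ j ∈ Finset.range n, bf (β j) (gm q k t)),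
          norm_nonneg (B (fun k => β (k + n)) (gm q k t))]
      · have : 0 ≤ 1 - rk k ^ 2 := by nlinarith [rk_pos k, rk_lt k]
        positivity
      · have := (h.shift n).norm_B_le (norm_gm_lt hq k t)
        linarith
    refine (lintegral_mono hpt).trans ?_
    rw [lintegral_add_left measurable_const]
    refine add_le_add ?_ ?_
    · refine (lintegral_le_const fun t => le_rfl).trans (le_of_eq ?_)
      congr 1
      ring
    · have h5 := lintegral_one_sub_norm (C := fun z => B (fun k => β (k + n)) (mob q z))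
        (((h.shift n).differentiableOn).comp (differentiableOn_mob hq) (mapsTo_mob hq))
        (fun z hz => (h.shift n).norm_B_le (norm_mob_lt hq hz)) (rk_pos k) (rk_lt k)
      simp only [mob_zero] at h5
      exact h5.trans hn
  have h6 := (ENNReal.tendsto_nhds_zero.1 (tendsto_const_bound
    (2 * Real.pi * K / (1 - ‖q‖) ^ 2))) (ε / 2) hε2
  filter_upwards [h6] with k hk
  refine (hmain k).trans ?_
  calc _ ≤ ε / 2 + ε / 2 := by gcongr
    _ = ε := ENNReal.add_halves ε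

/-- The main limit. The function `w` is any measurable function with `|w|^2 = |B|`. -/
lemma tendsto_F {β : ℕ → ℂ} (h : BSeq β) {q : ℂ} (hq : ‖q‖ < 1) {ζ : ℂ} (hζ : ‖ζ‖ = 1)
    (w : ℂ → ℂ) (hw : ∀ z, ‖z‖ < 1 → ‖w z‖ ^ 2 = ‖B β z‖) :
    Tendsto (fun k => ∫⁻ t, ENNReal.ofReal (1 - ‖F ((starRingEnd ℂ) ζ * gm q k t)
      (w (gm q k t))‖) ∂mu) atTop (𝓝 0) := by
  rw [ENNReal.tendsto_nhds_zero]
  intro ε hε
  have hε2 : 0 < ε / 2 := ENNReal.half_pos hε.ne'
  have hs : ∀ z : ℂ, ‖(starRingEnd ℂ) ζ * z‖ = ‖z‖ := fun z => by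
    rw [norm_mul, RCLike.norm_conj, hζ, one_mul]
  have hw1 : ∀ z : ℂ, ‖z‖ < 1 → ‖w z‖ < 1 := fun z hz => by
    have h1 := hw z hz
    have h2 := h.norm_B_lt hz
    nlinarith [norm_nonneg (w z)]
  set G : ℂ → ℂ := fun z => 1 - (starRingEnd ℂ) ζ * mob q z with hG
  have hGd : DifferentiableOn ℂ G (ball 0 1) :=
    (differentiableOn_const _).sub ((differentiableOn_const _).mul (differentiableOn_mob hq))
  have hGne : ∀ z, ‖z‖ < 1 → G z ≠ 0 := fun z hz =>
    one_sub_ne (by rw [hs]; exact norm_mob_lt hq hz)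
  have hG2 : ∀ z, ‖z‖ < 1 → ‖G z‖ ≤ 2 := fun z hz =>
    norm_one_sub_le (by rw [hs]; exact norm_mob_lt hq hz)
  set L : ℝ := 2 * Real.pi * Real.log (2 / ‖G 0‖) with hL
  have hL0 : 0 ≤ L := by
    have h1 := hGne 0 (by simp)
    have h2 := hG2 0 (by simp)
    have : 0 ≤ Real.log (2 / ‖G 0‖) := Real.log_nonneg (by
      rw [le_div_iff₀ (norm_pos_iff.2 h1)]; linarith)
    positivity
  -- choose η
  have hη : ∃ η : ℝ, 0 < η ∧ η < 1 ∧ ENNReal.ofReal (L / Real.log (2 / η)) ≤ ε / 2 := by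
    have h1 : Tendsto (fun j : ℕ => ENNReal.ofReal (L / Real.log (2 / (1 / ((j:ℝ) + 2)))))
        atTop (𝓝 0) := by
      have h2 : Tendsto (fun j : ℕ => 2 / (1 / ((j:ℝ) + 2))) atTop atTop := by
        have : Tendsto (fun k : ℕ => 2 * ((k:ℝ) + 2)) atTop atTop :=
          (tendsto_atTop_add_const_right _ _ tendsto_natCast_atTop_atTop).const_mul_atTop
            two_pos
        refine this.congr fun j => ?_
        field_simp
      have h3 : Tendsto (fun j : ℕ => L / Real.log (2 / (1 / ((j:ℝ) + 2)))) atTop (𝓝 0) :=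
        (Real.tendsto_log_atTop.comp h2).const_div_atTop L
      have := (ENNReal.continuous_ofReal.tendsto 0).comp h3
      simpa [Function.comp_def] using this
    obtain ⟨j, hj⟩ := ((ENNReal.tendsto_nhds_zero.1 h1) (ε / 2) hε2).exists
    refine ⟨1 / ((j:ℝ) + 2), by positivity, ?_, hj⟩
    rw [div_lt_one (by positivity)]
    have : (0:ℝ) ≤ (j:ℝ) := by positivity
    linarith
  obtain ⟨η, hη0, hη1, hηε⟩ := hη
  have hlogη : 0 < Real.log (2 / η) := Real.log_pos (by rw [lt_div_iff₀ hη0]; linarith)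
  set K : ℝ := 32 / η ^ 4 with hK
  have hK0 : 0 ≤ K := by positivity
  have hmain : ∀ k, ∫⁻ t, ENNReal.ofReal (1 - ‖F ((starRingEnd ℂ) ζ * gm q k t)
      (w (gm q k t))‖) ∂mu ≤ ε / 2 + (ENNReal.ofReal K *
        ∫⁻ t, ENNReal.ofReal (1 - ‖gm q k t‖ ^ 2) ∂mu + ENNReal.ofReal K *
        ∫⁻ t, ENNReal.ofReal (1 - ‖B β (gm q k t)‖) ∂mu) := by
    intro k
    have hpt : ∀ t, ENNReal.ofReal (1 - ‖F ((starRingEnd ℂ) ζ * gm q k t) (w (gm q k t))‖) ≤
        ENNReal.ofReal (1 / Real.log (2 / η)) *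
          ENNReal.ofReal (Real.log (2 / ‖G (circleMap 0 (rk k) t)‖)) +
        (ENNReal.ofReal K * ENNReal.ofReal (1 - ‖gm q k t‖ ^ 2) +
          ENNReal.ofReal K * ENNReal.ofReal (1 - ‖B β (gm q k t)‖)) := by
      intro t
      have hz := norm_gm_lt hq k t
      have h1 := one_sub_norm_F_le (x := (starRingEnd ℂ) ζ * gm q k t) (w := w (gm q k t))
        (by rw [hs]; exact hz) (hw1 _ hz) hη0 hη1
      rw [hs, hw _ hz] at h1
      have e1 : 0 ≤ 1 - ‖gm q k t‖ ^ 2 := by nlinarith [norm_nonneg (gm q k t)]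
      have e2 : 0 ≤ 1 - ‖B β (gm q k t)‖ := by
        have := h.norm_B_le hz
        linarith
      have e3 : 0 ≤ Real.log (2 / ‖G (circleMap 0 (rk k) t)‖) := by
        have h2 := hGne _ (norm_cm_lt k t)
        have h3 := hG2 _ (norm_cm_lt k t)
        exact Real.log_nonneg (by rw [le_div_iff₀ (norm_pos_iff.2 h2)]; linarith)
      rw [← ENNReal.ofReal_mul (by positivity), ← ENNReal.ofReal_mul hK0,
        ← ENNReal.ofReal_mul hK0, ← ENNReal.ofReal_add (by positivity) (by positivity),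
        ← ENNReal.ofReal_add (by positivity) (by positivity)]
      apply ENNReal.ofReal_le_ofReal
      refine h1.trans (le_of_eq ?_)
      have e4 : G (circleMap 0 (rk k) t) = 1 - (starRingEnd ℂ) ζ * gm q k t := rfl
      rw [e4]
      ring
    have hcm : Continuous fun t => circleMap 0 (rk k) t := continuous_circleMap 0 (rk k)
    have m1 : Measurable fun t => ENNReal.ofReal (1 / Real.log (2 / η)) *
          ENNReal.ofReal (Real.log (2 / ‖G (circleMap 0 (rk k) t)‖)) := by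
      have : Continuous fun t => G (circleMap 0 (rk k) t) :=
        hGd.continuousOn.comp_continuous hcm fun t => by
          rw [mem_ball_zero_iff]; exact norm_cm_lt k t
      refine Measurable.const_mul ?_ _
      exact ENNReal.measurable_ofReal.comp (Real.measurable_log.comp
        (measurable_const.div this.norm.measurable))
    have m2 : Measurable fun t => ENNReal.ofReal K * ENNReal.ofReal (1 - ‖gm q k t‖ ^ 2) := by
      refine Measurable.const_mul ?_ _
      exact ENNReal.measurable_ofReal.comp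
        (measurable_const.sub ((continuous_gm hq k).norm.measurable.pow_const 2))
    refine (lintegral_mono hpt).trans ?_
    rw [lintegral_add_left m1, lintegral_add_left m2, lintegral_const_mul' _ _ ENNReal.ofReal_ne_top,
      lintegral_const_mul' _ _ ENNReal.ofReal_ne_top, lintegral_const_mul' _ _ ENNReal.ofReal_ne_top]
    refine add_le_add ?_ le_rfl
    have h5 := lintegral_log hGd hG2 hGne (rk_pos k) (rk_lt k)
    refine (mul_le_mul_right h5 _).trans ?_
    rw [← ENNReal.ofReal_mul (by positivity)]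
    refine le_trans (le_of_eq ?_) hηε
    congr 1
    rw [hL]
    ring
  have hlim : Tendsto (fun k => ENNReal.ofReal K *
        ∫⁻ t, ENNReal.ofReal (1 - ‖gm q k t‖ ^ 2) ∂mu + ENNReal.ofReal K *
        ∫⁻ t, ENNReal.ofReal (1 - ‖B β (gm q k t)‖) ∂mu) atTop (𝓝 0) := by
    have e1 := ENNReal.Tendsto.const_mul (tendsto_gm hq)
      (Or.inr (ENNReal.ofReal_ne_top (r := K)))
    have e2 := ENNReal.Tendsto.const_mul (tendsto_B h hq)
      (Or.inr (ENNReal.ofReal_ne_top (r := K)))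
    have := e1.add e2
    simpa using this
  filter_upwards [(ENNReal.tendsto_nhds_zero.1 hlim) (ε / 2) hε2] with k hk
  refine (hmain k).trans ?_
  calc _ ≤ ε / 2 + ε / 2 := by gcongr
    _ = ε := ENNReal.add_halves ε

end Pool.Agent.TH222.QP
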