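import Mathlib
import Pool.Agent.TH222.QP4

/-! Power sums over the fibres are holomorphic. -/

set_option autoImplicit false

open Filter Topology Metric MeasureTheory Set

namespace Pool.Agent.TH222.QP

open Classical in
/-- Extension of a function on the surface by zero. -/
noncomputable def fe {β : ℕ → ℂ} (f : Cover β → ℂ) (z w : ℂ) : ℂ :=
  if h : ‖z‖ < 1 ∧ w ^ 2 = B β z then f ⟨z, w, h.1, h.2⟩ else 0

lemma fe_eq {β : ℕ → ℂ} (f : Cover β → ℂ) {z w : ℂ} (h : ‖z‖ < 1 ∧ w ^ 2 = B β z) :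
    fe f z w = f ⟨z, w, h.1, h.2⟩ := dif_pos h

/-- A measurable square root of `B`. -/
noncomputable def wv (β : ℕ → ℂ) (z : ℂ) : ℂ := B β z ^ (((2:ℕ):ℂ)⁻¹)

lemma wv_sq (β : ℕ → ℂ) (z : ℂ) : wv β z ^ 2 = B β z := Complex.cpow_nat_inv_pow _ two_ne_zero

lemma norm_wv_sq (β : ℕ → ℂ) (z : ℂ) : ‖wv β z‖ ^ 2 = ‖B β z‖ := by
  rw [← norm_pow, wv_sq]

/-- Power sums over the fibres. -/
noncomputable def Sn {β : ℕ → ℂ} (f : Cover β → ℂ) (n : ℕ) (z : ℂ) : ℂ :=
  fe f z (wv β z) ^ n + fe f z (-wv β z) ^ n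

lemma Sn_eq {β : ℕ → ℂ} (f : Cover β → ℂ) (n : ℕ) {z h : ℂ} (hh : h ^ 2 = B β z) :
    Sn f n z = fe f z h ^ n + fe f z (-h) ^ n := by
  have h1 : (h - wv β z) * (h + wv β z) = 0 := by
    have := wv_sq β z
    linear_combination hh - this
  rcases mul_eq_zero.1 h1 with h2 | h2
  · rw [sub_eq_zero.1 h2, Sn]
  · rw [eq_neg_of_add_eq_zero_left h2, Sn, neg_neg, add_comm]

lemma Hol.fe_eventually {β : ℕ → ℂ} {f : Cover β → ℂ} (hf : Hol β f) {z0 w0 : ℂ}
    (h0 : ‖z0‖ < 1 ∧ w0 ^ 2 = B β z0) :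
    ∃ g : ℂ × ℂ → ℂ, DifferentiableAt ℂ g (z0, w0) ∧ ∀ᶠ p in 𝓝 (z0, w0),
      p.2 ^ 2 = B β p.1 → fe f p.1 p.2 = g p := by
  obtain ⟨V, g, hV, hp, hg, he⟩ := hf ⟨z0, w0, h0.1, h0.2⟩
  refine ⟨g, hg.differentiableAt (hV.mem_nhds hp), ?_⟩
  have h1 : ∀ᶠ p : ℂ × ℂ in 𝓝 (z0, w0), ‖p.1‖ < 1 := by
    have : Continuous fun p : ℂ × ℂ => ‖p.1‖ := by fun_prop
    exact this.continuousAt.eventually_lt continuousAt_const h0.1
  filter_upwards [hV.mem_nhds hp, h1] with p hpV hp1 hp2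
  rw [fe_eq f ⟨hp1, hp2⟩, he ⟨p.1, p.2, hp1, hp2⟩ hpV]

lemma Sn_differentiableAt {β : ℕ → ℂ} (h : BSeq β) {f : Cover β → ℂ} (hf : Hol β f) (n : ℕ)
    {z0 : ℂ} (hz0 : ‖z0‖ < 1) (hB : B β z0 ≠ 0) : DifferentiableAt ℂ (Sn f n) z0 := by
  have hBd : DifferentiableAt ℂ (B β) z0 :=
    h.differentiableOn.differentiableAt (isOpen_ball.mem_nhds (mem_ball_zero_iff.2 hz0))
  set w0 := wv β z0 with hw0
  have hw0sq : w0 ^ 2 = B β z0 := wv_sq β z0
  -- local branch
  set hl : ℂ → ℂ := fun z => w0 * (B β z / B β z0) ^ (((2:ℕ):ℂ)⁻¹) with hhl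
  have hl0 : hl z0 = w0 := by rw [hhl]; simp [div_self hB]
  have hlsq : ∀ z, hl z ^ 2 = B β z := by
    intro z
    rw [hhl]
    simp only
    rw [mul_pow, Complex.cpow_nat_inv_pow _ two_ne_zero, hw0sq, mul_div_cancel₀ _ hB]
  have hld : DifferentiableAt ℂ hl z0 := by
    refine (differentiableAt_const _).mul ?_
    refine DifferentiableAt.cpow (hBd.div_const _) (differentiableAt_const _) ?_
    rw [div_self hB]
    exact Complex.one_mem_slitPlane
  have h0 : ‖z0‖ < 1 ∧ w0 ^ 2 = B β z0 := ⟨hz0, hw0sq⟩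
  have h0' : ‖z0‖ < 1 ∧ (-w0) ^ 2 = B β z0 := ⟨hz0, by rw [neg_sq]; exact hw0sq⟩
  obtain ⟨g, hg, he⟩ := hf.fe_eventually h0
  obtain ⟨g', hg', he'⟩ := hf.fe_eventually h0'
  have hc : ContinuousAt (fun z => (z, hl z)) z0 := continuousAt_id.prodMk hld.continuousAt
  have hc' : ContinuousAt (fun z => (z, -hl z)) z0 := continuousAt_id.prodMk hld.continuousAt.neg
  have e1 : ∀ᶠ z in 𝓝 z0, fe f z (hl z) = g (z, hl z) := by
    have : Tendsto (fun z => (z, hl z)) (𝓝 z0) (𝓝 (z0, w0)) := by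
      have := hc.tendsto
      rwa [hl0] at this
    filter_upwards [this.eventually he] with z hz using hz (hlsq z)
  have e2 : ∀ᶠ z in 𝓝 z0, fe f z (-hl z) = g' (z, -hl z) := by
    have : Tendsto (fun z => (z, -hl z)) (𝓝 z0) (𝓝 (z0, -w0)) := by
      have := hc'.tendsto
      rwa [hl0] at this
    filter_upwards [this.eventually he'] with z hz using hz (by rw [neg_sq]; exact hlsq z)
  have e3 : Sn f n =ᶠ[𝓝 z0] fun z => g (z, hl z) ^ n + g' (z, -hl z) ^ n := by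
    filter_upwards [e1, e2] with z h1 h2
    rw [Sn_eq f n (hlsq z), h1, h2]
  rw [e3.differentiableAt_iff]
  have d1 : DifferentiableAt ℂ (fun z => g (z, hl z)) z0 := by
    have : DifferentiableAt ℂ g ((fun z => (z, hl z)) z0) := by simp only [hl0]; exact hg
    exact this.comp z0 (differentiableAt_id.prodMk hld)
  have d2 : DifferentiableAt ℂ (fun z => g' (z, -hl z)) z0 := by
    have : DifferentiableAt ℂ g' ((fun z => (z, -hl z)) z0) := by simp only [hl0]; exact hg'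
    exact this.comp z0 (differentiableAt_id.prodMk hld.neg)
  exact (d1.pow n).add (d2.pow n)

lemma Sn_continuousAt {β : ℕ → ℂ} (h : BSeq β) {f : Cover β → ℂ} (hf : Hol β f) (n : ℕ)
    {z0 : ℂ} (hz0 : ‖z0‖ < 1) (hB : B β z0 = 0) : ContinuousAt (Sn f n) z0 := by
  have hBd : DifferentiableAt ℂ (B β) z0 :=
    h.differentiableOn.differentiableAt (isOpen_ball.mem_nhds (mem_ball_zero_iff.2 hz0))
  have hw0 : wv β z0 = 0 := by
    have := wv_sq β z0
    rw [hB] at this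
    exact pow_eq_zero_iff two_ne_zero |>.1 this
  have hwc : Tendsto (wv β) (𝓝 z0) (𝓝 0) := by
    rw [tendsto_zero_iff_norm_tendsto_zero]
    have h1 : Tendsto (fun z => Real.sqrt ‖B β z‖) (𝓝 z0) (𝓝 0) := by
      have := (Real.continuous_sqrt.tendsto _).comp (hBd.continuousAt.norm.tendsto)
      rw [hB, norm_zero, Real.sqrt_zero] at this
      exact this
    refine h1.congr fun z => ?_
    rw [← norm_wv_sq, Real.sqrt_sq (norm_nonneg _)]
  have h0 : ‖z0‖ < 1 ∧ (0:ℂ) ^ 2 = B β z0 := ⟨hz0, by rw [hB]; ring⟩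
  obtain ⟨g, hg, he⟩ := hf.fe_eventually h0
  have t1 : Tendsto (fun z => (z, wv β z)) (𝓝 z0) (𝓝 (z0, 0)) := tendsto_id.prodMk_nhds hwc
  have t2 : Tendsto (fun z => (z, -wv β z)) (𝓝 z0) (𝓝 (z0, 0)) := by
    have := hwc.neg
    rw [neg_zero] at this
    exact tendsto_id.prodMk_nhds this
  have e1 : ∀ᶠ z in 𝓝 z0, fe f z (wv β z) = g (z, wv β z) := by
    filter_upwards [t1.eventually he] with z hz using hz (wv_sq β z)
  have e2 : ∀ᶠ z in 𝓝 z0, fe f z (-wv β z) = g (z, -wv β z) := by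
    filter_upwards [t2.eventually he] with z hz using hz (by rw [neg_sq]; exact wv_sq β z)
  have e3 : Sn f n =ᶠ[𝓝 z0] fun z => g (z, wv β z) ^ n + g (z, -wv β z) ^ n := by
    filter_upwards [e1, e2] with z h1 h2
    rw [Sn, h1, h2]
  have e4 : Sn f n z0 = g (z0, 0) ^ n + g (z0, 0) ^ n := by
    rw [e3.self_of_nhds]
    simp only [hw0, neg_zero]
  rw [ContinuousAt, e4]
  refine Tendsto.congr' e3.symm ?_
  have c1 := (hg.continuousAt.tendsto.comp t1).pow n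
  have c2 := (hg.continuousAt.tendsto.comp t2).pow n
  exact c1.add c2

lemma Sn_differentiableOn {β : ℕ → ℂ} (h : BSeq β) {f : Cover β → ℂ} (hf : Hol β f) (n : ℕ) :
    DifferentiableOn ℂ (Sn f n) (ball 0 1) := by
  have hcont : ContinuousOn (Sn f n) (ball 0 1) := by
    intro z hz
    rw [mem_ball_zero_iff] at hz
    by_cases hB : B β z = 0
    · exact (Sn_continuousAt h hf n hz hB).continuousWithinAt
    · exact (Sn_differentiableAt h hf n hz hB).continuousAt.continuousWithinAt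
  intro z hz
  obtain ⟨r, hr0, hr⟩ := Metric.nhds_basis_closedBall.mem_iff.1 (isOpen_ball.mem_nhds hz)
  have hs : (range β).Countable := countable_range β
  have h1 := Complex.hasFPowerSeriesOnBall_of_differentiable_off_countable (R := ⟨r, hr0.le⟩)
    (c := z) (f := Sn f n) hs (hcont.mono hr) (fun x hx => ?_) hr0
  · exact h1.analyticAt.differentiableAt.differentiableWithinAt
  · have hx1 : ‖x‖ < 1 := mem_ball_zero_iff.1 (hr (ball_subset_closedBall hx.1))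
    refine Sn_differentiableAt h hf n hx1 (h.B_ne_zero hx1 fun k hk => hx.2 ⟨k, hk.symm⟩)

end Pool.Agent.TH222.QP
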