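import Mathlib
import Pool.Agent.TH222.QP5

/-! The quasi-proper map. -/

set_option autoImplicit false

open Filter Topology Metric MeasureTheory Set

namespace Pool.Agent.TH222.QP

lemma power_sum {a b : ℂ} (h : ∀ n : ℕ, ‖a ^ n + b ^ n‖ ≤ 2) : ‖a‖ ≤ 1 := by
  by_contra hcon
  rw [not_le] at hcon
  have ha : a ≠ 0 := by
    intro h0; rw [h0, norm_zero] at hcon; linarith
  have ha0 : 0 < ‖a‖ := norm_pos_iff.2 ha
  have t1 : Tendsto (fun n : ℕ => 1 + (b / a) ^ n) atTop (𝓝 0) := by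
    rw [tendsto_zero_iff_norm_tendsto_zero]
    have h1 : Tendsto (fun n : ℕ => 2 * (‖a‖⁻¹) ^ n) atTop (𝓝 0) := by
      have := (tendsto_pow_atTop_nhds_zero_of_lt_one (inv_nonneg.2 ha0.le)
        (inv_lt_one_of_one_lt₀ hcon)).const_mul 2
      simpa using this
    refine squeeze_zero (fun n => norm_nonneg _) (fun n => ?_) h1
    have e1 : 1 + (b / a) ^ n = (a ^ n + b ^ n) / a ^ n := by
      rw [div_pow, add_div, div_self (pow_ne_zero n ha)]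
    rw [e1, norm_div, norm_pow, inv_pow, ← div_eq_mul_inv]
    exact div_le_div_of_nonneg_right (h n) (by positivity)
  have t2 : Tendsto (fun n : ℕ => 1 + (b / a) ^ (2 * n)) atTop (𝓝 0) :=
    t1.comp (tendsto_id.const_mul_atTop' two_pos)
  have t3 : Tendsto (fun n : ℕ => (b / a) ^ n) atTop (𝓝 (-1)) := by
    have := t1.sub_const 1
    simpa using this
  have t4 : Tendsto (fun n : ℕ => 1 + (b / a) ^ (2 * n)) atTop (𝓝 (1 + (-1) ^ 2)) := by
    have := (t3.pow 2).const_add 1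
    refine this.congr fun n => ?_
    rw [← pow_mul, mul_comm]
  have := tendsto_nhds_unique t2 t4
  norm_num at this

lemma Hol.const_mul {β : ℕ → ℂ} {f : Cover β → ℂ} (hf : Hol β f) (c : ℂ) :
    Hol β fun p => c * f p := by
  intro p
  obtain ⟨V, g, hV, hp, hg, he⟩ := hf p
  exact ⟨V, fun x => c * g x, hV, hp, hg.const_mul c, fun x hx => by simp only [he x hx]⟩

/-- The map used below. -/
noncomputable def th (β : ℕ → ℂ) (ζ ξ : ℂ) (p : Cover β) : ℂ :=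
  bx ξ (F ((starRingEnd ℂ) ζ * p.phi) p.theta)

lemma norm_lt_of_sq {β : ℕ → ℂ} (h : BSeq β) {z w : ℂ} (hz : ‖z‖ < 1) (hw : w ^ 2 = B β z) :
    ‖w‖ < 1 := by
  have h1 := h.norm_B_lt hz
  rw [← hw, norm_pow] at h1
  nlinarith [norm_nonneg w]

lemma Cover.norm_theta_lt {β : ℕ → ℂ} (h : BSeq β) (p : Cover β) : ‖p.theta‖ < 1 :=
  norm_lt_of_sq h p.norm_phi_lt p.theta_sq

lemma norm_conj_mul {ζ : ℂ} (hζ : ‖ζ‖ = 1) (z : ℂ) : ‖(starRingEnd ℂ) ζ * z‖ = ‖z‖ := by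
  rw [norm_mul, RCLike.norm_conj, hζ, one_mul]

lemma norm_th_lt {β : ℕ → ℂ} (h : BSeq β) {ζ ξ : ℂ} (hζ : ‖ζ‖ = 1) (hξ : ‖ξ‖ < 1) (p : Cover β) :
    ‖th β ζ ξ p‖ < 1 :=
  norm_bx_lt hξ (norm_F_lt (by rw [norm_conj_mul hζ]; exact p.norm_phi_lt) (p.norm_theta_lt h))

lemma th_hol {β : ℕ → ℂ} (h : BSeq β) {ζ ξ : ℂ} (hζ : ‖ζ‖ = 1) (hξ : ‖ξ‖ < 1) :
    Hol β (th β ζ ξ) := by
  intro p
  refine ⟨{x : ℂ × ℂ | ‖x.1‖ < 1 ∧ ‖x.2‖ < 1},
    fun x => bx ξ (F ((starRingEnd ℂ) ζ * x.1) x.2), ?_, ⟨p.norm_phi_lt, p.norm_theta_lt h⟩, ?_,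
    fun x _ => rfl⟩
  · have c1 : Continuous fun x : ℂ × ℂ => ‖x.1‖ := by fun_prop
    have c2 : Continuous fun x : ℂ × ℂ => ‖x.2‖ := by fun_prop
    exact (isOpen_lt c1 continuous_const).inter (isOpen_lt c2 continuous_const)
  · intro x hx
    have hx1 : ‖(starRingEnd ℂ) ζ * x.1‖ < 1 := by rw [norm_conj_mul hζ]; exact hx.1
    have h1 := F_den_ne hx1 hx.2
    have h2 := den_ne hξ (norm_F_lt hx1 hx.2).le
    refine DifferentiableAt.differentiableWithinAt ?_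
    have hF : DifferentiableAt ℂ (fun x : ℂ × ℂ => F ((starRingEnd ℂ) ζ * x.1) x.2) x := by
      unfold F
      fun_prop (disch := exact h1)
    have hN : DifferentiableAt ℂ (fun x : ℂ × ℂ => F ((starRingEnd ℂ) ζ * x.1) x.2 - ξ) x :=
      hF.sub_const _
    have hD : DifferentiableAt ℂ (fun x : ℂ × ℂ => 1 - (starRingEnd ℂ) ξ *
        F ((starRingEnd ℂ) ζ * x.1) x.2) x := (hF.const_mul _).const_sub _
    have hb : (fun x : ℂ × ℂ => bx ξ (F ((starRingEnd ℂ) ζ * x.1) x.2)) =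
        fun x : ℂ × ℂ => (F ((starRingEnd ℂ) ζ * x.1) x.2 - ξ) *
          (1 - (starRingEnd ℂ) ξ * F ((starRingEnd ℂ) ζ * x.1) x.2)⁻¹ := by
      funext x
      rw [bx, div_eq_mul_inv]
    rw [hb]
    exact hN.fun_mul (hD.fun_inv h2)

/-- Logarithmic form of the bound for one point of the fibre. -/
lemma log_bound_aux {x y t1 t2 : ℂ} (n : ℕ) (h1 : t1 ≠ 0) (h2 : t2 ≠ 0) (hn1 : ‖t1‖ ≤ 1)
    (hn2 : ‖t2‖ ≤ 1) (hb1 : ‖t1 * x‖ ≤ 1) (hb2 : ‖t2 * y‖ ≤ 1) (hS : x ^ n + y ^ n ≠ 0) :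
    Real.log ‖x ^ n + y ^ n‖ - Real.log 2 ≤ n * (-Real.log ‖t1‖ + -Real.log ‖t2‖) := by
  have hp1 : 0 < ‖t1‖ := norm_pos_iff.2 h1
  have hp2 : 0 < ‖t2‖ := norm_pos_iff.2 h2
  rw [norm_mul] at hb1 hb2
  set m : ℝ := (‖t1‖ * ‖t2‖)⁻¹ with hm
  have hm0 : 0 < m := by positivity
  have hx : ‖x‖ ≤ m := by
    rw [hm, ← one_div, le_div_iff₀ (by positivity)]
    have : ‖x‖ * (‖t1‖ * ‖t2‖) = (‖t1‖ * ‖x‖) * ‖t2‖ := by ring
    rw [this]
    exact mul_le_one₀ hb1 (norm_nonneg _) hn2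
  have hy : ‖y‖ ≤ m := by
    rw [hm, ← one_div, le_div_iff₀ (by positivity)]
    have : ‖y‖ * (‖t1‖ * ‖t2‖) = (‖t2‖ * ‖y‖) * ‖t1‖ := by ring
    rw [this]
    exact mul_le_one₀ hb2 (norm_nonneg _) hn1
  have hsum : ‖x ^ n + y ^ n‖ ≤ 2 * m ^ n := by
    calc ‖x ^ n + y ^ n‖ ≤ ‖x ^ n‖ + ‖y ^ n‖ := norm_add_le _ _
      _ = ‖x‖ ^ n + ‖y‖ ^ n := by rw [norm_pow, norm_pow]
      _ ≤ m ^ n + m ^ n := by gcongr
      _ = 2 * m ^ n := by ring
  have h3 := Real.log_le_log (norm_pos_iff.2 hS) hsum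
  rw [Real.log_mul two_ne_zero (pow_pos hm0 n).ne', Real.log_pow, hm, Real.log_inv,
    Real.log_mul hp1.ne' hp2.ne'] at h3
  linarith

/-- The main estimate at one point. -/
lemma Sn_bound {β : ℕ → ℂ} (h : BSeq β) {ζ ξ : ℂ} (hζ : ‖ζ‖ = 1) (hξ : ‖ξ‖ < 1)
    {f : Cover β → ℂ} (hf : Hol β f) (hb : ∀ p, ‖th β ζ ξ p * f p‖ ≤ 1) {q : ℂ} (hq : ‖q‖ < 1)
    (hl : liminf (fun k => ∫⁻ t, (ell (bx ξ (F ((starRingEnd ℂ) ζ * gm q k t)
        (wv β (gm q k t)))) + ell (bx ξ (F ((starRingEnd ℂ) ζ * gm q k t)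
        (-wv β (gm q k t))))) ∂mu) atTop = 0) (n : ℕ) : ‖Sn f n q‖ ≤ 2 := by
  rcases Nat.eq_zero_or_pos n with hn | hn
  · subst hn
    rw [Sn, pow_zero, pow_zero]
    norm_num
  by_cases hS0 : Sn f n q = 0
  · rw [hS0, norm_zero]; norm_num
  have hn0 : (n : ENNReal) ≠ 0 := by exact_mod_cast hn.ne'
  have hnt : (n : ENNReal) ≠ ⊤ := ENNReal.natCast_ne_top n
  set S : ℂ → ℂ := fun z => Sn f n (mob q z) with hS
  have hSd : DifferentiableOn ℂ S (ball 0 1) :=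
    (Sn_differentiableOn h hf n).comp (differentiableOn_mob hq) (mapsTo_mob hq)
  have hS00 : S 0 = Sn f n q := by rw [hS]; simp only [mob_zero]
  have hS0' : S 0 ≠ 0 := by rw [hS00]; exact hS0
  set Ψ : ℕ → ℝ → ENNReal := fun k t => ell (bx ξ (F ((starRingEnd ℂ) ζ * gm q k t)
        (wv β (gm q k t)))) + ell (bx ξ (F ((starRingEnd ℂ) ζ * gm q k t)
        (-wv β (gm q k t)))) with hΨ
  have hpt : ∀ k t, ENNReal.ofReal (Real.log ‖S (circleMap 0 (rk k) t)‖ - Real.log 2) ≤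
      (n : ENNReal) * Ψ k t := by
    intro k t
    have hz := norm_gm_lt hq k t
    set z := gm q k t with hzdef
    have hSz : S (circleMap 0 (rk k) t) = Sn f n z := rfl
    rw [hSz]
    have hp : ‖z‖ < 1 ∧ (wv β z) ^ 2 = B β z := ⟨hz, wv_sq β z⟩
    have hp' : ‖z‖ < 1 ∧ (-wv β z) ^ 2 = B β z := ⟨hz, by rw [neg_sq]; exact wv_sq β z⟩
    set t1 : ℂ := bx ξ (F ((starRingEnd ℂ) ζ * z) (wv β z)) with ht1
    set t2 : ℂ := bx ξ (F ((starRingEnd ℂ) ζ * z) (-wv β z)) with ht2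
    have hΨkt : Ψ k t = ell t1 + ell t2 := rfl
    rw [hΨkt]
    by_cases h1 : t1 = 0
    · have : ell t1 = ⊤ := by rw [ell, if_pos h1]
      rw [this, top_add, ENNReal.mul_top hn0]
      exact le_top
    by_cases h2 : t2 = 0
    · have : ell t2 = ⊤ := by rw [ell, if_pos h2]
      rw [this, add_top, ENNReal.mul_top hn0]
      exact le_top
    have hb1 : ‖t1 * fe f z (wv β z)‖ ≤ 1 := by
      rw [fe_eq f hp]; exact hb ⟨z, wv β z, hp.1, hp.2⟩
    have hb2 : ‖t2 * fe f z (-wv β z)‖ ≤ 1 := by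
      rw [fe_eq f hp']; exact hb ⟨z, -wv β z, hp'.1, hp'.2⟩
    have hn1 : ‖t1‖ ≤ 1 := (norm_th_lt h hζ hξ ⟨z, wv β z, hp.1, hp.2⟩).le
    have hn2 : ‖t2‖ ≤ 1 := (norm_th_lt h hζ hξ ⟨z, -wv β z, hp'.1, hp'.2⟩).le
    have l1 := Real.log_nonpos (norm_nonneg _) hn1
    have l2 := Real.log_nonpos (norm_nonneg _) hn2
    rw [ell, if_neg h1, ell, if_neg h2, ← ENNReal.ofReal_add (by linarith) (by linarith),
      ← ENNReal.ofReal_natCast, ← ENNReal.ofReal_mul (Nat.cast_nonneg n)]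
    apply ENNReal.ofReal_le_ofReal
    by_cases hSn : Sn f n z = 0
    · rw [hSn, norm_zero, Real.log_zero]
      have h3 : 0 < Real.log 2 := Real.log_pos (by norm_num)
      have h4 : 0 ≤ (n:ℝ) * (-Real.log ‖t1‖ + -Real.log ‖t2‖) :=
        mul_nonneg (Nat.cast_nonneg n) (by linarith)
      linarith
    · exact log_bound_aux n h1 h2 hn1 hn2 hb1 hb2 hSn
  have hk : ∀ k, ENNReal.ofReal (2 * Real.pi * (Real.log ‖S 0‖ - Real.log 2)) / n ≤
      ∫⁻ t, Ψ k t ∂mu := by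
    intro k
    have h1 := jensen_bound hSd hS0' (rk_pos k) (rk_lt k) (Real.log 2)
      (fun t => (n : ENNReal) * Ψ k t) (hpt k)
    rw [lintegral_const_mul' _ _ hnt] at h1
    rw [ENNReal.div_le_iff hn0 hnt, mul_comm _ (n : ENNReal)]
    exact h1
  have hle : ENNReal.ofReal (2 * Real.pi * (Real.log ‖S 0‖ - Real.log 2)) / n ≤ 0 := by
    rw [← hl]
    exact le_liminf_of_le (by isBoundedDefault) (Eventually.of_forall hk)
  have h0 : ENNReal.ofReal (2 * Real.pi * (Real.log ‖S 0‖ - Real.log 2)) = 0 := by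
    rcases ENNReal.div_eq_zero_iff.1 (le_antisymm hle zero_le) with h1 | h1
    · exact h1
    · exact absurd h1 hnt
  rw [ENNReal.ofReal_eq_zero] at h0
  have h1 : Real.log ‖S 0‖ ≤ Real.log 2 := by
    have h2 := two_pi_pos
    nlinarith
  rw [hS00] at h1
  exact (Real.log_le_log_iff (norm_pos_iff.2 hS0) two_pos).1 h1

/-- Existence of the Frostman parameter. -/
lemma exists_xi {β : ℕ → ℂ} (h : BSeq β) {ζ : ℂ} (hζ : ‖ζ‖ = 1) :
    ∃ ξ : ℂ, ‖ξ‖ = 1 / 2 ∧ ∀ f : Cover β → ℂ, Hol β f → (∀ p, ‖th β ζ ξ p * f p‖ ≤ 1) →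
      ∀ p, ‖f p‖ ≤ 1 := by
  obtain ⟨Q, hQc, hQd⟩ := TopologicalSpace.exists_countable_dense ℂ
  set ι : Type := {q : ℂ // q ∈ Q ∧ ‖q‖ < 1} with hι
  have hcount : Countable ι := by
    have : Countable Q := hQc.to_subtype
    exact Function.Injective.countable (f := fun q : ι => (⟨q.1, q.2.1⟩ : Q)) fun a b hab => by
      apply Subtype.ext
      exact congrArg (fun x : Q => x.1) hab
  have hgs : ∀ (i : ι) (k : ℕ) (t : ℝ), ‖(starRingEnd ℂ) ζ * gm i.1 k t‖ < 1 := fun i k t => by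
    rw [norm_conj_mul hζ]; exact norm_gm_lt i.2.2 k t
  have hws : ∀ (i : ι) (k : ℕ) (t : ℝ), ‖wv β (gm i.1 k t)‖ < 1 := fun i k t =>
    norm_lt_of_sq h (norm_gm_lt i.2.2 k t) (wv_sq β _)
  have hmB : ∀ (i : ι) (k : ℕ), Measurable fun t => wv β (gm i.1 k t) := by
    intro i k
    unfold wv
    have : Continuous fun t => B β (gm i.1 k t) :=
      h.differentiableOn.continuousOn.comp_continuous (continuous_gm i.2.2 k) fun t => by
        rw [mem_ball_zero_iff]; exact norm_gm_lt i.2.2 k t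
    exact this.measurable.pow_const _
  have hms : ∀ (i : ι) (k : ℕ), Measurable fun t => (starRingEnd ℂ) ζ * gm i.1 k t := fun i k =>
    ((continuous_gm i.2.2 k).measurable).const_mul _
  have hmF : ∀ u v : ℝ → ℂ, Measurable u → Measurable v → Measurable fun t => F (u t) (v t) := by
    intro u v hu hv
    unfold F
    exact ((hu.add hv).sub ((hu.const_mul 2).mul hv)).div ((hu.const_sub 2).sub hv)
  obtain ⟨ξ, hξ, hlim⟩ := frostman (ι := ι)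
    (fun i k t => F ((starRingEnd ℂ) ζ * gm i.1 k t) (wv β (gm i.1 k t)))
    (fun i k t => F ((starRingEnd ℂ) ζ * gm i.1 k t) (-wv β (gm i.1 k t)))
    (fun i k => hmF _ _ (hms i k) (hmB i k))
    (fun i k => hmF _ _ (hms i k) (hmB i k).neg)
    (fun i k t => (norm_F_lt (hgs i k t) (hws i k t)).le)
    (fun i k t => (norm_F_lt (hgs i k t) (by rw [norm_neg]; exact hws i k t)).le)
    (fun i => tendsto_F h i.2.2 hζ (wv β) fun z _ => norm_wv_sq β z)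
    (fun i => tendsto_F h i.2.2 hζ (fun z => -wv β z) fun z _ => by
      rw [norm_neg]; exact norm_wv_sq β z)
    (ρ := 1 / 2) (by norm_num) (by norm_num)
  refine ⟨ξ, hξ, fun f hf hb p => ?_⟩
  have hξ1 : ‖ξ‖ < 1 := by rw [hξ]; norm_num
  have hn : ∀ n : ℕ, ∀ z, ‖z‖ < 1 → ‖Sn f n z‖ ≤ 2 := by
    intro n z hz
    have hcl : z ∈ closure (Q ∩ ball 0 1) := by
      have := hQd.open_subset_closure_inter (isOpen_ball (x := (0:ℂ)) (ε := 1))
        (mem_ball_zero_iff.2 hz)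
      rwa [inter_comm] at this
    have hc : ContinuousWithinAt (fun z => ‖Sn f n z‖) (Q ∩ ball 0 1) z := by
      have h1 : ContinuousAt (Sn f n) z :=
        (Sn_differentiableOn h hf n).continuousOn.continuousAt
          (isOpen_ball.mem_nhds (mem_ball_zero_iff.2 hz))
      exact h1.norm.continuousWithinAt
    have := hc.mem_closure hcl (t := Iic 2) fun q hq => ?_
    · rwa [isClosed_Iic.closure_eq] at this
    · have hq1 : ‖q‖ < 1 := mem_ball_zero_iff.1 hq.2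
      exact Sn_bound h hζ hξ1 hf hb hq1 (hlim ⟨q, hq.1, hq1⟩) n
  have hp2 : (-p.theta) ^ 2 = B β p.phi := by rw [neg_sq]; exact p.theta_sq
  have h1 : ∀ n : ℕ, ‖f p ^ n + f ⟨p.phi, -p.theta, p.norm_phi_lt, hp2⟩ ^ n‖ ≤ 2 := by
    intro n
    have h2 := hn n p.phi p.norm_phi_lt
    rw [Sn_eq f n p.theta_sq, fe_eq f ⟨p.norm_phi_lt, p.theta_sq⟩,
      fe_eq f ⟨p.norm_phi_lt, hp2⟩] at h2
    exact h2
  exact power_sum h1

lemma quasiProper_of {β : ℕ → ℂ} (h : BSeq β) {ζ ξ : ℂ} (hζ : ‖ζ‖ = 1) (hξ : ‖ξ‖ < 1)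
    (hmax : ∀ f : Cover β → ℂ, Hol β f → (∀ p, ‖th β ζ ξ p * f p‖ ≤ 1) → ∀ p, ‖f p‖ ≤ 1) :
    QuasiProper β (th β ζ ξ) := by
  refine ⟨th_hol h hζ hξ, norm_th_lt h hζ hξ, fun f hf => le_antisymm ?_ ?_⟩
  · refine iSup_le fun p => ?_
    set M : ENNReal := ⨆ p, ‖th β ζ ξ p * f p‖ₑ with hM
    by_cases hMt : M = ⊤
    · rw [hMt]; exact le_top
    refine ENNReal.le_of_forall_pos_le_add fun ε hε _ => ?_
    set m : ℝ := M.toReal + ε with hm
    have hm0 : 0 < m := by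
      have h1 : (0:ℝ) < ε := by exact_mod_cast hε
      have := ENNReal.toReal_nonneg (a := M)
      linarith
    have hmM : M + ε = ENNReal.ofReal m := by
      rw [hm, ENNReal.ofReal_add ENNReal.toReal_nonneg (by positivity), ENNReal.ofReal_toReal hMt,
        ENNReal.ofReal_coe_nnreal]
    have hmc : (m : ℂ) ≠ 0 := by exact_mod_cast hm0.ne'
    have h1 := hmax (fun p => (m : ℂ)⁻¹ * f p) (hf.const_mul _) (fun p => ?_) p
    · rw [norm_mul, norm_inv, Complex.norm_real, Real.norm_of_nonneg hm0.le,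
        inv_mul_le_iff₀ hm0, mul_one] at h1
      rw [hmM, ← ofReal_norm]
      exact ENNReal.ofReal_le_ofReal h1
    · have h2 : ‖th β ζ ξ p * f p‖ₑ ≤ M := le_iSup (fun p => ‖th β ζ ξ p * f p‖ₑ) p
      have h3 : ‖th β ζ ξ p * f p‖ₑ ≤ ENNReal.ofReal m := by
        rw [← hmM]; exact h2.trans le_self_add
      rw [← ofReal_norm, ENNReal.ofReal_le_ofReal_iff hm0.le] at h3
      rw [mul_left_comm, norm_mul, norm_inv, Complex.norm_real, Real.norm_of_nonneg hm0.le,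
        inv_mul_le_iff₀ hm0, mul_one]
      exact h3
  · refine iSup_mono fun p => ?_
    rw [enorm_mul]
    have h1 : ‖th β ζ ξ p‖ₑ ≤ 1 := by
      rw [← ofReal_norm, ENNReal.ofReal_le_one]
      exact (norm_th_lt h hζ hξ p).le
    calc ‖th β ζ ξ p‖ₑ * ‖f p‖ₑ ≤ 1 * ‖f p‖ₑ := by gcongr
      _ = ‖f p‖ₑ := one_mul _

end Pool.Agent.TH222.QP
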