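import Mathlib
import Pool.Agent.TH222.QP6

/-! Products of members of the class, and values at the branch points. -/

set_option autoImplicit false

open Filter Topology Metric MeasureTheory Set

namespace Pool.Agent.TH222.QP

lemma summable_norm_bf {ι : Type} {a : ι → ℂ} (ha : ∀ j, ‖a j‖ < 1)
    (hs : Summable fun j => 1 - ‖a j‖) {z : ℂ} (hz : ‖z‖ < 1) :
    Summable fun j => ‖bf (a j) z - 1‖ := by
  refine Summable.of_nonneg_of_le (fun k => norm_nonneg _) (fun k => ?_)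
    (hs.mul_left (2 / (1 - ‖z‖)))
  rw [norm_sub_rev]
  refine (norm_one_sub_bf (ha k) hz).trans (le_of_eq ?_)
  ring

lemma multipliable_bf {ι : Type} {a : ι → ℂ} (ha : ∀ j, ‖a j‖ < 1)
    (hs : Summable fun j => 1 - ‖a j‖) {z : ℂ} (hz : ‖z‖ < 1) :
    Multipliable fun j => bf (a j) z := by
  have := multipliable_one_add_of_summable (summable_norm_bf ha hs hz)
  refine this.congr fun k => ?_
  ring

lemma IsBlaschke.norm_le {b : ℂ → ℂ} (hb : IsBlaschke b) {z : ℂ} (hz : ‖z‖ < 1) : ‖b z‖ ≤ 1 := by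
  obtain ⟨ι, a, c, ha, hs, hc, h⟩ := hb
  rw [h z hz, norm_mul, hc, one_mul]
  have h1 := (multipliable_bf ha hs hz).hasProd
  refine le_of_tendsto (h1.norm) (Eventually.of_forall fun s => ?_)
  exact Finset.prod_le_one (fun i _ => norm_nonneg _) (fun i _ => norm_bf_le (ha i) hz.le)

lemma IsBlaschke.dichotomy {b : ℂ → ℂ} (hb : IsBlaschke b) :
    (∃ c : ℂ, ∀ z, ‖z‖ < 1 → b z = c) ∨ ‖b 0‖ < 1 := by
  obtain ⟨ι, a, c, ha, hs, hc, h⟩ := hb
  rcases isEmpty_or_nonempty ι with hι | ⟨⟨j0⟩⟩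
  · left
    refine ⟨c, fun z hz => ?_⟩
    rw [h z hz, tprod_empty, mul_one]
  · right
    have hz : ‖(0:ℂ)‖ < 1 := by simp
    rw [h 0 hz, norm_mul, hc, one_mul]
    have h1 := (multipliable_bf ha hs hz).hasProd
    refine lt_of_le_of_lt (le_of_tendsto (h1.norm) ?_) (norm_bf_lt (ha j0) hz)
    filter_upwards [eventually_ge_atTop ({j0} : Finset ι)] with s hsj
    have hmem : j0 ∈ s := hsj (Finset.mem_singleton_self j0)
    rw [← Finset.mul_prod_erase s _ hmem]
    have h2 : ∏ j ∈ s.erase j0, ‖bf (a j) 0‖ ≤ 1 :=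
      Finset.prod_le_one (fun i _ => norm_nonneg _) (fun i _ => norm_bf_le (ha i) hz.le)
    nlinarith [norm_nonneg (bf (a j0) 0)]

/-- The sheet interchange. -/
noncomputable def sig {β : ℕ → ℂ} (p : Cover β) : Cover β :=
  ⟨p.phi, -p.theta, p.norm_phi_lt, by rw [neg_sq]; exact p.theta_sq⟩

/-- The branch points. -/
noncomputable def bp {β : ℕ → ℂ} (h : BSeq β) (k : ℕ) : Cover β :=
  ⟨β k, 0, h.lt_one k, by rw [h.B_zero k]; ring⟩

lemma Member.norm_le {β : ℕ → ℂ} (h : BSeq β) {g : Cover β → ℂ} (hg : Member β g) (p : Cover β) :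
    ‖g p‖ ≤ 1 := by
  rcases hg with ⟨b, hb, he⟩ | he | ⟨b, u, hb, _, hu, he⟩
  · rw [he]; exact hb.norm_le p.norm_phi_lt
  · rw [he]; exact (p.norm_theta_lt h).le
  · rw [he]
    refine hb.norm_le ?_
    rw [norm_mul]
    have h1 := hu _ p.norm_phi_lt
    have h2 := p.norm_theta_lt h
    nlinarith [norm_nonneg (u p.phi), norm_nonneg p.theta]

lemma Member.alt {β : ℕ → ℂ} (h : BSeq β) {g : Cover β → ℂ} (hg : Member β g) :
    (∀ p, g (sig p) = g p) ∨ ∃ r : ℝ, r < 1 ∧ ∀ k, ‖g (bp h k)‖ ≤ r := by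
  rcases hg with ⟨b, hb, he⟩ | he | ⟨b, u, hb, _, hu, he⟩
  · left; intro p; rw [he, he]; rfl
  · right
    refine ⟨0, one_pos, fun k => ?_⟩
    rw [he]; simp [bp]
  · rcases hb.dichotomy with ⟨c, hc⟩ | hlt
    · left
      intro p
      have hlt1 : ∀ p : Cover β, ‖u p.phi * p.theta‖ < 1 := by
        intro p
        rw [norm_mul]
        have h1 := hu _ p.norm_phi_lt
        have h2 := p.norm_theta_lt h
        nlinarith [norm_nonneg (u p.phi), norm_nonneg p.theta]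
      rw [he, he, hc _ (hlt1 _), hc _ (hlt1 _)]
    · right
      refine ⟨‖b 0‖, hlt, fun k => ?_⟩
      rw [he]; simp [bp]

lemma list_norm_le {β : ℕ → ℂ} (h : BSeq β) (l : List (Cover β → ℂ)) (hl : ∀ g ∈ l, Member β g)
    (p : Cover β) : ‖l.prod p‖ ≤ 1 := by
  induction l with
  | nil => simp
  | cons g l ih =>
    rw [List.prod_cons, Pi.mul_apply, norm_mul]
    have h1 := (hl g (by simp)).norm_le h p
    have h2 := ih fun g' hg' => hl g' (by simp [hg'])
    nlinarith [norm_nonneg (g p), norm_nonneg (l.prod p)]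

lemma list_alt {β : ℕ → ℂ} (h : BSeq β) (l : List (Cover β → ℂ)) (hl : ∀ g ∈ l, Member β g) :
    (∀ p, l.prod (sig p) = l.prod p) ∨ ∃ r : ℝ, r < 1 ∧ ∀ k, ‖l.prod (bp h k)‖ ≤ r := by
  induction l with
  | nil => left; intro p; simp
  | cons g l ih =>
    have hg := hl g (by simp)
    have hl' : ∀ g' ∈ l, Member β g' := fun g' hg' => hl g' (by simp [hg'])
    rcases hg.alt h with h1 | ⟨r, hr, h1⟩
    · rcases ih hl' with h2 | ⟨r, hr, h2⟩
      · left; intro p
        rw [List.prod_cons, Pi.mul_apply, Pi.mul_apply, h1, h2]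
      · right
        refine ⟨r, hr, fun k => ?_⟩
        rw [List.prod_cons, Pi.mul_apply, norm_mul]
        have := hg.norm_le h (bp h k)
        have := h2 k
        nlinarith [norm_nonneg (g (bp h k)), norm_nonneg (l.prod (bp h k))]
    · right
      refine ⟨r, hr, fun k => ?_⟩
      rw [List.prod_cons, Pi.mul_apply, norm_mul]
      have := list_norm_le h l hl' (bp h k)
      have := h1 k
      nlinarith [norm_nonneg (g (bp h k)), norm_nonneg (l.prod (bp h k))]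

lemma product_alt {β : ℕ → ℂ} (h : BSeq β) {θ : Cover β → ℂ} (hp : IsProduct β θ) :
    (∀ p, θ (sig p) = θ p) ∨ ∃ r : ℝ, r < 1 ∧ ∀ k, ‖θ (bp h k)‖ ≤ r := by
  rcases hp with ⟨l, hl, rfl⟩ | ⟨g, c, hg, hc, hlim⟩
  · exact list_alt h l hl
  · by_cases hall : ∀ n p, g n (sig p) = g n p
    · left
      intro p
      refine tendsto_nhds_unique (hlim (sig p)) ((hlim p).congr fun n => ?_)
      congr 1
      exact Finset.prod_congr rfl fun k _ => (hall k p).symm
    · right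
      push Not at hall
      obtain ⟨n0, p0, hn0⟩ := hall
      rcases (hg n0).alt h with h1 | ⟨r, hr, h1⟩
      · exact absurd (h1 p0) hn0
      · refine ⟨r, hr, fun k => ?_⟩
        refine le_of_tendsto (hlim (bp h k)).norm ?_
        filter_upwards [eventually_gt_atTop n0] with n hn
        rw [norm_mul, hc, one_mul, norm_prod, ← Finset.mul_prod_erase (Finset.range n)
          (fun j => ‖g j (bp h k)‖) (Finset.mem_range.2 hn)]
        have h2 : ∏ j ∈ (Finset.range n).erase n0, ‖g j (bp h k)‖ ≤ 1 :=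
          Finset.prod_le_one (fun i _ => norm_nonneg _) (fun i _ => (hg i).norm_le h _)
        have h3 := h1 k
        have h4 : 0 ≤ ∏ j ∈ (Finset.range n).erase n0, ‖g j (bp h k)‖ :=
          Finset.prod_nonneg fun i _ => norm_nonneg _
        nlinarith [norm_nonneg (g n0 (bp h k))]

lemma bx_inj {ξ c c' : ℂ} (hξ : ‖ξ‖ < 1) (hc : ‖c‖ ≤ 1) (hc' : ‖c'‖ ≤ 1)
    (h : bx ξ c = bx ξ c') : c = c' := by
  rw [bx, bx, div_eq_div_iff (den_ne hξ hc) (den_ne hξ hc')] at h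
  have h1 : (c - c') * (1 - (starRingEnd ℂ) ξ * ξ) = 0 := by linear_combination h
  rcases mul_eq_zero.1 h1 with h2 | h2
  · exact sub_eq_zero.1 h2
  · exact absurd h2 (den_ne hξ hξ.le)

lemma F_inj {x w w' : ℂ} (hx : ‖x‖ < 1) (hw : ‖w‖ < 1) (hw' : ‖w'‖ < 1) (h : F x w = F x w') :
    w = w' := by
  rw [F, F, div_eq_div_iff (F_den_ne hx hw) (F_den_ne hx hw')] at h
  have h1 : (w - w') * (1 - x) ^ 2 = 0 := by linear_combination h / 2
  rcases mul_eq_zero.1 h1 with h2 | h2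
  · exact sub_eq_zero.1 h2
  · exact absurd (pow_eq_zero_iff two_ne_zero |>.1 h2) (one_sub_ne hx)

lemma th_not_inv {β : ℕ → ℂ} (h : BSeq β) {ζ ξ : ℂ} (hζ : ‖ζ‖ = 1) (hξ : ‖ξ‖ < 1) :
    ¬ ∀ p : Cover β, th β ζ ξ (sig p) = th β ζ ξ p := by
  intro hall
  have hd : Dense (range β)ᶜ := (countable_range β).dense_compl ℂ
  obtain ⟨z, hz, hzβ⟩ := hd.exists_mem_open (isOpen_ball (x := (0:ℂ)) (ε := 1))
    ⟨0, by simp⟩
  have hz1 : ‖z‖ < 1 := mem_ball_zero_iff.1 hzβ
  have hB : B β z ≠ 0 := h.B_ne_zero hz1 fun k hk => hz ⟨k, hk.symm⟩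
  have hw0 : wv β z ≠ 0 := by
    intro h0
    apply hB
    rw [← wv_sq, h0]
    ring
  have hwn : ‖wv β z‖ < 1 := norm_lt_of_sq h hz1 (wv_sq β z)
  have hwn' : ‖-wv β z‖ < 1 := by rw [norm_neg]; exact hwn
  have hs : ‖(starRingEnd ℂ) ζ * z‖ < 1 := by rw [norm_conj_mul hζ]; exact hz1
  have h1 : bx ξ (F ((starRingEnd ℂ) ζ * z) (-wv β z)) = bx ξ (F ((starRingEnd ℂ) ζ * z) (wv β z)) :=
    hall ⟨z, wv β z, hz1, wv_sq β z⟩
  have h2 := bx_inj hξ (norm_F_lt hs hwn').le (norm_F_lt hs hwn).le h1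
  have h3 := F_inj hs hwn' hwn h2
  apply hw0
  linear_combination (-1/2 : ℂ) * h3

/-- Along a subsequence the values at the branch points tend to modulus one. -/
lemma th_bp {β : ℕ → ℂ} (h : BSeq β) {ζ ξ : ℂ} (hζ : ‖ζ‖ = 1) (hξ : ‖ξ‖ < 1) {φ : ℕ → ℕ}
    (hφ : Tendsto (fun j => β (φ j)) atTop (𝓝 ζ)) :
    Tendsto (fun j => ‖th β ζ ξ (bp h (φ j))‖) atTop (𝓝 1) := by
  have h1 : Tendsto (fun j => (starRingEnd ℂ) ζ * β (φ j)) atTop (𝓝 1) := by
    have := hφ.const_mul ((starRingEnd ℂ) ζ)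
    have e : (starRingEnd ℂ) ζ * ζ = 1 := by
      rw [mul_comm, Complex.mul_conj, Complex.normSq_eq_norm_sq, hζ]; norm_num
    rwa [e] at this
  have hFc : ContinuousAt (fun x : ℂ => ‖bx ξ (F x 0)‖) 1 := by
    have hF : ContinuousAt (fun x : ℂ => F x 0) 1 := by
      unfold F
      refine ContinuousAt.div (by fun_prop) (by fun_prop) (by norm_num)
    have hF1 : F 1 0 = 1 := by unfold F; norm_num
    refine ContinuousAt.norm ?_
    unfold bx
    refine ContinuousAt.div (hF.sub continuousAt_const)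
      (continuousAt_const.sub (continuousAt_const.mul hF)) ?_
    rw [hF1]
    exact den_ne hξ (by simp)
  have h2 := hFc.tendsto.comp h1
  have hF1 : F 1 0 = 1 := by unfold F; norm_num
  have h3 : ‖bx ξ (F 1 0)‖ = 1 := by
    rw [hF1, bx, mul_one, norm_div]
    have e : ‖1 - (starRingEnd ℂ) ξ‖ = ‖1 - ξ‖ := by
      have : 1 - (starRingEnd ℂ) ξ = (starRingEnd ℂ) (1 - ξ) := by simp
      rw [this, RCLike.norm_conj]
    rw [e, div_self]
    exact norm_ne_zero_iff.2 (one_sub_ne hξ)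
  rw [h3] at h2
  exact h2

theorem main {β : ℕ → ℂ} (h : BSeq β) : ∃ θ : Cover β → ℂ, QuasiProper β θ ∧ ¬ IsProduct β θ := by
  -- accumulation point
  have hcomp : IsCompact (closedBall (0:ℂ) 1) := isCompact_closedBall 0 1
  obtain ⟨ζ, _, φ, hφm, hφ⟩ := hcomp.tendsto_subseq (x := β) fun k => by
    rw [mem_closedBall_zero_iff]; exact (h.lt_one k).le
  have hζ : ‖ζ‖ = 1 := by
    have h1 : Tendsto (fun k => 1 - ‖β k‖) atTop (𝓝 0) := h.summable.tendsto_atTop_zero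
    have h2 : Tendsto (fun j => ‖β (φ j)‖) atTop (𝓝 1) := by
      have := (h1.comp hφm.tendsto_atTop).const_sub 1
      simpa using this
    exact tendsto_nhds_unique hφ.norm h2
  obtain ⟨ξ, hξ, hmax⟩ := exists_xi h hζ
  have hξ1 : ‖ξ‖ < 1 := by rw [hξ]; norm_num
  refine ⟨th β ζ ξ, quasiProper_of h hζ hξ1 hmax, fun hp => ?_⟩
  rcases product_alt h hp with h1 | ⟨r, hr, h1⟩
  · exact th_not_inv h hζ hξ1 h1
  · have h2 := th_bp h hζ hξ1 hφ
    have h3 : (1:ℝ) ≤ r := le_of_tendsto h2 (Eventually.of_forall fun j => h1 _)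
    linarith

end Pool.Agent.TH222.QP
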