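import Mathlib
import Pool.Agent.TH222.SM13

/-! Transfer from polynomials to finite Blaschke products. -/

set_option autoImplicit false

open Filter Topology

namespace Pool.Agent.TH222.SM

/-- The finite Blaschke product with a simple zero at the origin. -/
noncomputable def BB {m : ℕ} (τ : Fin m → ℂ) (z : ℂ) : ℂ :=
  z * ∏ k, (z - τ k) / (1 - starRingEnd ℂ (τ k) * z)

lemma BB_deriv_zero {m : ℕ} (τ : Fin m → ℂ) : ‖deriv (BB τ) 0‖ = ∏ k, ‖τ k‖ := by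
  have hG : DifferentiableAt ℂ (fun z : ℂ => ∏ k, (z - τ k) / (1 - starRingEnd ℂ (τ k) * z)) 0 := by
    refine DifferentiableAt.fun_finsetProd fun k _ => ?_
    refine DifferentiableAt.div (by fun_prop) (by fun_prop) ?_
    simp
  have h := (hasDerivAt_id (0:ℂ)).mul hG.hasDerivAt
  have e : deriv (BB τ) 0 = ∏ k, (-(τ k)) := by
    have h2 := h.deriv
    simp only [id, one_mul, zero_mul, add_zero, zero_sub, mul_zero, sub_zero, div_one] at h2
    rw [← h2]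
    rfl
  rw [e, norm_prod]
  simp

/-- Numerator. -/
noncomputable def NN {m : ℕ} (a : Fin m → ℂ) (z : ℂ) : ℂ := z * ∏ k, (z - a k)
/-- Denominator after rescaling. -/
noncomputable def DD {m : ℕ} (a : Fin m → ℂ) (e : ℝ) (z : ℂ) : ℂ :=
  ∏ k, (1 - (e:ℂ) ^ 2 * starRingEnd ℂ (a k) * z)
/-- Derivative of the denominator. -/
noncomputable def DD' {m : ℕ} (a : Fin m → ℂ) (e : ℝ) (z : ℂ) : ℂ :=
  ∑ i, (∏ j ∈ Finset.univ.erase i, (1 - (e:ℂ) ^ 2 * starRingEnd ℂ (a j) * z)) *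
    (-((e:ℂ) ^ 2 * starRingEnd ℂ (a i)))

lemma hasDerivAt_DD {m : ℕ} (a : Fin m → ℂ) (e : ℝ) (z : ℂ) :
    HasDerivAt (DD a e) (DD' a e z) z := by
  unfold DD DD'
  have := HasDerivAt.fun_finsetProd (𝕜 := ℂ) (u := Finset.univ) (x := z)
    (f := fun k z => 1 - (e:ℂ) ^ 2 * starRingEnd ℂ (a k) * z)
    (f' := fun k => -((e:ℂ) ^ 2 * starRingEnd ℂ (a k))) (fun i _ => by
      have h := ((hasDerivAt_id z).const_mul ((e:ℂ) ^ 2 * starRingEnd ℂ (a i))).const_sub 1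
      simpa using h)
  simpa [smul_eq_mul] using this

lemma BB_scale {m : ℕ} (a : Fin m → ℂ) (e : ℝ) (z : ℂ) :
    BB (fun k => (e:ℂ) * a k) ((e:ℂ) * z) = (e:ℂ) ^ (m + 1) * (NN a z / DD a e z) := by
  rw [BB, NN, DD, Finset.prod_div_distrib]
  have h1 : ∏ k, ((e:ℂ) * z - (e:ℂ) * a k) = (e:ℂ) ^ m * ∏ k, (z - a k) := by
    rw [← Fin.prod_const m (e:ℂ), ← Finset.prod_mul_distrib]
    exact Finset.prod_congr rfl fun k _ => by ring
  have h2 : ∏ k, (1 - starRingEnd ℂ ((e:ℂ) * a k) * ((e:ℂ) * z)) =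
      ∏ k, (1 - (e:ℂ) ^ 2 * starRingEnd ℂ (a k) * z) := by
    refine Finset.prod_congr rfl fun k _ => ?_
    rw [map_mul, Complex.conj_ofReal]
    ring
  rw [h1, h2]
  ring

lemma NN_diff {m : ℕ} (a : Fin m → ℂ) : Differentiable ℂ (NN a) := by
  unfold NN
  refine Differentiable.mul differentiable_id ?_
  intro z
  exact DifferentiableAt.fun_finsetProd fun k _ => by fun_prop

/-- The critical point equation after rescaling. -/
lemma crit_scale {m : ℕ} (a : Fin m → ℂ) {e : ℝ} (he : e ≠ 0) {z : ℂ} (hD : DD a e z ≠ 0)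
    (h : deriv (BB (fun k => (e:ℂ) * a k)) ((e:ℂ) * z) = 0) :
    deriv (NN a) z * DD a e z - NN a z * DD' a e z = 0 := by
  have h1 := deriv_comp_mul_left (e:ℂ) (BB (fun k => (e:ℂ) * a k)) z
  rw [h, smul_zero] at h1
  have h2 : (fun x => BB (fun k => (e:ℂ) * a k) ((e:ℂ) * x)) =
      fun x => (e:ℂ) ^ (m + 1) * (NN a x / DD a e x) := by
    funext x; exact BB_scale a e x
  rw [h2] at h1
  have h3 : HasDerivAt (fun x => (e:ℂ) ^ (m + 1) * (NN a x / DD a e x))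
      ((e:ℂ) ^ (m + 1) * ((deriv (NN a) z * DD a e z - NN a z * DD' a e z) / DD a e z ^ 2)) z :=
    (((NN_diff a z).hasDerivAt).div (hasDerivAt_DD a e z) hD).const_mul _
  rw [h3.deriv] at h1
  have he' : (e:ℂ) ^ (m + 1) ≠ 0 := pow_ne_zero _ (by exact_mod_cast he)
  rcases mul_eq_zero.1 h1 with h4 | h4
  · exact absurd h4 he'
  · rcases div_eq_zero_iff.1 h4 with h5 | h5
    · exact h5
    · exact absurd h5 (pow_ne_zero 2 hD)

theorem transfer {m : ℕ} (hm : 1 ≤ m) (a : Fin m → ℂ) (ha : ∀ k, a k ≠ 0)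
    (hbad : ∀ z, deriv (NN a) z = 0 → ‖z‖ * ∏ k, ‖a k‖ < ‖NN a z‖)
    (H : ∀ τ : Fin m → ℂ, (∀ k, τ k ≠ 0 ∧ ‖τ k‖ < 1) →
      ∃ ζ : ℂ, ‖ζ‖ < 1 ∧ deriv (BB τ) ζ = 0 ∧ ‖BB τ ζ‖ ≤ ‖deriv (BB τ) 0‖ * ‖ζ‖) : False := by
  classical
  -- radius
  set R : ℝ := 1 + ∑ k, ‖a k‖ with hR
  have hR1 : 1 ≤ R := by
    have : 0 ≤ ∑ k, ‖a k‖ := Finset.sum_nonneg fun k _ => norm_nonneg _
    linarith
  have haR : ∀ k, ‖a k‖ ≤ R := by
    intro k
    have := Finset.single_le_sum (f := fun k => ‖a k‖) (fun k _ => norm_nonneg _)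
      (Finset.mem_univ k)
    linarith
  have key : ∀ e : ℝ, 0 < e → e * R ≤ 1 / 2 → ∃ z : ℂ, ‖z‖ ≤ 3 * R ∧
      deriv (NN a) z * DD a e z - NN a z * DD' a e z = 0 ∧
      ‖NN a z‖ ≤ (∏ k, ‖a k‖) * ‖z‖ * ‖DD a e z‖ := by
    intro e he heR
    have hec : (e:ℂ) ≠ 0 := by exact_mod_cast he.ne'
    have hτ : ∀ k, (e:ℂ) * a k ≠ 0 ∧ ‖(e:ℂ) * a k‖ ≤ 1 / 2 := by
      intro k
      refine ⟨mul_ne_zero hec (ha k), ?_⟩
      rw [norm_mul, Complex.norm_real, Real.norm_of_nonneg he.le]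
      exact (mul_le_mul_of_nonneg_left (haR k) he.le).trans heR
    obtain ⟨ζ, h1, h2, h3⟩ := H (fun k => (e:ℂ) * a k) fun k => ⟨(hτ k).1, by
      have := (hτ k).2
      show ‖(e:ℂ) * a k‖ < 1
      linarith⟩
    set z : ℂ := ζ / e with hz
    have hζ : ζ = (e:ℂ) * z := by rw [hz]; field_simp
    have hfac : ∀ k, (1 - (e:ℂ) ^ 2 * starRingEnd ℂ (a k) * z) =
        1 - starRingEnd ℂ ((e:ℂ) * a k) * ζ := by
      intro k
      rw [hζ, map_mul, Complex.conj_ofReal]; ring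
    have hfne : ∀ k, (1 - (e:ℂ) ^ 2 * starRingEnd ℂ (a k) * z) ≠ 0 := by
      intro k h0
      rw [hfac k, sub_eq_zero] at h0
      have h4 : ‖starRingEnd ℂ ((e:ℂ) * a k) * ζ‖ < 1 := by
        rw [norm_mul, Complex.norm_conj]
        have := (hτ k).2
        nlinarith [norm_nonneg ζ, norm_nonneg ((e:ℂ) * a k)]
      rw [← h0, norm_one] at h4
      exact lt_irrefl _ h4
    have hD : DD a e z ≠ 0 := Finset.prod_ne_zero_iff.2 fun k _ => hfne k
    rw [hζ] at h2 h3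
    have hc := crit_scale a he.ne' hD h2
    rw [BB_deriv_zero, BB_scale, norm_mul, norm_pow, norm_div, norm_mul, Complex.norm_real,
      Real.norm_of_nonneg he.le] at h3
    have h5 : ∏ k, ‖(e:ℂ) * a k‖ = e ^ m * ∏ k, ‖a k‖ := by
      rw [← Fin.prod_const m e, ← Finset.prod_mul_distrib]
      refine Finset.prod_congr rfl fun k _ => ?_
      rw [norm_mul, Complex.norm_real, Real.norm_of_nonneg he.le]
    rw [h5] at h3
    have hDn : 0 < ‖DD a e z‖ := norm_pos_iff.2 hD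
    have h6 : ‖NN a z‖ ≤ (∏ k, ‖a k‖) * ‖z‖ * ‖DD a e z‖ := by
      have h7 : e ^ (m + 1) * (‖NN a z‖ / ‖DD a e z‖) ≤ e ^ (m + 1) * ((∏ k, ‖a k‖) * ‖z‖) := by
        calc e ^ (m + 1) * (‖NN a z‖ / ‖DD a e z‖) ≤ e ^ m * (∏ k, ‖a k‖) * (e * ‖z‖) := h3
          _ = e ^ (m + 1) * ((∏ k, ‖a k‖) * ‖z‖) := by ring
      have h8 := le_of_mul_le_mul_left h7 (by positivity)
      rwa [div_le_iff₀ hDn] at h8
    refine ⟨z, ?_, hc, h6⟩
    by_contra hcon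
    rw [not_le] at hcon
    have hzpos : 0 < ‖z‖ := by linarith
    have hlt : ∏ k, (‖a k‖ * ‖1 - (e:ℂ) ^ 2 * starRingEnd ℂ (a k) * z‖) < ∏ k, ‖z - a k‖ := by
      refine Finset.prod_lt_prod_of_nonempty (fun k _ => ?_) (fun k _ => ?_) ?_
      · exact mul_pos (norm_pos_iff.2 (ha k)) (norm_pos_iff.2 (hfne k))
      · have g1 : ‖1 - (e:ℂ) ^ 2 * starRingEnd ℂ (a k) * z‖ ≤ 1 + e ^ 2 * ‖a k‖ * ‖z‖ := by
          refine (norm_sub_le _ _).trans (le_of_eq ?_)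
          rw [norm_one, norm_mul, norm_mul, norm_pow, Complex.norm_real,
            Real.norm_of_nonneg he.le, Complex.norm_conj]
        have g2 : ‖z‖ - ‖a k‖ ≤ ‖z - a k‖ := norm_sub_norm_le z (a k)
        have g3 : e * ‖a k‖ ≤ 1 / 2 := (mul_le_mul_of_nonneg_left (haR k) he.le).trans heR
        have g4 : (e * ‖a k‖) ^ 2 ≤ 1 / 4 := by
          have : 0 ≤ e * ‖a k‖ := by positivity
          nlinarith
        have g5 : ‖a k‖ * ‖1 - (e:ℂ) ^ 2 * starRingEnd ℂ (a k) * z‖ ≤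
            ‖a k‖ * (1 + e ^ 2 * ‖a k‖ * ‖z‖) := mul_le_mul_of_nonneg_left g1 (norm_nonneg _)
        have g6 : ‖a k‖ * (1 + e ^ 2 * ‖a k‖ * ‖z‖) = ‖a k‖ + (e * ‖a k‖) ^ 2 * ‖z‖ := by ring
        have g7 : (e * ‖a k‖) ^ 2 * ‖z‖ ≤ 1 / 4 * ‖z‖ :=
          mul_le_mul_of_nonneg_right g4 hzpos.le
        have g8 := haR k
        linarith
      · exact ⟨⟨0, by omega⟩, Finset.mem_univ _⟩
    rw [Finset.prod_mul_distrib] at hlt
    rw [NN, norm_mul, norm_prod, DD, norm_prod] at h6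
    have h9 : ‖z‖ * ∏ k, ‖z - a k‖ ≤ ‖z‖ * ((∏ k, ‖a k‖) *
        ∏ k, ‖1 - (e:ℂ) ^ 2 * starRingEnd ℂ (a k) * z‖) := by
      calc ‖z‖ * ∏ k, ‖z - a k‖ ≤ (∏ k, ‖a k‖) * ‖z‖ *
          ∏ k, ‖1 - (e:ℂ) ^ 2 * starRingEnd ℂ (a k) * z‖ := h6
        _ = _ := by ring
    have h10 := le_of_mul_le_mul_left h9 hzpos
    linarith
  -- a sequence of scales
  have hpos : ∀ j : ℕ, 0 < 1 / (2 * R * (j + 1 : ℝ)) := fun j => by positivity
  have hle : ∀ j : ℕ, 1 / (2 * R * (j + 1 : ℝ)) * R ≤ 1 / 2 := by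
    intro j
    have hj : (0:ℝ) ≤ j := Nat.cast_nonneg j
    rw [div_mul_eq_mul_div, one_mul, div_le_div_iff₀ (by positivity) (by norm_num)]
    nlinarith
  choose z hz1 hz2 hz3 using fun j : ℕ => key _ (hpos j) (hle j)
  obtain ⟨z0, -, φ, hφ, hlim⟩ := (isCompact_closedBall (0:ℂ) (3 * R)).tendsto_subseq
    (x := z) fun j => by simpa using hz1 j
  have hscale : Tendsto (fun j : ℕ => 1 / (2 * R * ((φ j : ℕ) + 1 : ℝ))) atTop (𝓝 0) := by
    have h1 : Tendsto (fun j : ℕ => 1 / (2 * R * (j + 1 : ℝ))) atTop (𝓝 0) := by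
      have h2 := (tendsto_one_div_add_atTop_nhds_zero_nat (𝕜 := ℝ)).const_mul (1 / (2 * R))
      rw [mul_zero] at h2
      refine h2.congr fun j => ?_
      field_simp
    exact h1.comp hφ.tendsto_atTop
  have hpair : Tendsto (fun j : ℕ => ((1 / (2 * R * ((φ j : ℕ) + 1 : ℝ)), z (φ j)) : ℝ × ℂ)) atTop
      (𝓝 (0, z0)) := hscale.prodMk_nhds hlim
  have cD : Continuous fun x : ℝ × ℂ => DD a x.1 x.2 := by
    unfold DD
    refine continuous_finsetProd _ fun k _ => ?_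
    fun_prop
  have cD' : Continuous fun x : ℝ × ℂ => DD' a x.1 x.2 := by
    unfold DD'
    refine continuous_finsetSum _ fun k _ => ?_
    refine Continuous.mul (continuous_finsetProd _ fun k _ => ?_) ?_ <;> fun_prop
  have cN : Continuous (NN a) := (NN_diff a).continuous
  have cN' : Continuous (deriv (NN a)) := by
    have : ContDiff ℂ ⊤ (NN a) := by
      unfold NN
      refine contDiff_id.mul ?_
      exact contDiff_prod fun k _ => by fun_prop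
    exact this.continuous_deriv le_top
  have dD : DD a 0 z0 = 1 := by simp [DD]
  have dD' : DD' a 0 z0 = 0 := by simp [DD']
  have l1 : Tendsto (fun j : ℕ => deriv (NN a) (z (φ j)) * DD a (1 / (2 * R * ((φ j : ℕ) + 1 : ℝ)))
      (z (φ j)) - NN a (z (φ j)) * DD' a (1 / (2 * R * ((φ j : ℕ) + 1 : ℝ))) (z (φ j))) atTop
      (𝓝 (deriv (NN a) z0)) := by
    have h1 := ((cN'.tendsto z0).comp hlim).mul ((cD.tendsto (0, z0)).comp hpair)
    have h2 := ((cN.tendsto z0).comp hlim).mul ((cD'.tendsto (0, z0)).comp hpair)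
    have h3 := h1.sub h2
    simp only [dD, dD', mul_one, mul_zero, sub_zero] at h3
    exact h3
  have l2 : deriv (NN a) z0 = 0 := by
    refine tendsto_nhds_unique l1 ?_
    refine tendsto_const_nhds.congr fun j => ?_
    exact (hz2 (φ j)).symm
  have l3 : ‖NN a z0‖ ≤ (∏ k, ‖a k‖) * ‖z0‖ := by
    have h1 : Tendsto (fun j : ℕ => ‖NN a (z (φ j))‖) atTop (𝓝 ‖NN a z0‖) :=
      ((cN.tendsto z0).comp hlim).norm
    have h2 : Tendsto (fun j : ℕ => (∏ k, ‖a k‖) * ‖z (φ j)‖ *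
        ‖DD a (1 / (2 * R * ((φ j : ℕ) + 1 : ℝ))) (z (φ j))‖) atTop
        (𝓝 ((∏ k, ‖a k‖) * ‖z0‖ * ‖DD a 0 z0‖)) :=
      (hlim.norm.const_mul _).mul ((cD.tendsto (0, z0)).comp hpair).norm
    rw [dD, norm_one, mul_one] at h2
    exact le_of_tendsto_of_tendsto' h1 h2 fun j => hz3 (φ j)
  have := hbad z0 l2
  linarith

end Pool.Agent.TH222.SM
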