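import Mathlib
import Pool.Agent.TH222.SM14

/-! The polynomial written through its zeros. -/

set_option autoImplicit false

open Polynomial Filter Topology

namespace Pool.Agent.TH222.SM

/-- The counterexample in terms of zeros. -/
theorem exists_zeros : ∃ (m : ℕ) (a : Fin m → ℂ), 1 ≤ m ∧ (∀ k, a k ≠ 0) ∧
    ∀ z, deriv (NN a) z = 0 → ‖z‖ * ∏ k, ‖a k‖ < ‖NN a z‖ := by
  obtain ⟨q, h0, hdeg, hbad⟩ := exists_poly
  set r := q.divX with hr
  have hq : q = X * r := by
    have := X_mul_divX_add q
    rw [coeff_zero_eq_eval_zero, h0, C_0, add_zero] at this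
    exact this.symm
  have hrdeg : 1 ≤ r.natDegree := by
    rw [hr, natDegree_divX_eq_natDegree_tsub_one]; omega
  have hr0 : r ≠ 0 := by
    intro h; rw [h, natDegree_zero] at hrdeg; omega
  have hd0 : (derivative q).eval 0 = r.eval 0 := by
    rw [hq]; simp
  have hd0' : (derivative q).eval 0 ≠ 0 := by
    intro h
    have := hbad 0 h
    rw [h0] at this
    simp at this
  have hsplit : r.Splits := IsAlgClosed.splits r
  have hprod := hsplit.eq_prod_roots
  have hcard : r.roots.card = r.natDegree := (hsplit.natDegree_eq_card_roots).symm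
  set l := r.roots.toList with hl
  have hlen : l.length = r.natDegree := by rw [hl, Multiset.length_toList, hcard]
  set a : Fin l.length → ℂ := fun i => l.get i with ha
  have hroots : ∀ (f : ℂ → ℂ), ∏ k, f (a k) = (r.roots.map f).prod := by
    intro f
    have e : (r.roots.map f).prod = (l.map f).prod := by
      rw [← Multiset.coe_toList r.roots, Multiset.map_coe, Multiset.prod_coe]
    rw [e, ha]
    have := Fin.prod_univ_getElem (l.map f)
    rw [← this]
    have hlm : (l.map f).length = l.length := List.length_map f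
    refine (Fintype.prod_equiv (finCongr hlm) _ _ fun i => ?_).symm
    simp
  have hr_eval : ∀ z, r.eval z = r.leadingCoeff * ∏ k, (z - a k) := by
    intro z
    rw [hroots fun x => z - x]
    conv_lhs => rw [hprod]
    rw [eval_mul, eval_C, eval_multiset_prod, Multiset.map_map]
    simp
  have hq_eval : ∀ z, q.eval z = r.leadingCoeff * NN a z := by
    intro z
    rw [hq, eval_mul, eval_X, hr_eval, NN]; ring
  have hlc : r.leadingCoeff ≠ 0 := leadingCoeff_ne_zero.2 hr0
  have hnorm0 : ‖(derivative q).eval 0‖ = ‖r.leadingCoeff‖ * ∏ k, ‖a k‖ := by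
    rw [hd0, hr_eval, norm_mul, norm_prod]
    simp
  refine ⟨l.length, a, by omega, fun k hk => ?_, fun z hz => ?_⟩
  · apply hd0'
    rw [← norm_eq_zero, hnorm0, Finset.prod_eq_zero (Finset.mem_univ k) (by rw [hk, norm_zero]),
      mul_zero]
  · have hderiv : (derivative q).eval z = r.leadingCoeff * deriv (NN a) z := by
      have h1 : deriv (fun z => q.eval z) z = (derivative q).eval z := Polynomial.deriv q
      rw [← h1]
      have h2 : (fun z => q.eval z) = fun z => r.leadingCoeff * NN a z := funext hq_eval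
      rw [h2, deriv_const_mul _ (NN_diff a z)]
    rw [hz, mul_zero] at hderiv
    have h3 := hbad z hderiv
    rw [hnorm0, hq_eval, norm_mul] at h3
    have h4 : 0 < ‖r.leadingCoeff‖ := norm_pos_iff.2 hlc
    have h5 : ‖r.leadingCoeff‖ * (‖z‖ * ∏ k, ‖a k‖) < ‖r.leadingCoeff‖ * ‖NN a z‖ := by
      calc ‖r.leadingCoeff‖ * (‖z‖ * ∏ k, ‖a k‖) = ‖z‖ * (‖r.leadingCoeff‖ * ∏ k, ‖a k‖) := by ring
        _ < _ := h3
    exact lt_of_mul_lt_mul_left h5 h4.le

end Pool.Agent.TH222.SM
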